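import Pool.Agent.Lib_helper77.VC3.Grow

set_option autoImplicit false

open Matrix Filter Topology

namespace Pool.Agent.Lib_helper77.VC

/-! ### the second block -/

theorem sqrt_prod_four {N n m : ℕ} (hnm : n ≤ m) (hm : m < N) :
    Real.sqrt (∏ i ∈ Finset.Ico n m, sb N (i + 1) ^ 4) = (Bn N m / Bn N n) ^ 2 := by
  have h0 := Bn_pos (N := N) (n := m) hm
  have h1 := Bn_pos (N := N) (n := n) (by omega)
  rw [Finset.prod_pow, Bn_Ico hnm hm, show (Bn N m / Bn N n) ^ 4 = ((Bn N m / Bn N n) ^ 2) ^ 2 by ring,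
    Real.sqrt_sq (by positivity)]

theorem en_le_top (D : ℕ → ℂ → ℕ → ℕ → ℂ) {N c n m : ℕ} (hc : c < N) (h1 : N - 1 - c ≤ n)
    (h2 : n ≤ m) (h3 : m ≤ c) : en D N c n m ≤ ‖D N (rt N) n m‖ * (Bn N m / Bn N n) ^ 2 := by
  unfold en
  apply mul_le_mul_of_nonneg_left _ (norm_nonneg _)
  rw [← sqrt_prod_four h2 (by omega)]
  apply Real.sqrt_le_sqrt
  apply Finset.prod_le_prod (fun _ _ => abs_nonneg _)
  intro i hi
  rw [Finset.mem_Ico] at hi
  exact rp_le hc (by omega) (by omega)

theorem en_top (D : ℕ → ℂ → ℕ → ℕ → ℂ) {N n m : ℕ} (h2 : n ≤ m) (h3 : m < N) :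
    en D N (N - 1) n m = ‖D N (rt N) n m‖ * (Bn N m / Bn N n) ^ 2 := by
  unfold en
  rw [← sqrt_prod_four h2 h3]
  congr 2
  refine Finset.prod_congr rfl fun i _ => ?_
  rw [rp_top N _ (by omega), abs_of_nonneg (by positivity)]

theorem norm_D1_top {N n m : ℕ} (hnm : n ≤ m) (hm : m < N) :
    ‖Dx1 (rt N) N n m‖ * (Bn N m / Bn N n) ^ 2 = Bn N m / (Bn N n * Bn N (m - n)) := by
  rw [norm_Dx1 hnm hm]
  have h0 := Bn_pos (N := N) (n := m) hm
  have h1 := Bn_pos (N := N) (n := n) (by omega)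
  have h3 := Bn_pos (N := N) (n := m - n) (by omega)
  field_simp

theorem log_D1_top {N n m : ℕ} (hnm : n ≤ m) (hm : m < N) :
    Real.log (Bn N m / (Bn N n * Bn N (m - n))) = Real.log N -
      (Real.log (Bn N (N - 1 - m)) + Real.log (Bn N n) + Real.log (Bn N (m - n))) := by
  have h0 := Bn_pos (N := N) (n := m) hm
  have h1 := Bn_pos (N := N) (n := n) (by omega)
  have h3 := Bn_pos (N := N) (n := m - n) (by omega)
  have h4 := Bn_pos (N := N) (n := N - 1 - m) (by omega)
  have h5 := Bn_refl hm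
  rw [Real.log_div h0.ne' (by positivity), Real.log_mul h1.ne' h3.ne', ← h5,
    Real.log_mul h0.ne' h4.ne']
  ring

theorem D1_top_le {N n m : ℕ} (hnm : n ≤ m) (hm : m < N) :
    Bn N m / (Bn N n * Bn N (m - n)) ≤ Real.exp (Real.log N + (2 * cv * N + 1)) := by
  have h0 := Bn_pos (N := N) (n := m) hm
  have h1 := Bn_pos (N := N) (n := n) (by omega)
  have h3 := Bn_pos (N := N) (n := m - n) (by omega)
  rw [← Real.log_le_iff_le_exp (by positivity), log_D1_top hnm hm]
  have h6 := log_Bn_three (N := N) (u := N - 1 - m) (v := n) (w := m - n) (by omega)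
  linarith

/-! ### the first block -/

/-- `cot (π l / N)` -/
noncomputable def ct (N l : ℕ) : ℝ := Real.cos (Real.pi * l / N) / Real.sin (Real.pi * l / N)

theorem ct_nonneg {N l : ℕ} (h1 : 1 ≤ l) (h2 : 2 * l ≤ N) : 0 ≤ ct N l := by
  have hN : (0 : ℝ) < N := by exact_mod_cast (by omega : 0 < N)
  have h2' : (2 : ℝ) * l ≤ N := by exact_mod_cast h2
  have hl : (1 : ℝ) ≤ l := by exact_mod_cast h1
  have hpi := Real.pi_pos
  have hx : Real.pi * l / N ≤ Real.pi / 2 := by
    rw [div_le_div_iff₀ hN (by norm_num)]; nlinarith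
  have hx0 : 0 ≤ Real.pi * l / N := by positivity
  unfold ct
  apply div_nonneg
  · exact Real.cos_nonneg_of_mem_Icc ⟨by linarith, hx⟩
  · exact Real.sin_nonneg_of_nonneg_of_le_pi hx0 (by linarith)

theorem ct_le_inv {N l : ℕ} (h1 : 1 ≤ l) (h2 : 2 * l ≤ N) : ct N l ≤ N / (Real.pi * l) := by
  have hN : (0 : ℝ) < N := by exact_mod_cast (by omega : 0 < N)
  have h2' : (2 : ℝ) * l ≤ N := by exact_mod_cast h2
  have hl : (1 : ℝ) ≤ l := by exact_mod_cast h1
  have hpi := Real.pi_pos
  have hx : Real.pi * l / N ≤ Real.pi / 2 := by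
    rw [div_le_div_iff₀ hN (by norm_num)]; nlinarith
  have hx0 : 0 < Real.pi * l / N := by positivity
  have hs : 0 < Real.sin (Real.pi * l / N) := Real.sin_pos_of_pos_of_lt_pi hx0 (by linarith)
  unfold ct
  rw [div_le_div_iff₀ hs (by positivity)]
  have h3 : Real.pi * l / N * Real.cos (Real.pi * l / N) ≤ Real.sin (Real.pi * l / N) := by
    rcases eq_or_lt_of_le hx with h | h
    · rw [h, Real.cos_pi_div_two, mul_zero, Real.sin_pi_div_two]; norm_num
    · have h4 := (Real.lt_tan hx0 h).le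
      have hc : 0 < Real.cos (Real.pi * l / N) := Real.cos_pos_of_mem_Ioo ⟨by linarith, h⟩
      rw [Real.tan_eq_sin_div_cos, le_div_iff₀ hc] at h4
      exact h4
  have h5 : Real.cos (Real.pi * l / N) * (Real.pi * l) =
      (Real.pi * l / N * Real.cos (Real.pi * l / N)) * N := by field_simp
  rw [h5]
  calc _ ≤ Real.sin (Real.pi * l / N) * N := mul_le_mul_of_nonneg_right h3 hN.le
    _ = _ := by ring

theorem ct_le_one {N l : ℕ} (h1 : N ≤ 4 * l) (h2 : 2 * l ≤ N) (hl : 1 ≤ l) : ct N l ≤ 1 := by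
  have hN : (0 : ℝ) < N := by exact_mod_cast (by omega : 0 < N)
  have h1' : (N : ℝ) ≤ 4 * l := by exact_mod_cast h1
  have h2' : (2 : ℝ) * l ≤ N := by exact_mod_cast h2
  have hpi := Real.pi_pos
  have hx : Real.pi * l / N ≤ Real.pi / 2 := by
    rw [div_le_div_iff₀ hN (by norm_num)]; nlinarith
  have hx4 : Real.pi / 4 ≤ Real.pi * l / N := by
    rw [div_le_div_iff₀ (by norm_num) hN]; nlinarith
  have hs : 0 < Real.sin (Real.pi * l / N) := Real.sin_pos_of_pos_of_lt_pi (by linarith) (by linarith)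
  unfold ct
  rw [div_le_one hs, ← Real.sin_pi_div_two_sub]
  exact Real.sin_le_sin_of_le_of_le_pi_div_two (by linarith) hx (by linarith)

/-- exponent of the first block -/
noncomputable def k1c : ℝ := (1 + Real.log (4 / Real.pi)) / 4

theorem log_four_pi_pos : 0 < Real.log (4 / Real.pi) := by
  apply Real.log_pos
  rw [lt_div_iff₀ Real.pi_pos]
  linarith [Real.pi_lt_four]

theorem ct_prod {N k : ℕ} (hk : 2 * k ≤ N) :
    ∏ l ∈ Finset.range k, ct N (l + 1) ≤ Real.exp (k1c * N) := by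
  have hpi := Real.pi_pos
  have direct : ∀ k : ℕ, 4 * k ≤ N → ∏ l ∈ Finset.range k, ct N (l + 1) ≤ Real.exp (k1c * N) := by
    intro k hk
    rcases Nat.eq_zero_or_pos N with h0 | h0
    · subst h0
      have : k = 0 := by omega
      subst this; simp
    have hN : (0 : ℝ) < N := by exact_mod_cast h0
    have hk4 : (4 : ℝ) * k ≤ N := by exact_mod_cast hk
    have e1 : ∏ l ∈ Finset.range k, ct N (l + 1) ≤
        ∏ l ∈ Finset.range k, ((N : ℝ) / Real.pi) / ((l : ℝ) + 1) := by
      apply Finset.prod_le_prod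
      · intro l hl
        rw [Finset.mem_range] at hl
        exact ct_nonneg (by omega) (by omega)
      · intro l hl
        rw [Finset.mem_range] at hl
        have := ct_le_inv (N := N) (l := l + 1) (by omega) (by omega)
        rw [div_div]
        push_cast at this
        exact this
    have e2 : ∏ l ∈ Finset.range k, ((N : ℝ) / Real.pi) / ((l : ℝ) + 1) =
        ((N : ℝ) / Real.pi) ^ k / (k.factorial : ℝ) := by
      rw [Finset.prod_div_distrib, Finset.prod_const, Finset.card_range]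
      congr 1
      rw [← Finset.prod_range_add_one_eq_factorial]
      push_cast
      rfl
    have e3 : ((N : ℝ) / Real.pi) ^ k / (k.factorial : ℝ) =
        (4 / Real.pi) ^ k * (((N : ℝ) / 4) ^ k / (k.factorial : ℝ)) := by
      rw [← mul_div_assoc, ← mul_pow]
      congr 2
      field_simp
    have e4 := Real.pow_div_factorial_le_exp ((N : ℝ) / 4) (by positivity) k
    have e5 : (4 / Real.pi) ^ k ≤ Real.exp (N / 4 * Real.log (4 / Real.pi)) := by
      rw [← Real.exp_log (by positivity : 0 < (4 / Real.pi) ^ k), Real.log_pow]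
      apply Real.exp_le_exp.mpr
      apply mul_le_mul_of_nonneg_right _ log_four_pi_pos.le
      linarith
    calc _ ≤ _ := e1
      _ = (4 / Real.pi) ^ k * (((N : ℝ) / 4) ^ k / (k.factorial : ℝ)) := by rw [e2, e3]
      _ ≤ Real.exp (N / 4 * Real.log (4 / Real.pi)) * Real.exp (N / 4) :=
          mul_le_mul e5 e4 (by positivity) (Real.exp_pos _).le
      _ = Real.exp (k1c * N) := by
          rw [← Real.exp_add]; congr 1; unfold k1c; ring
  induction k with
  | zero => exact direct 0 (by omega)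
  | succ k ih =>
    by_cases h : 4 * (k + 1) ≤ N
    · exact direct (k + 1) h
    · rw [Finset.prod_range_succ]
      have h1 := ct_le_one (N := N) (l := k + 1) (by omega) hk (by omega)
      have h2 := ih (by omega)
      have h3 : 0 ≤ ∏ l ∈ Finset.range k, ct N (l + 1) := by
        apply Finset.prod_nonneg
        intro l hl
        rw [Finset.mem_range] at hl
        exact ct_nonneg (by omega) (by omega)
      calc _ ≤ (∏ l ∈ Finset.range k, ct N (l + 1)) * 1 := mul_le_mul_of_nonneg_left h1 h3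
        _ ≤ _ := by rw [mul_one]; exact h2

/-- bound for one factor of the first block -/
theorem rp_cos {N c i : ℕ} (hc : c < N) (h0 : 1 ≤ i) (h1 : i < N - 1 - c) (h2 : i ≤ c) :
    |rp N c i| ≤ (sb N i * (2 * Real.cos (Real.pi * i / N))) ^ 2 := by
  rw [abs_of_neg (rp_neg hc h0 h1 h2)]
  have h3 : sb N (c + 1) ^ 2 ≤ 4 := by
    have := sb_le_two N (c + 1)
    have := sb_nonneg (N := N) (m := c + 1) (by omega)
    nlinarith
  have h4 : sb N i ^ 2 + (2 * Real.cos (Real.pi * i / N)) ^ 2 = 4 := by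
    unfold sb
    have := Real.sin_sq_add_cos_sq (Real.pi * i / N)
    linear_combination 4 * this
  unfold rp
  rw [mul_pow, show (2 * Real.cos (Real.pi * i / N)) ^ 2 = 4 - sb N i ^ 2 by linarith]
  nlinarith [sq_nonneg (sb N i)]

theorem sqrt_blk1 {N c n m : ℕ} (hc : c < N) (hnm : n ≤ m) (h1 : m < N - 1 - c) (h2 : m ≤ c) :
    Real.sqrt (∏ i ∈ Finset.Ico n m, |rp N c (i + 1)|) ≤
      (Bn N m / Bn N n) * ∏ i ∈ Finset.Ico n m, (2 * Real.cos (Real.pi * ((i + 1 : ℕ) : ℝ) / N)) := by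
  have hcos : ∀ i ∈ Finset.Ico n m, 0 ≤ 2 * Real.cos (Real.pi * ((i + 1 : ℕ) : ℝ) / N) := by
    intro i hi
    rw [Finset.mem_Ico] at hi
    have hN : (0 : ℝ) < N := by exact_mod_cast (by omega : 0 < N)
    have h3 : (2 : ℝ) * ((i + 1 : ℕ) : ℝ) ≤ N := by exact_mod_cast (by omega : 2 * (i + 1) ≤ N)
    have hpi := Real.pi_pos
    have : 0 ≤ Real.cos (Real.pi * ((i + 1 : ℕ) : ℝ) / N) := by
      apply Real.cos_nonneg_of_mem_Icc
      constructor
      · have : 0 ≤ Real.pi * ((i + 1 : ℕ) : ℝ) / N := by positivity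
        linarith
      · rw [div_le_div_iff₀ hN (by norm_num)]; nlinarith
    linarith
  rw [← Bn_Ico hnm (by omega), ← Finset.prod_mul_distrib]
  have h3 : ∏ i ∈ Finset.Ico n m, |rp N c (i + 1)| ≤
      (∏ i ∈ Finset.Ico n m, (sb N (i + 1) * (2 * Real.cos (Real.pi * ((i + 1 : ℕ) : ℝ) / N)))) ^ 2 := by
    rw [← Finset.prod_pow]
    apply Finset.prod_le_prod (fun _ _ => abs_nonneg _)
    intro i hi
    rw [Finset.mem_Ico] at hi
    exact rp_cos hc (by omega) (by omega) (by omega)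
  calc _ ≤ Real.sqrt ((∏ i ∈ Finset.Ico n m,
        (sb N (i + 1) * (2 * Real.cos (Real.pi * ((i + 1 : ℕ) : ℝ) / N)))) ^ 2) := Real.sqrt_le_sqrt h3
    _ = _ := by
        apply Real.sqrt_sq
        apply Finset.prod_nonneg
        intro i hi
        have hi' := hi
        rw [Finset.mem_Ico] at hi'
        exact mul_nonneg (sb_nonneg (by omega)) (hcos i hi)

/-- the entries of the first block, one crossing -/
theorem en1_blk1 {N c n m : ℕ} (hc : c < N) (hnm : n ≤ m) (h1 : m < N - 1 - c) (h2 : m ≤ c) :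
    en (fun N t => Dx1 t N) N c n m ≤ Real.exp (k1c * N) := by
  have hN : (0 : ℝ) < N := by exact_mod_cast (by omega : 0 < N)
  have b0 := Bn_pos (N := N) (n := m) (by omega)
  have b1 := Bn_pos (N := N) (n := n) (by omega)
  have b3 := Bn_pos (N := N) (n := m - n) (by omega)
  have hpi := Real.pi_pos
  unfold en
  show ‖Dx1 (rt N) N n m‖ * _ ≤ _
  rw [norm_Dx1 hnm (by omega)]
  have h3 := sqrt_blk1 hc hnm h1 h2
  have h4 : Bn N n / (Bn N m * Bn N (m - n)) * Real.sqrt (∏ i ∈ Finset.Ico n m, |rp N c (i + 1)|) ≤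
      (∏ i ∈ Finset.Ico n m, (2 * Real.cos (Real.pi * ((i + 1 : ℕ) : ℝ) / N))) / Bn N (m - n) := by
    calc _ ≤ Bn N n / (Bn N m * Bn N (m - n)) * ((Bn N m / Bn N n) *
          ∏ i ∈ Finset.Ico n m, (2 * Real.cos (Real.pi * ((i + 1 : ℕ) : ℝ) / N))) :=
          mul_le_mul_of_nonneg_left h3 (by positivity)
      _ = _ := by field_simp
  refine h4.trans (le_trans ?_ (ct_prod (N := N) (k := m - n) (by omega)))
  unfold Bn
  rw [Finset.prod_Ico_eq_prod_range, ← Finset.prod_div_distrib]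
  apply Finset.prod_le_prod
  · intro l hl
    rw [Finset.mem_range] at hl
    apply div_nonneg _ (sb_pos (by omega) (by omega)).le
    have h5 : (2 : ℝ) * ((n + l + 1 : ℕ) : ℝ) ≤ N := by exact_mod_cast (by omega : 2 * (n + l + 1) ≤ N)
    have : 0 ≤ Real.cos (Real.pi * ((n + l + 1 : ℕ) : ℝ) / N) := by
      apply Real.cos_nonneg_of_mem_Icc
      constructor
      · have : 0 ≤ Real.pi * ((n + l + 1 : ℕ) : ℝ) / N := by positivity
        linarith
      · rw [div_le_div_iff₀ hN (by norm_num)]; nlinarith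
    linarith
  · intro l hl
    rw [Finset.mem_range] at hl
    unfold ct sb
    have hs : 0 < Real.sin (Real.pi * ((l + 1 : ℕ) : ℝ) / N) := by
      have := sb_pos (N := N) (m := l + 1) (by omega) (by omega)
      unfold sb at this
      linarith
    rw [mul_div_mul_left _ _ two_ne_zero]
    apply div_le_div_of_nonneg_right _ hs.le
    have h5 : (2 : ℝ) * ((n + l + 1 : ℕ) : ℝ) ≤ N := by exact_mod_cast (by omega : 2 * (n + l + 1) ≤ N)
    have h6 : ((l + 1 : ℕ) : ℝ) ≤ ((n + l + 1 : ℕ) : ℝ) := by exact_mod_cast (by omega)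
    apply Real.cos_le_cos_of_nonneg_of_le_pi
    · positivity
    · rw [div_le_iff₀ hN]; nlinarith
    · gcongr

end Pool.Agent.Lib_helper77.VC
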