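import Pool.Agent.Lib_helper77.VC.Defs

set_option autoImplicit false

namespace Pool.Agent.Lib_helper77.VC

theorem strandsList_append (L L' : List Piece) (n : ℕ) :
    strandsList (L ++ L') n = (strandsList L n).bind (strandsList L') := by
  induction L generalizing n with
  | nil => rfl
  | cons P L ih =>
    show (P.strands n).bind (strandsList (L ++ L')) =
      ((P.strands n).bind (strandsList L)).bind (strandsList L')
    rcases h : P.strands n with _ | m
    · rfl
    · exact ih m

/-- The braid `(σ₁^a σ₂^(-a))^n` on the three strands number `3, 4, 5`. -/
def braidWord (a : ℕ) : ℕ → List Piece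
  | 0 => []
  | n + 1 => .twist 3 a :: .twist 4 (-a) :: braidWord a n

theorem braidWord_strands (a n : ℕ) : strandsList (braidWord a n) 7 = some 7 := by
  induction n with
  | zero => rfl
  | succ n ih => exact ih

/-- The closed 3-braid `(σ₁^a σ₂^(-a))^n` together with its braid axis. The strand number `0` at the
bottom is the axis; three nested minima create the strands `0, 1, 2` (the return strands of the
closure) and `3, 4, 5` (the strands of the braid), the axis is then the strand `6`; after the braid
the axis passes in front of the strands `5, 4, 3`, turns around and comes back behind them; three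
nested maxima close the braid. -/
def axisPieces (a n : ℕ) : List Piece :=
  [.cup 0, .cup 1, .cup 2] ++ (braidWord a n ++ [.twist 5 1, .twist 4 1, .twist 3 2, .twist 4 1,
    .twist 5 1, .cap 2, .cap 1, .cap 0])

theorem axis_closed (a n : ℕ) : strandsList (axisPieces a n) 1 = some 1 := by
  unfold axisPieces
  rw [strandsList_append]
  show strandsList _ 7 = some 1
  rw [strandsList_append, braidWord_strands]
  rfl

/-- The link diagram, cut open at a point of the axis. -/
def axisDiagram (a n : ℕ) : Diagram := ⟨axisPieces a n, axis_closed a n⟩

end Pool.Agent.Lib_helper77.VC
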