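import Pool.Agent.Lib_helper77.VC3.Tau
import Pool.Agent.Lib_helper77.VC3.DefsAx

set_option autoImplicit false

open Polynomial

namespace Pool.Agent.Lib_helper77.VC

/-! ### crossings with the axis -/

theorem Ro_left {t : ℂ} {N : ℕ} (hN : 1 ≤ N) {x : V} (hx : ∀ u v, v ≠ 0 → x u v = 0) (p q : ℤ) :
    Ro t N x p q = if p = 0 then Rcoef N t 0 q 0 * x q 0 else 0 := by
  rw [Ro_apply, Int.toNat_natCast]
  by_cases hp : p = 0
  · subst hp
    rw [if_pos rfl, Finset.sum_eq_single 0]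
    · rw [Nat.cast_zero, sub_zero, zero_add]
    · intro n _ hn
      rw [hx _ _ (by omega), mul_zero]
    · intro h; exact absurd (Finset.mem_range.mpr (by omega)) h
  · rw [if_neg hp]
    apply Finset.sum_eq_zero
    intro n _
    by_cases h : p + n = 0
    · rw [Rcoef_eq_zero (by omega) (by omega), zero_mul]
    · rw [hx _ _ h, mul_zero]

theorem Ro_right {t : ℂ} {N : ℕ} (hN : 1 ≤ N) {x : V} (hx : ∀ u v, u < 0 → x u v = 0) (p : ℤ) :
    Ro t N x p 0 = Rcoef N t p 0 0 * x 0 p := by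
  rw [Ro_apply, Int.toNat_natCast, Finset.sum_eq_single 0]
  · rw [Nat.cast_zero, sub_zero, add_zero]
  · intro n _ hn
    rw [hx _ _ (by omega), mul_zero]
  · intro h; exact absurd (Finset.mem_range.mpr (by omega)) h

theorem Ro_negf {t : ℂ} {N : ℕ} {x : V} (hx : ∀ u v, u < 0 → x u v = 0) (p q : ℤ) (hq : q < 0) :
    Ro t N x p q = 0 := by
  rw [Ro_apply]
  apply Finset.sum_eq_zero
  intro n _
  rw [hx _ _ (by omega), mul_zero]

/-- a single positive crossing on states -/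
theorem gact_one (t : ℂ) (N p : ℕ) (φ : Fn) :
    gact t N (.twist p 1) φ = atp (lift2 (Ro t N)) p φ := rfl

theorem gact_two (t : ℂ) (N p : ℕ) (φ : Fn) :
    gact t N (.twist p 2) φ = atp (lift2 (Ro t N)) p (atp (lift2 (Ro t N)) p φ) := rfl

theorem at3 (Q : Module.End ℂ V) (φ : Fn) (i j k a b c s : ℤ) :
    atp (lift2 Q) 3 φ [i, j, k, a, b, c, s] = Q (fun u v => φ [i, j, k, u, v, c, s]) a b := rfl

theorem at4 (Q : Module.End ℂ V) (φ : Fn) (i j k a b c s : ℤ) :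
    atp (lift2 Q) 4 φ [i, j, k, a, b, c, s] = Q (fun u v => φ [i, j, k, a, u, v, s]) b c := rfl

theorem at5 (Q : Module.End ℂ V) (φ : Fn) (i j k a b c s : ℤ) :
    atp (lift2 Q) 5 φ [i, j, k, a, b, c, s] = Q (fun u v => φ [i, j, k, a, b, u, v]) c s := rfl

/-- the axis passes around the three strands -/
theorem pass {t : ℂ} {N : ℕ} (hN : 1 ≤ N) {φ : Fn} {i j k : ℤ}
    (hφ : ∀ a b c s, s ≠ 0 → φ [i, j, k, a, b, c, s] = 0) (p q r : ℤ) :
    gfold t N [.twist 5 1, .twist 4 1, .twist 3 2, .twist 4 1, .twist 5 1] φ [i, j, k, p, q, r, 0] =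
      Rcoef N t r 0 0 * (Rcoef N t q 0 0 * (Rcoef N t p 0 0 * (Rcoef N t 0 p 0 *
        (Rcoef N t 0 q 0 * (Rcoef N t 0 r 0 * φ [i, j, k, p, q, r, 0]))))) := by
  rw [gfold_cons, gfold_cons, gfold_cons, gfold_cons, gfold_cons, gact_one, gact_one, gact_two,
    gact_one, gact_one]
  show atp (lift2 (Ro t N)) 5 (atp (lift2 (Ro t N)) 4 (atp (lift2 (Ro t N)) 3 (atp (lift2 (Ro t N)) 3
    (atp (lift2 (Ro t N)) 4 (atp (lift2 (Ro t N)) 5 φ))))) [i, j, k, p, q, r, 0] = _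
  set φ1 := atp (lift2 (Ro t N)) 5 φ with h1
  set φ2 := atp (lift2 (Ro t N)) 4 φ1 with h2
  set φ3 := atp (lift2 (Ro t N)) 3 φ2 with h3
  set φ4 := atp (lift2 (Ro t N)) 3 φ3 with h4
  set φ5 := atp (lift2 (Ro t N)) 4 φ4 with h5
  have f1 : ∀ a b c s, φ1 [i, j, k, a, b, c, s] =
      if c = 0 then Rcoef N t 0 s 0 * φ [i, j, k, a, b, s, 0] else 0 := by
    intro a b c s
    rw [h1, at5]
    exact Ro_left hN (fun u v hv => hφ a b u v hv) c s
  have f2 : ∀ a b c s, φ2 [i, j, k, a, b, c, s] =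
      if b = 0 then Rcoef N t 0 c 0 * φ1 [i, j, k, a, c, 0, s] else 0 := by
    intro a b c s
    rw [h2, at4]
    exact Ro_left hN (fun u v hv => by rw [f1, if_neg hv]) b c
  have f3 : ∀ a b c s, φ3 [i, j, k, a, b, c, s] =
      if a = 0 then Rcoef N t 0 b 0 * φ2 [i, j, k, b, 0, c, s] else 0 := by
    intro a b c s
    rw [h3, at3]
    exact Ro_left hN (fun u v hv => by rw [f2, if_neg hv]) a b
  have n3 : ∀ c s, ∀ u v : ℤ, u < 0 → φ3 [i, j, k, u, v, c, s] = 0 := by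
    intro c s u v hu
    rw [f3, if_neg (by omega)]
  have f4 : ∀ a c s, φ4 [i, j, k, a, 0, c, s] = Rcoef N t a 0 0 * φ3 [i, j, k, 0, a, c, s] := by
    intro a c s
    rw [h4, at3]
    exact Ro_right hN (n3 c s) a
  have n4 : ∀ a s, ∀ u v : ℤ, u < 0 → φ4 [i, j, k, a, u, v, s] = 0 := by
    intro a s u v hu
    rw [h4, at3]
    exact Ro_negf (n3 v s) a u hu
  have f5 : ∀ a b s, φ5 [i, j, k, a, b, 0, s] = Rcoef N t b 0 0 * φ4 [i, j, k, a, 0, b, s] := by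
    intro a b s
    rw [h5, at4]
    exact Ro_right hN (n4 a s) b
  have n5 : ∀ a b, ∀ u v : ℤ, u < 0 → φ5 [i, j, k, a, b, u, v] = 0 := by
    intro a b u v hu
    rw [h5, at4]
    exact Ro_negf (n4 a v) b u hu
  rw [at5, Ro_right hN (n5 p q) r, f5, f4, f3, if_pos rfl, f2, if_pos rfl, f1, if_pos rfl]

/-- one slice of a state function -/
def sl3 (φ : Fn) (i j k s : ℤ) : V3 := fun a b c => φ [i, j, k, a, b, c, s]

theorem sl3_at3 (Q : Module.End ℂ V) (m : ℕ) (φ : Fn) (i j k s : ℤ) :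
    sl3 ((atp (lift2 Q) 3)^[m] φ) i j k s = ((L01 Q) ^ m) (sl3 φ i j k s) := by
  induction m with
  | zero => rfl
  | succ m ih =>
    rw [Function.iterate_succ_apply', pow_succ', Module.End.mul_apply, ← ih]
    rfl

theorem sl3_at4 (Q : Module.End ℂ V) (m : ℕ) (φ : Fn) (i j k s : ℤ) :
    sl3 ((atp (lift2 Q) 4)^[m] φ) i j k s = ((L12 Q) ^ m) (sl3 φ i j k s) := by
  induction m with
  | zero => rfl
  | succ m ih =>
    rw [Function.iterate_succ_apply', pow_succ', Module.End.mul_apply, ← ih]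
    rfl

theorem sl3_word (t : ℂ) (N : ℕ) {a : ℕ} (ha : 1 ≤ a) (n : ℕ) : ∀ (φ : Fn) (i j k s : ℤ),
    sl3 (gfold t N (braidWord a n) φ) i j k s = Wa t N a n (sl3 φ i j k s) := by
  induction n with
  | zero => intro φ i j k s; rfl
  | succ n ih =>
    intro φ i j k s
    show sl3 (gfold t N (.twist 3 a :: .twist 4 (-a) :: braidWord a n) φ) i j k s = _
    rw [gfold_cons, gfold_cons, ih]
    have e1 : gact t N (.twist 3 a) φ = (atp (lift2 (Ro t N)) 3)^[a] φ := by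
      show (if 0 ≤ (a : ℤ) then (atp (lift2 (Ro t N)) 3)^[(a : ℤ).natAbs] φ
        else (atp (lift2 (Rm t N)) 3)^[(a : ℤ).natAbs] φ) = _
      rw [if_pos (by omega), Int.natAbs_natCast]
    have e2 : ∀ ψ, gact t N (.twist 4 (-a)) ψ = (atp (lift2 (Rm t N)) 4)^[a] ψ := by
      intro ψ
      show (if 0 ≤ -(a : ℤ) then (atp (lift2 (Ro t N)) 4)^[(-(a : ℤ)).natAbs] ψ
        else (atp (lift2 (Rm t N)) 4)^[(-(a : ℤ)).natAbs] ψ) = _
      rw [if_neg (by omega), Int.natAbs_neg, Int.natAbs_natCast]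
    rw [e1, e2, sl3_at4, sl3_at3]
    unfold Wa
    rw [pow_succ]
    rfl

/-! ### evaluation -/

theorem cups_val (t : ℂ) (N : ℕ) (i j k a b c s : ℤ) :
    gfold t N [.cup 0, .cup 1, .cup 2] g0 [i, j, k, a, b, c, s] =
      if k + a = (N : ℤ) - 1 then cupc t N k * (if j + b = (N : ℤ) - 1 then cupc t N j *
        (if i + c = (N : ℤ) - 1 then cupc t N i * g0 [s] else 0) else 0) else 0 := rfl

theorem caps_val (t : ℂ) (N : ℕ) (φ : Fn) :
    gfold t N [.cap 2, .cap 1, .cap 0] φ [0] = ∑ i ∈ Finset.range N, capc t N i *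
      ∑ j ∈ Finset.range N, capc t N j * ∑ k ∈ Finset.range N, capc t N k *
        φ [(i : ℤ), (j : ℤ), (k : ℤ), (N : ℤ) - 1 - k, (N : ℤ) - 1 - j, (N : ℤ) - 1 - i, 0] := rfl

theorem loop_one {N : ℕ} {i : ℕ} (hi : i < N) :
    capc (rt N) N i * cupc (rt N) N i * (Rcoef N (rt N) ((N : ℤ) - 1 - i) 0 0 *
      Rcoef N (rt N) 0 ((N : ℤ) - 1 - i) 0) = 1 := by
  have hN : 1 ≤ N := by omega
  have ht := rt_ne N
  have h1 := rt_pow_N hN
  rw [Rcoef_zero, Rcoef_zero]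
  unfold capc cupc
  rw [qb_rt hi, inv_one, mul_one, mul_one]
  have e1 : (-rt N ^ 2) ^ i * (-rt N ^ 2) ^ ((i : ℤ) - ((N : ℤ) - 1)) =
      (-1) ^ (2 * (i : ℤ) - ((N : ℤ) - 1)) * rt N ^ (2 * (2 * (i : ℤ) - ((N : ℤ) - 1))) := by
    rw [← zpow_natCast (-rt N ^ 2) i, ← zpow_add₀ (neg_sq_ne ht), ← neg_one_mul (rt N ^ 2), mul_zpow,
      ← zpow_natCast (rt N) 2, ← zpow_mul]
    congr 2
    · ring
    · push_cast; ring
  have e2 : rt N ^ ((2 * ((N : ℤ) - 1 - i) - N + 1) * (2 * 0 - N + 1)) *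
      rt N ^ ((2 * 0 - (N : ℤ) + 1) * (2 * ((N : ℤ) - 1 - i) - N + 1)) =
      rt N ^ (2 * ((N : ℤ) - 1) * (2 * (i : ℤ) - ((N : ℤ) - 1))) := by
    rw [← zpow_add₀ ht]; congr 1; ring
  have e3 : rt N ^ (2 * (2 * (i : ℤ) - ((N : ℤ) - 1))) *
      rt N ^ (2 * ((N : ℤ) - 1) * (2 * (i : ℤ) - ((N : ℤ) - 1))) =
      (-1) ^ (2 * (i : ℤ) - ((N : ℤ) - 1)) := by
    rw [← zpow_add₀ ht, show 2 * (2 * (i : ℤ) - ((N : ℤ) - 1)) + 2 * ((N : ℤ) - 1) *
      (2 * (i : ℤ) - ((N : ℤ) - 1)) = (2 * (N : ℤ)) * (2 * (i : ℤ) - ((N : ℤ) - 1)) by ring,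
      zpow_mul, h1]
  have e4 : ((-1 : ℂ)) ^ (2 * (i : ℤ) - ((N : ℤ) - 1)) * (-1) ^ (2 * (i : ℤ) - ((N : ℤ) - 1)) = 1 := by
    rw [← mul_zpow]; norm_num
  rw [e1, e2, mul_assoc, e3, e4]

theorem kashaev_axis {N : ℕ} (hN : 1 ≤ N) {a : ℕ} (ha : 1 ≤ a) (n : ℕ) :
    kashaev N (axisDiagram a n) = ∑ p ∈ Finset.range N ×ˢ Finset.range N ×ˢ Finset.range N,
      (Wa (rt N) N a n (dl p) (p.1 : ℤ) (p.2.1 : ℤ) (p.2.2 : ℤ) : ℂ) := by
  rw [kashaev_eq hN]
  show gfold (rt N) N (axisPieces a n) g0 [0] = _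
  have e0 : axisPieces a n = [.cup 0, .cup 1, .cup 2] ++ (braidWord a n ++ ([.twist 5 1, .twist 4 1,
    .twist 3 2, .twist 4 1, .twist 5 1] ++ [.cap 2, .cap 1, .cap 0])) := rfl
  rw [e0, gfold_append, gfold_append, gfold_append, caps_val]
  set Φ := gfold (rt N) N [.cup 0, .cup 1, .cup 2] g0 with hΦ
  set Ψ := gfold (rt N) N (braidWord a n) Φ with hΨ
  have hs : ∀ i j k s, sl3 Ψ i j k s = Wa (rt N) N a n (sl3 Φ i j k s) := fun i j k s =>
    sl3_word _ N ha n Φ i j k s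
  have hout : ∀ i j k : ℤ, ∀ a b c s : ℤ, s ≠ 0 → Ψ [i, j, k, a, b, c, s] = 0 := by
    intro i j k a' b c s hs0
    have h1 := congrFun (congrFun (congrFun (hs i j k s) a') b) c
    have h2 : sl3 Φ i j k s = 0 := by
      funext u v w
      show Φ [i, j, k, u, v, w, s] = 0
      rw [hΦ, cups_val]
      have : g0 [s] = 0 := by
        unfold g0
        rw [if_neg]
        intro h
        exact hs0 (by simpa using h)
      rw [this, mul_zero]
      simp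
    rw [h2, map_zero] at h1
    exact h1
  have hin : ∀ i j k : ℕ, i < N → j < N → k < N → sl3 Φ i j k 0 =
      (cupc (rt N) N k * cupc (rt N) N j * cupc (rt N) N i) •
        dl (N - 1 - k, N - 1 - j, N - 1 - i) := by
    intro i j k hi hj hk
    funext u v w
    show Φ [(i : ℤ), j, k, u, v, w, 0] = _
    rw [hΦ, cups_val]
    have : g0 [0] = 1 := by unfold g0; rw [if_pos rfl]
    rw [this, mul_one]
    show _ = (cupc (rt N) N k * cupc (rt N) N j * cupc (rt N) N i) *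
      (if u = ((N - 1 - k : ℕ) : ℤ) ∧ v = ((N - 1 - j : ℕ) : ℤ) ∧ w = ((N - 1 - i : ℕ) : ℤ) then 1 else 0)
    by_cases h1 : (k : ℤ) + u = (N : ℤ) - 1
    · rw [if_pos h1]
      by_cases h2 : (j : ℤ) + v = (N : ℤ) - 1
      · rw [if_pos h2]
        by_cases h3 : (i : ℤ) + w = (N : ℤ) - 1
        · rw [if_pos h3, if_pos (by omega)]; ring
        · rw [if_neg h3, if_neg (by omega)]; ring
      · rw [if_neg h2, if_neg (by omega)]; ring
    · rw [if_neg h1, if_neg (by omega)]; ring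
  have hmain : ∀ i j k : ℕ, i < N → j < N → k < N →
      capc (rt N) N i * (capc (rt N) N j * (capc (rt N) N k *
        gfold (rt N) N [.twist 5 1, .twist 4 1, .twist 3 2, .twist 4 1, .twist 5 1] Ψ
        [(i : ℤ), (j : ℤ), (k : ℤ), (N : ℤ) - 1 - k, (N : ℤ) - 1 - j, (N : ℤ) - 1 - i, 0])) =
      Wa (rt N) N a n (dl (N - 1 - k, N - 1 - j, N - 1 - i)) ((N - 1 - k : ℕ) : ℤ)
        ((N - 1 - j : ℕ) : ℤ) ((N - 1 - i : ℕ) : ℤ) := by
    intro i j k hi hj hk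
    rw [pass hN (hout i j k)]
    have h1 := congrFun (congrFun (congrFun (hs i j k 0) ((N : ℤ) - 1 - k)) ((N : ℤ) - 1 - j))
      ((N : ℤ) - 1 - i)
    have h2 : Ψ [(i : ℤ), (j : ℤ), (k : ℤ), (N : ℤ) - 1 - k, (N : ℤ) - 1 - j, (N : ℤ) - 1 - i, 0] =
        sl3 Ψ i j k 0 ((N : ℤ) - 1 - k) ((N : ℤ) - 1 - j) ((N : ℤ) - 1 - i) := rfl
    rw [h2, h1, hin i j k hi hj hk, map_smul]
    have e1 : ((N - 1 - k : ℕ) : ℤ) = (N : ℤ) - 1 - k := by omega
    have e2 : ((N - 1 - j : ℕ) : ℤ) = (N : ℤ) - 1 - j := by omega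
    have e3 : ((N - 1 - i : ℕ) : ℤ) = (N : ℤ) - 1 - i := by omega
    rw [e1, e2, e3]
    rw [Pi.smul_apply, Pi.smul_apply, Pi.smul_apply, smul_eq_mul]
    have g1 := loop_one hi
    have g2 := loop_one hj
    have g3 := loop_one hk
    generalize (Wa (rt N) N a n (dl (N - 1 - k, N - 1 - j, N - 1 - i)) ((N : ℤ) - 1 - k)
      ((N : ℤ) - 1 - j) ((N : ℤ) - 1 - i) : ℂ) = X
    generalize Rcoef N (rt N) ((N : ℤ) - 1 - i) 0 0 = A1 at *
    generalize Rcoef N (rt N) 0 ((N : ℤ) - 1 - i) 0 = A2 at *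
    generalize Rcoef N (rt N) ((N : ℤ) - 1 - j) 0 0 = B1 at *
    generalize Rcoef N (rt N) 0 ((N : ℤ) - 1 - j) 0 = B2 at *
    generalize Rcoef N (rt N) ((N : ℤ) - 1 - k) 0 0 = C1 at *
    generalize Rcoef N (rt N) 0 ((N : ℤ) - 1 - k) 0 = C2 at *
    generalize capc (rt N) N i = P1 at *
    generalize cupc (rt N) N i = P2 at *
    generalize capc (rt N) N j = Q1 at *
    generalize cupc (rt N) N j = Q2 at *
    generalize capc (rt N) N k = R1 at *
    generalize cupc (rt N) N k = R2 at *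
    calc P1 * (Q1 * (R1 * (A1 * (B1 * (C1 * (C2 * (B2 * (A2 * (R2 * Q2 * P2 * X))))))))) =
        (P1 * P2 * (A1 * A2)) * (Q1 * Q2 * (B1 * B2)) * (R1 * R2 * (C1 * C2)) * X := by ring
      _ = X := by rw [g1, g2, g3]; ring
  set F : ℕ → ℕ → ℕ → ℂ := fun x y z => Wa (rt N) N a n (dl (x, y, z)) (x : ℤ) (y : ℤ) (z : ℤ) with hF
  have hL : ∀ i ∈ Finset.range N, capc (rt N) N i *
      ∑ j ∈ Finset.range N, capc (rt N) N j * ∑ k ∈ Finset.range N, capc (rt N) N k *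
        gfold (rt N) N [.twist 5 1, .twist 4 1, .twist 3 2, .twist 4 1, .twist 5 1] Ψ
        [(i : ℤ), (j : ℤ), (k : ℤ), (N : ℤ) - 1 - k, (N : ℤ) - 1 - j, (N : ℤ) - 1 - i, 0] =
      ∑ j ∈ Finset.range N, ∑ k ∈ Finset.range N, F (N - 1 - k) (N - 1 - j) (N - 1 - i) := by
    intro i hi
    rw [Finset.mul_sum]
    refine Finset.sum_congr rfl fun j hj => ?_
    rw [Finset.mul_sum, Finset.mul_sum]
    refine Finset.sum_congr rfl fun k hk => ?_
    exact hmain i j k (Finset.mem_range.mp hi) (Finset.mem_range.mp hj) (Finset.mem_range.mp hk)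
  rw [Finset.sum_congr rfl hL, Finset.sum_product]
  have hR : ∀ x ∈ Finset.range N, ∑ p ∈ Finset.range N ×ˢ Finset.range N,
      (Wa (rt N) N a n (dl (x, p)) (x : ℤ) (p.1 : ℤ) (p.2 : ℤ) : ℂ) =
      ∑ y ∈ Finset.range N, ∑ z ∈ Finset.range N, F x y z := by
    intro x _
    rw [Finset.sum_product]
  rw [Finset.sum_congr rfl hR]
  have h1 : ∀ i j : ℕ, ∑ k ∈ Finset.range N, F (N - 1 - k) j i = ∑ k ∈ Finset.range N, F k j i :=
    fun i j => Finset.sum_range_reflect (fun k => F k j i) N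
  simp only [h1]
  have h2 : ∀ i : ℕ, ∑ j ∈ Finset.range N, ∑ k ∈ Finset.range N, F k (N - 1 - j) i =
      ∑ j ∈ Finset.range N, ∑ k ∈ Finset.range N, F k j i :=
    fun i => Finset.sum_range_reflect (fun j => ∑ k ∈ Finset.range N, F k j i) N
  simp only [h2]
  rw [Finset.sum_range_reflect (fun i => ∑ j ∈ Finset.range N, ∑ k ∈ Finset.range N, F k j i) N]
  -- reorder the sums
  calc ∑ i ∈ Finset.range N, ∑ j ∈ Finset.range N, ∑ k ∈ Finset.range N, F k j i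
      = ∑ i ∈ Finset.range N, ∑ k ∈ Finset.range N, ∑ j ∈ Finset.range N, F k j i := by
        refine Finset.sum_congr rfl fun i _ => Finset.sum_comm
    _ = ∑ k ∈ Finset.range N, ∑ i ∈ Finset.range N, ∑ j ∈ Finset.range N, F k j i := Finset.sum_comm
    _ = ∑ x ∈ Finset.range N, ∑ y ∈ Finset.range N, ∑ z ∈ Finset.range N, F x y z := by
        refine Finset.sum_congr rfl fun k _ => Finset.sum_comm

end Pool.Agent.Lib_helper77.VC
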