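import Mathlib

set_option autoImplicit false

open Polynomial

namespace Pool.Agent.Lib_helper77.VC

/-! ### bidiagonal functional calculus -/

section

variable {M : Type*} [AddCommGroup M] [Module ℂ M]

theorem comm_aeval {A B : Module.End ℂ M} (h : Commute A B) (p : ℂ[X]) :
    Commute A (aeval B p) := by
  induction p using Polynomial.induction_on' with
  | add p q hp hq => rw [map_add]; exact hp.add_right hq
  | monomial n c =>
    rw [aeval_monomial]
    exact (Algebra.commute_algebraMap_right c A).mul_right (h.pow_right n)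

theorem aevalX (A : Module.End ℂ M) (c : ℂ) (x : M) :
    aeval A (X - C c) x = A x - c • x := by
  rw [map_sub, aeval_X, aeval_C, LinearMap.sub_apply, Module.algebraMap_end_apply]

theorem eigA {A : Module.End ℂ M} {x : M} {c : ℂ} (h : A x = c • x) (p : ℂ[X]) :
    aeval A p x = p.eval c • x := by
  induction p using Polynomial.induction_on' with
  | add p q hp hq => rw [map_add, LinearMap.add_apply, hp, hq, eval_add, add_smul]
  | monomial n b =>
    have h2 : ∀ n : ℕ, (A ^ n) x = c ^ n • x := by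
      intro n
      induction n with
      | zero => simp
      | succ n ih => rw [pow_succ', Module.End.mul_apply, ih, map_smul, h, smul_smul, pow_succ]
    rw [aeval_monomial, Module.End.mul_apply, h2, Module.algebraMap_end_apply, eval_monomial,
      smul_smul]

/-- divided differences with respect to the nodes `γ 0, ..., γ (s-1)` -/
structure DD (γ f : ℕ → ℂ) (s : ℕ) (D : ℕ → ℕ → ℂ) : Prop where
  diag : ∀ n, n < s → D n n = f n
  step : ∀ n m, n < m → m < s → (γ m - γ n) * D n m = D (n + 1) m - D n (m - 1)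

/-- lower bidiagonal chain -/
structure Low (A : Module.End ℂ M) (γ : ℕ → ℂ) (s : ℕ) (u : ℕ → M) : Prop where
  step : ∀ n, A (u n) = γ n • u n + u (n + 1)
  last : u s = 0

/-- upper bidiagonal chain -/
structure Upp (B : Module.End ℂ M) (γ φ : ℕ → ℂ) (u : ℕ → M) : Prop where
  first : B (u 0) = γ 0 • u 0
  step : ∀ n, B (u (n + 1)) = γ (n + 1) • u (n + 1) + φ (n + 1) • u n

theorem Low.zero {A : Module.End ℂ M} {γ : ℕ → ℂ} {s : ℕ} {u : ℕ → M} (h : Low A γ s u) (n : ℕ) :
    u (s + n) = 0 := by
  induction n with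
  | zero => exact h.last
  | succ n ih =>
    have h1 := h.step (s + n)
    rw [ih, map_zero, smul_zero, zero_add] at h1
    exact h1.symm

theorem Low.zero' {A : Module.End ℂ M} {γ : ℕ → ℂ} {s : ℕ} {u : ℕ → M} (h : Low A γ s u) {n : ℕ}
    (hn : s ≤ n) : u n = 0 := by
  obtain ⟨k, rfl⟩ := Nat.exists_eq_add_of_le hn
  exact h.zero k

/-- `∏_{n < i < s} (X - γ i)` -/
noncomputable def pq (γ : ℕ → ℂ) (n s : ℕ) : ℂ[X] := ∏ i ∈ Finset.Ico n s, (X - C (γ i))

theorem Low.kill {A : Module.End ℂ M} {γ : ℕ → ℂ} {s : ℕ} {u : ℕ → M} (h : Low A γ s u)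
    {n m : ℕ} (hnm : n ≤ m) : aeval A (pq γ n s) (u m) = 0 := by
  rcases Nat.lt_or_ge m s with hm | hm
  swap
  · rw [h.zero' hm, map_zero]
  have h1 : ∀ k, m + k ≤ s → aeval A (pq γ m (m + k)) (u m) = u (m + k) := by
    intro k
    induction k with
    | zero => intro _; simp [pq]
    | succ k ih =>
      intro hk
      have e : pq γ m (m + (k + 1)) = (X - C (γ (m + k))) * pq γ m (m + k) := by
        unfold pq
        rw [← add_assoc, Finset.prod_Ico_succ_top (by omega), mul_comm]
      rw [e, map_mul, Module.End.mul_apply, ih (by omega), aevalX, h.step, ← add_assoc]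
      abel
  have e2 : pq γ n s = pq γ n m * pq γ m s := by
    unfold pq
    rw [Finset.prod_Ico_consecutive _ hnm hm.le]
  have h2 := h1 (s - m) (by omega)
  rw [show m + (s - m) = s by omega, h.last] at h2
  rw [e2, map_mul, Module.End.mul_apply, h2, map_zero]

theorem Low.calc {A : Module.End ℂ M} {γ f : ℕ → ℂ} {s : ℕ} {u : ℕ → M} (h : Low A γ s u)
    {D : ℕ → ℕ → ℂ} (hD : DD γ f s D) (hγ : ∀ n m, n < s → m < s → n ≠ m → γ n ≠ γ m) {p : ℂ[X]}
    (hp : ∀ n, n < s → p.eval (γ n) = f n) : ∀ k n, n + k = s →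
    aeval A p (u n) = ∑ m ∈ Finset.Ico n s, D n m • u m := by
  intro k
  induction k with
  | zero =>
    intro n hn
    rw [add_zero] at hn
    subst hn
    rw [h.last, map_zero]
    simp
  | succ k ih =>
    intro n hn
    have hns : n < s := by omega
    have ih' := ih (n + 1) (by omega)
    set S := ∑ m ∈ Finset.Ico n s, D n m • u m with hS
    have hSsplit : S = D n n • u n + ∑ m ∈ Finset.Ico (n + 1) s, D n m • u m := by
      rw [hS, Finset.sum_eq_sum_Ico_succ_bot hns]
    -- (A - γ n) S
    have hAS : A S - γ n • S = ∑ m ∈ Finset.Ico (n + 1) s, D (n + 1) m • u m := by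
      have e1 : A S - γ n • S = ∑ m ∈ Finset.Ico n s, (((γ m - γ n) * D n m) • u m +
          D n m • u (m + 1)) := by
        rw [hS, map_sum, Finset.smul_sum, ← Finset.sum_sub_distrib]
        refine Finset.sum_congr rfl fun m _ => ?_
        rw [map_smul, h.step, smul_add, smul_smul, smul_smul, sub_mul, sub_smul,
          mul_comm (D n m)]
        abel
      rw [e1, Finset.sum_add_distrib, Finset.sum_eq_sum_Ico_succ_bot hns, sub_self, zero_mul,
        zero_smul, zero_add]
      have e2 : ∑ m ∈ Finset.Ico n s, D n m • u (m + 1) =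
          ∑ m ∈ Finset.Ico (n + 1) s, D n (m - 1) • u m := by
        have e3 : ∑ m ∈ Finset.Ico n s, D n m • u (m + 1) =
            ∑ m ∈ Finset.Ico (n + 1) (s + 1), D n (m - 1) • u m := by
          rw [← Finset.sum_Ico_add' (fun m => D n (m - 1) • u m) n s 1]
          refine Finset.sum_congr rfl fun m _ => ?_
          rw [Nat.add_sub_cancel]
        rw [e3, Finset.sum_Ico_succ_top (by omega), h.last, smul_zero, add_zero]
      rw [e2, ← Finset.sum_add_distrib]
      refine Finset.sum_congr rfl fun m hm => ?_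
      rw [Finset.mem_Ico] at hm
      rw [← add_smul, hD.step n m (by omega) hm.2]
      congr 1; ring
    have hc : Commute A (aeval A p) := comm_aeval (Commute.refl A) p
    have hAp : A (aeval A p (u n)) - γ n • aeval A p (u n) = aeval A p (u (n + 1)) := by
      have e1 : A (aeval A p (u n)) = aeval A p (A (u n)) := LinearMap.congr_fun hc.eq (u n)
      rw [e1, h.step, map_add, map_smul]
      abel
    set y := aeval A p (u n) - S with hy
    have hAy : A y = γ n • y := by
      have : A y - γ n • y = 0 := by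
        rw [hy, map_sub, smul_sub]
        have : A (aeval A p (u n)) - A S - (γ n • aeval A p (u n) - γ n • S) =
            (A (aeval A p (u n)) - γ n • aeval A p (u n)) - (A S - γ n • S) := by abel
        rw [this, hAp, hAS, ih', sub_self]
      exact sub_eq_zero.mp this
    have hyz : aeval A (pq γ (n + 1) s) y = 0 := by
      obtain ⟨q, hq⟩ : (X - C (γ n)) ∣ (p - C (p.eval (γ n))) := by
        rw [dvd_iff_isRoot]; simp
      have e1 : aeval A p (u n) = p.eval (γ n) • u n + aeval A q (u (n + 1)) := by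
        have e2 : p = C (p.eval (γ n)) + q * (X - C (γ n)) := by
          rw [mul_comm, ← hq]; ring
        conv_lhs => rw [e2]
        rw [map_add, map_mul, LinearMap.add_apply, Module.End.mul_apply, aevalX, h.step, aeval_C,
          Module.algebraMap_end_apply]
        congr 2
        abel
      have e3 : y = aeval A q (u (n + 1)) - ∑ m ∈ Finset.Ico (n + 1) s, D n m • u m := by
        rw [hy, hSsplit, e1, hp n hns, hD.diag n hns]
        abel
      have hc2 : Commute (aeval A (pq γ (n + 1) s)) (aeval A q) :=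
        comm_aeval (comm_aeval (Commute.refl A) (pq γ (n + 1) s)).symm q
      rw [e3, map_sub, map_sum]
      have e4 : aeval A (pq γ (n + 1) s) (aeval A q (u (n + 1))) = 0 := by
        have := LinearMap.congr_fun hc2.eq (u (n + 1))
        rw [Module.End.mul_apply, Module.End.mul_apply] at this
        rw [this, h.kill le_rfl, map_zero]
      rw [e4, Finset.sum_eq_zero, sub_zero]
      intro m hm
      rw [Finset.mem_Ico] at hm
      rw [map_smul, h.kill hm.1, smul_zero]
    rw [eigA hAy] at hyz
    have hne : (pq γ (n + 1) s).eval (γ n) ≠ 0 := by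
      unfold pq
      rw [eval_prod, Finset.prod_ne_zero_iff]
      intro m hm
      rw [Finset.mem_Ico] at hm
      simp only [eval_sub, eval_X, eval_C]
      exact sub_ne_zero.mpr (hγ n m hns hm.2 (by omega))
    have := (smul_eq_zero.mp hyz).resolve_left hne
    exact sub_eq_zero.mp this

theorem Low.calc' {A : Module.End ℂ M} {γ f : ℕ → ℂ} {s : ℕ} {u : ℕ → M} (h : Low A γ s u)
    {D : ℕ → ℕ → ℂ} (hD : DD γ f s D) (hγ : ∀ n m, n < s → m < s → n ≠ m → γ n ≠ γ m) {p : ℂ[X]}
    (hp : ∀ n, n < s → p.eval (γ n) = f n) {n : ℕ} (hn : n < s) :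
    aeval A p (u n) = ∑ m ∈ Finset.Ico n s, D n m • u m :=
  h.calc hD hγ hp (s - n) n (by omega)

theorem Upp.kill {B : Module.End ℂ M} {γ φ : ℕ → ℂ} {u : ℕ → M} (h : Upp B γ φ u)
    (m : ℕ) : ∀ n, m < n → aeval B (pq γ 0 n) (u m) = 0 := by
  induction m with
  | zero =>
    intro n hn
    have e : pq γ 0 n = pq γ 1 n * (X - C (γ 0)) := by
      unfold pq
      rw [Finset.prod_eq_prod_Ico_succ_bot hn, mul_comm]
    rw [e, map_mul, Module.End.mul_apply, aevalX, h.first, sub_self, map_zero]
  | succ m ih =>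
    intro n hn
    have e : pq γ 0 n = ((∏ i ∈ Finset.Ico 0 (m + 1), (X - C (γ i))) *
        ∏ i ∈ Finset.Ico (m + 2) n, (X - C (γ i))) * (X - C (γ (m + 1))) := by
      unfold pq
      rw [← Finset.prod_Ico_consecutive (fun i => X - C (γ i)) (by omega : 0 ≤ m + 1)
        (by omega : m + 1 ≤ n), Finset.prod_eq_prod_Ico_succ_bot (a := m + 1) (b := n) (by omega)]
      ring
    have e2 : ((∏ i ∈ Finset.Ico 0 (m + 1), (X - C (γ i))) *
        ∏ i ∈ Finset.Ico (m + 2) n, (X - C (γ i))) =
        (∏ i ∈ Finset.Ico (m + 2) n, (X - C (γ i))) * pq γ 0 (m + 1) := by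
      unfold pq
      rw [mul_comm]
    rw [e, e2, map_mul, map_mul, Module.End.mul_apply, Module.End.mul_apply, aevalX, h.step,
      add_sub_cancel_left, map_smul, ih (m + 1) (by omega), smul_zero, map_zero]

theorem Upp.calc {B : Module.End ℂ M} {γ φ f : ℕ → ℂ} {s : ℕ} {u : ℕ → M} (h : Upp B γ φ u)
    {D : ℕ → ℕ → ℂ} (hD : DD γ f s D) (hγ : ∀ n m, n < s → m < s → n ≠ m → γ n ≠ γ m) {p : ℂ[X]}
    (hp : ∀ n, n < s → p.eval (γ n) = f n) : ∀ n, n < s →
    aeval B p (u n) = ∑ m ∈ Finset.range (n + 1), (D m n * ∏ i ∈ Finset.Ico m n, φ (i + 1)) • u m := by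
  intro n
  induction n with
  | zero =>
    intro hs
    rw [eigA h.first, hp 0 hs, Finset.sum_range_one, hD.diag 0 hs]
    simp
  | succ n ih =>
    intro hns
    have ih' := ih (by omega)
    set S := ∑ m ∈ Finset.range (n + 1 + 1), (D m (n + 1) * ∏ i ∈ Finset.Ico m (n + 1), φ (i + 1)) • u m
      with hS
    have hBS : B S - γ (n + 1) • S = φ (n + 1) • ∑ m ∈ Finset.range (n + 1),
        (D m n * ∏ i ∈ Finset.Ico m n, φ (i + 1)) • u m := by
      set w : ℕ → ℂ := fun m => ∏ i ∈ Finset.Ico m (n + 1), φ (i + 1) with hw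
      have hBu : ∀ m, B (u m) = γ m • u m + (if m = 0 then 0 else φ m • u (m - 1)) := by
        intro m
        cases m with
        | zero => rw [if_pos rfl, add_zero]; exact h.first
        | succ m => rw [if_neg (by omega)]; exact h.step m
      have e1 : B S - γ (n + 1) • S = ∑ m ∈ Finset.range (n + 1 + 1),
          (((γ m - γ (n + 1)) * (D m (n + 1) * w m)) • u m +
          (D m (n + 1) * w m) • (if m = 0 then 0 else φ m • u (m - 1))) := by
        rw [hS, map_sum, Finset.smul_sum, ← Finset.sum_sub_distrib]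
        refine Finset.sum_congr rfl fun m _ => ?_
        rw [map_smul, hBu, smul_add, smul_smul, smul_smul, sub_mul, sub_smul,
          mul_comm (D m (n + 1) * _) (γ m)]
        abel
      rw [e1, Finset.sum_add_distrib, Finset.sum_range_succ, sub_self, zero_mul, zero_smul, add_zero,
        Finset.sum_range_succ' _ (n + 1), if_pos rfl, smul_zero, add_zero, ← Finset.sum_add_distrib,
        Finset.smul_sum]
      refine Finset.sum_congr rfl fun m hm => ?_
      rw [Finset.mem_range] at hm
      rw [if_neg (by omega), Nat.add_sub_cancel, smul_smul, smul_smul, ← add_smul]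
      congr 1
      have e2 : w m = φ (m + 1) * w (m + 1) := by
        rw [hw]
        exact Finset.prod_eq_prod_Ico_succ_bot (by omega) _
      have e3 : w m = (∏ i ∈ Finset.Ico m n, φ (i + 1)) * φ (n + 1) := by
        rw [hw]
        exact Finset.prod_Ico_succ_top (by omega) _
      have e4 := hD.step m (n + 1) (by omega) hns
      rw [Nat.add_sub_cancel] at e4
      calc (γ m - γ (n + 1)) * (D m (n + 1) * w m) + D (m + 1) (n + 1) * w (m + 1) * φ (m + 1)
          = -((γ (n + 1) - γ m) * D m (n + 1)) * w m + D (m + 1) (n + 1) * w m := by rw [e2]; ring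
        _ = D m n * w m := by rw [e4]; ring
        _ = _ := by rw [e3]; ring
    have hc : Commute B (aeval B p) := comm_aeval (Commute.refl B) p
    have hBp : B (aeval B p (u (n + 1))) - γ (n + 1) • aeval B p (u (n + 1)) =
        φ (n + 1) • aeval B p (u n) := by
      have e1 : B (aeval B p (u (n + 1))) = aeval B p (B (u (n + 1))) :=
        LinearMap.congr_fun hc.eq (u (n + 1))
      rw [e1, h.step, map_add, map_smul, map_smul]
      abel
    set y := aeval B p (u (n + 1)) - S with hy
    have hBy : B y = γ (n + 1) • y := by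
      have : B y - γ (n + 1) • y = 0 := by
        rw [hy, map_sub, smul_sub]
        have : B (aeval B p (u (n + 1))) - B S - (γ (n + 1) • aeval B p (u (n + 1)) -
            γ (n + 1) • S) = (B (aeval B p (u (n + 1))) - γ (n + 1) • aeval B p (u (n + 1))) -
            (B S - γ (n + 1) • S) := by abel
        rw [this, hBp, hBS, ih', sub_self]
      exact sub_eq_zero.mp this
    have hyz : aeval B (pq γ 0 (n + 1)) y = 0 := by
      obtain ⟨q, hq⟩ : (X - C (γ (n + 1))) ∣ (p - C (p.eval (γ (n + 1)))) := by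
        rw [dvd_iff_isRoot]; simp
      have e1 : aeval B p (u (n + 1)) = p.eval (γ (n + 1)) • u (n + 1) +
          φ (n + 1) • aeval B q (u n) := by
        have e2 : p = C (p.eval (γ (n + 1))) + q * (X - C (γ (n + 1))) := by
          rw [mul_comm, ← hq]; ring
        conv_lhs => rw [e2]
        rw [map_add, map_mul, LinearMap.add_apply, Module.End.mul_apply, aevalX, h.step, aeval_C,
          Module.algebraMap_end_apply, add_sub_cancel_left, map_smul]
      have e3 : y = φ (n + 1) • aeval B q (u n) - ∑ m ∈ Finset.range (n + 1),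
          (D m (n + 1) * ∏ i ∈ Finset.Ico m (n + 1), φ (i + 1)) • u m := by
        rw [hy, hS, Finset.sum_range_succ, e1, hp (n + 1) hns, hD.diag (n + 1) hns,
          Finset.Ico_self, Finset.prod_empty, mul_one]
        abel
      have hc2 : Commute (aeval B (pq γ 0 (n + 1))) (aeval B q) :=
        comm_aeval (comm_aeval (Commute.refl B) (pq γ 0 (n + 1))).symm q
      rw [e3, map_sub, map_sum, map_smul]
      have e4 : aeval B (pq γ 0 (n + 1)) (aeval B q (u n)) = 0 := by
        have := LinearMap.congr_fun hc2.eq (u n)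
        rw [Module.End.mul_apply, Module.End.mul_apply] at this
        rw [this, h.kill n _ (by omega), map_zero]
      rw [e4, smul_zero, Finset.sum_eq_zero, sub_zero]
      intro m hm
      rw [Finset.mem_range] at hm
      rw [map_smul, h.kill m _ hm, smul_zero]
    rw [eigA hBy] at hyz
    have hne : (pq γ 0 (n + 1)).eval (γ (n + 1)) ≠ 0 := by
      unfold pq
      rw [eval_prod, Finset.prod_ne_zero_iff]
      intro m hm
      rw [Finset.mem_Ico] at hm
      simp only [eval_sub, eval_X, eval_C]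
      exact sub_ne_zero.mpr (hγ (n + 1) m hns (by omega) (by omega))
    have := (smul_eq_zero.mp hyz).resolve_left hne
    exact sub_eq_zero.mp this

/-! ### traces -/

/-- the matrix of a function of `A` -/
def XM (D : ℕ → ℕ → ℂ) (s : ℕ) : Matrix (Fin s) (Fin s) ℂ :=
  Matrix.of fun m n => if (n : ℕ) ≤ m then D n m else 0

/-- the matrix of a function of `B` -/
noncomputable def YM (D : ℕ → ℕ → ℂ) (φ : ℕ → ℂ) (s : ℕ) : Matrix (Fin s) (Fin s) ℂ :=
  Matrix.of fun m n => if (m : ℕ) ≤ n then D m n * ∏ i ∈ Finset.Ico (m : ℕ) n, φ (i + 1) else 0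

theorem toMatrix_low {A : Module.End ℂ M} {γ f : ℕ → ℂ} {s : ℕ} {u : ℕ → M} (h : Low A γ s u)
    {D : ℕ → ℕ → ℂ} (hD : DD γ f s D) (hγ : ∀ n m, n < s → m < s → n ≠ m → γ n ≠ γ m) {p : ℂ[X]}
    (hp : ∀ n, n < s → p.eval (γ n) = f n) (b : Module.Basis (Fin s) ℂ M) (hb : ∀ i, b i = u i) :
    LinearMap.toMatrix b b (aeval A p) = XM D s := by
  ext m n
  rw [LinearMap.toMatrix_apply, hb, h.calc' hD hγ hp n.2, map_sum, Finset.sum_apply']
  have e : ∀ k ∈ Finset.Ico (n : ℕ) s, (b.repr (D n k • u k)) m = if k = (m : ℕ) then D n k else 0 := by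
    intro k hk
    rw [Finset.mem_Ico] at hk
    have : u k = b ⟨k, hk.2⟩ := (hb ⟨k, hk.2⟩).symm
    rw [this, map_smul, Finsupp.smul_apply, b.repr_self, Finsupp.single_apply, smul_eq_mul]
    by_cases hkm : k = (m : ℕ)
    · rw [if_pos (Fin.ext hkm), if_pos hkm, mul_one]
    · rw [if_neg (fun h => hkm (congrArg Fin.val h)), if_neg hkm, mul_zero]
  rw [Finset.sum_congr rfl e, Finset.sum_ite_eq']
  unfold XM
  rw [Matrix.of_apply]
  by_cases hnm : (n : ℕ) ≤ m
  · rw [if_pos (by rw [Finset.mem_Ico]; exact ⟨hnm, m.2⟩), if_pos hnm]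
  · rw [if_neg (by rw [Finset.mem_Ico]; tauto), if_neg hnm]

theorem toMatrix_upp {B : Module.End ℂ M} {γ φ f : ℕ → ℂ} {s : ℕ} {u : ℕ → M} (h : Upp B γ φ u)
    {D : ℕ → ℕ → ℂ} (hD : DD γ f s D) (hγ : ∀ n m, n < s → m < s → n ≠ m → γ n ≠ γ m) {p : ℂ[X]}
    (hp : ∀ n, n < s → p.eval (γ n) = f n) (b : Module.Basis (Fin s) ℂ M) (hb : ∀ i, b i = u i) :
    LinearMap.toMatrix b b (aeval B p) = YM D φ s := by
  ext m n
  rw [LinearMap.toMatrix_apply, hb, h.calc hD hγ hp n n.2, map_sum, Finset.sum_apply']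
  have e : ∀ k ∈ Finset.range ((n : ℕ) + 1),
      (b.repr ((D k n * ∏ i ∈ Finset.Ico k (n : ℕ), φ (i + 1)) • u k)) m =
      if k = (m : ℕ) then D k n * ∏ i ∈ Finset.Ico k (n : ℕ), φ (i + 1) else 0 := by
    intro k hk
    rw [Finset.mem_range] at hk
    have hks : k < s := by have := n.2; omega
    have : u k = b ⟨k, hks⟩ := (hb ⟨k, hks⟩).symm
    rw [this, map_smul, Finsupp.smul_apply, b.repr_self, Finsupp.single_apply, smul_eq_mul]
    by_cases hkm : k = (m : ℕ)
    · rw [if_pos (Fin.ext hkm), if_pos hkm, mul_one]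
    · rw [if_neg (fun h => hkm (congrArg Fin.val h)), if_neg hkm, mul_zero]
  rw [Finset.sum_congr rfl e, Finset.sum_ite_eq']
  unfold YM
  rw [Matrix.of_apply]
  by_cases hnm : (m : ℕ) ≤ n
  · rw [if_pos (by rw [Finset.mem_range]; omega), if_pos hnm]
  · rw [if_neg (by rw [Finset.mem_range]; omega), if_neg hnm]

end

/-- additivity of the trace along a surjection -/
theorem trace_surj {V W : Type*} [AddCommGroup V] [Module ℂ V] [FiniteDimensional ℂ V]
    [AddCommGroup W] [Module ℂ W] [FiniteDimensional ℂ W] (E : V →ₗ[ℂ] W)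
    (hE : Function.Surjective E) (f : Module.End ℂ V) (g : Module.End ℂ W)
    (hfg : ∀ x, E (f x) = g (E x)) (hK : ∀ x ∈ LinearMap.ker E, f x ∈ LinearMap.ker E) :
    LinearMap.trace ℂ V f = LinearMap.trace ℂ (LinearMap.ker E) (f.restrict hK) +
      LinearMap.trace ℂ W g := by
  obtain ⟨s, hs⟩ := E.exists_rightInverse_of_surjective (LinearMap.range_eq_top.mpr hE)
  have hs' : ∀ y, E (s y) = y := fun y => LinearMap.congr_fun hs y
  -- projection onto the kernel
  have hr : ∀ x, x - s (E x) ∈ LinearMap.ker E := by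
    intro x
    rw [LinearMap.mem_ker, map_sub, hs', sub_self]
  let ρ : V →ₗ[ℂ] LinearMap.ker E := LinearMap.codRestrict _ (LinearMap.id - s ∘ₗ E) hr
  have e1 : f = (f ∘ₗ (LinearMap.ker E).subtype) ∘ₗ ρ + (f ∘ₗ s) ∘ₗ E := by
    ext x
    simp only [LinearMap.add_apply, LinearMap.comp_apply, Submodule.subtype_apply, ρ,
      LinearMap.codRestrict_apply, LinearMap.sub_apply, LinearMap.id_apply, map_sub]
    abel
  conv_lhs => rw [e1]
  rw [map_add, LinearMap.trace_comp_comm' ρ (f ∘ₗ (LinearMap.ker E).subtype), LinearMap.trace_comp_comm' E (f ∘ₗ s)]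
  have e2 : ρ ∘ₗ (f ∘ₗ (LinearMap.ker E).subtype) = f.restrict hK := by
    apply LinearMap.ext
    intro x
    apply Subtype.ext
    have hx : E (f x) = 0 := by rw [hfg, LinearMap.mem_ker.mp x.2, map_zero]
    simp only [LinearMap.comp_apply, Submodule.subtype_apply, ρ, LinearMap.codRestrict_apply,
      LinearMap.sub_apply, LinearMap.id_apply, LinearMap.restrict_apply, hx, map_zero, sub_zero]
  have e3 : E ∘ₗ (f ∘ₗ s) = g := by
    apply LinearMap.ext
    intro y
    rw [LinearMap.comp_apply, LinearMap.comp_apply, hfg, hs']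
  rw [e2, e3]

end Pool.Agent.Lib_helper77.VC
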