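import Pool.Agent.Lib_helper77.VC3.Lin
import Pool.Agent.Lib_helper77.VC3.Tri

set_option autoImplicit false

open Matrix

namespace Pool.Agent.Lib_helper77.VC

/-- a block of the lower triangular matrix -/
def bX (D : ℕ → ℕ → ℂ) (lo hi s : ℕ) : Matrix (Fin s) (Fin s) ℂ :=
  Matrix.of fun m n => if lo ≤ (n : ℕ) ∧ (n : ℕ) ≤ m ∧ (m : ℕ) < hi then D n m else 0

/-- a block of the upper triangular matrix -/
noncomputable def bY (D : ℕ → ℕ → ℂ) (φ : ℕ → ℝ) (lo hi s : ℕ) : Matrix (Fin s) (Fin s) ℂ :=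
  Matrix.of fun m n => if lo ≤ (m : ℕ) ∧ (m : ℕ) ≤ n ∧ (n : ℕ) < hi then
    (starRingEnd ℂ) (D m n) * ∏ i ∈ Finset.Ico (m : ℕ) n, (φ (i + 1) : ℂ) else 0

theorem blk_split {D D' : ℕ → ℕ → ℂ} {f : ℕ → ℂ} {φ : ℕ → ℝ} {s z : ℕ}
    (hD : ∀ n m, n ≤ m → m < s → D' n m = (starRingEnd ℂ) (D n m))
    (hf : ∀ i, f i = (φ i : ℂ)) (hz : φ z = 0) {n : ℕ} (hn : 1 ≤ n) :
    trace ((YM D' f s * XM D s) ^ n) = trace ((bY D φ 0 z s * bX D 0 z s) ^ n) +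
      trace ((bY D φ z s s * bX D z s s) ^ n) := by
  have hY : ∀ i k : Fin s, YM D' f s i k = if (i : ℕ) ≤ k then
      (starRingEnd ℂ) (D i k) * ∏ r ∈ Finset.Ico (i : ℕ) k, (φ (r + 1) : ℂ) else 0 := by
    intro i k
    unfold YM
    rw [of_apply]
    split_ifs with h
    · rw [hD _ _ h k.2]
      congr 1
      exact Finset.prod_congr rfl fun r _ => hf _
    · rfl
  have hYz : ∀ i k : Fin s, (i : ℕ) < z → z ≤ (k : ℕ) → YM D' f s i k = 0 := by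
    intro i k h1 h2
    rw [hY, if_pos (by omega)]
    have : ∏ r ∈ Finset.Ico (i : ℕ) k, (φ (r + 1) : ℂ) = 0 := by
      rw [Finset.prod_eq_zero_iff]
      refine ⟨z - 1, Finset.mem_Ico.mpr (by omega), ?_⟩
      rw [show z - 1 + 1 = z by omega, hz, Complex.ofReal_zero]
    rw [this, mul_zero]
  refine split_trace (fun i : Fin s => (i : ℕ) < z) ?_ ?_ ?_ ?_ ?_ hn
  · intro i j hi hj
    rw [mul_apply]
    apply Finset.sum_eq_zero
    intro k _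
    by_cases hk : (j : ℕ) ≤ k
    · rw [hYz i k hi (by omega), zero_mul]
    · unfold XM
      rw [of_apply, if_neg hk, mul_zero]
  · intro i j hi hj
    rw [mul_apply, mul_apply]
    refine Finset.sum_congr rfl fun k _ => ?_
    by_cases hk : (k : ℕ) < z
    · congr 1
      · rw [hY]
        unfold bY
        rw [of_apply]
        by_cases hik : (i : ℕ) ≤ k
        · rw [if_pos ⟨Nat.zero_le _, hik, hk⟩, if_pos hik]
        · rw [if_neg (fun h => hik h.2.1), if_neg hik]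
      · unfold bX XM
        rw [of_apply, of_apply]
        by_cases hjk : (j : ℕ) ≤ k
        · rw [if_pos ⟨Nat.zero_le _, hjk, hk⟩, if_pos hjk]
        · rw [if_neg (fun h => hjk h.2.1), if_neg hjk]
    · rw [hYz i k hi (by omega), zero_mul]
      unfold bY
      rw [of_apply, if_neg (fun h => hk h.2.2), zero_mul]
  · intro i j hij
    rw [mul_apply]
    apply Finset.sum_eq_zero
    intro k _
    unfold bX bY
    rw [of_apply, of_apply]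
    by_cases h1 : 0 ≤ (i : ℕ) ∧ (i : ℕ) ≤ k ∧ (k : ℕ) < z
    · rw [if_neg (c := 0 ≤ (j : ℕ) ∧ (j : ℕ) ≤ k ∧ (k : ℕ) < z) (fun h2 => hij ⟨by omega, by omega⟩),
        mul_zero]
    · rw [if_neg h1, zero_mul]
  · intro i j hi hj
    rw [mul_apply, mul_apply]
    refine Finset.sum_congr rfl fun k _ => ?_
    congr 1
    · rw [hY]
      unfold bY
      rw [of_apply]
      by_cases hik : (i : ℕ) ≤ k
      · rw [if_pos ⟨by omega, hik, k.2⟩, if_pos hik]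
      · rw [if_neg (fun h => hik h.2.1), if_neg hik]
    · unfold bX XM
      rw [of_apply, of_apply]
      by_cases hjk : (j : ℕ) ≤ k
      · rw [if_pos ⟨by omega, hjk, k.2⟩, if_pos hjk]
      · rw [if_neg (fun h => hjk h.2.1), if_neg hjk]
  · intro i j hij
    rw [mul_apply]
    apply Finset.sum_eq_zero
    intro k _
    unfold bX bY
    rw [of_apply, of_apply]
    by_cases h1 : z ≤ (i : ℕ) ∧ (i : ℕ) ≤ k ∧ (k : ℕ) < s
    · rw [if_neg (c := z ≤ (j : ℕ) ∧ (j : ℕ) ≤ k ∧ (k : ℕ) < s) (fun h2 => hij ⟨by omega, by omega⟩),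
        mul_zero]
    · rw [if_neg h1, zero_mul]

/-- square of the weights -/
noncomputable def psi (φ : ℕ → ℝ) (lo hi i : ℕ) : ℝ := if lo < i ∧ i < hi then |φ i| else 1

noncomputable def gw (φ : ℕ → ℝ) (lo hi m : ℕ) : ℝ :=
  Real.sqrt (∏ i ∈ Finset.range m, psi φ lo hi (i + 1))

theorem psi_pos {φ : ℕ → ℝ} {lo hi : ℕ} (h : ∀ i, lo < i → i < hi → φ i ≠ 0) (i : ℕ) :
    0 < psi φ lo hi i := by
  unfold psi
  split_ifs with h1
  · exact abs_pos.mpr (h i h1.1 h1.2)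
  · norm_num

theorem gw_pos {φ : ℕ → ℝ} {lo hi : ℕ} (h : ∀ i, lo < i → i < hi → φ i ≠ 0) (m : ℕ) :
    0 < gw φ lo hi m := Real.sqrt_pos.mpr (Finset.prod_pos fun i _ => psi_pos h _)

theorem gw_ratio {φ : ℕ → ℝ} {lo hi : ℕ} (h : ∀ i, lo < i → i < hi → φ i ≠ 0) {n m : ℕ}
    (h1 : lo ≤ n) (h2 : n ≤ m) (h3 : m < hi) : gw φ lo hi m =
      Real.sqrt (∏ i ∈ Finset.Ico n m, |φ (i + 1)|) * gw φ lo hi n := by
  unfold gw
  rw [← Real.sqrt_mul (Finset.prod_nonneg fun i _ => abs_nonneg _)]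
  congr 1
  rw [← Finset.prod_range_mul_prod_Ico _ h2, mul_comm]
  congr 1
  refine Finset.prod_congr rfl fun i hi' => ?_
  rw [Finset.mem_Ico] at hi'
  unfold psi
  rw [if_pos (by omega)]

theorem bX_bound {D : ℕ → ℕ → ℂ} {φ : ℕ → ℝ} {lo hi s : ℕ}
    (h : ∀ i, lo < i → i < hi → φ i ≠ 0) {K : ℝ} (hK : 0 ≤ K)
    (hb : ∀ n m, lo ≤ n → n ≤ m → m < hi → m < s →
      ‖D n m‖ * Real.sqrt (∏ i ∈ Finset.Ico n m, |φ (i + 1)|) ≤ K) (i j : Fin s) :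
    ‖bX D lo hi s i j‖ * gw φ lo hi i ≤ K * gw φ lo hi j := by
  unfold bX
  rw [of_apply]
  split_ifs with h1
  · rw [gw_ratio h h1.1 h1.2.1 h1.2.2, ← mul_assoc]
    exact mul_le_mul_of_nonneg_right (hb _ _ h1.1 h1.2.1 h1.2.2 i.2) (gw_pos h _).le
  · rw [norm_zero, zero_mul]
    exact mul_nonneg hK (gw_pos h _).le

theorem bY_bound {D : ℕ → ℕ → ℂ} {φ : ℕ → ℝ} {lo hi s : ℕ}
    (h : ∀ i, lo < i → i < hi → φ i ≠ 0) {K : ℝ} (hK : 0 ≤ K)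
    (hb : ∀ n m, lo ≤ n → n ≤ m → m < hi → m < s →
      ‖D n m‖ * Real.sqrt (∏ i ∈ Finset.Ico n m, |φ (i + 1)|) ≤ K) (i j : Fin s) :
    ‖bY D φ lo hi s i j‖ * gw φ lo hi i ≤ K * gw φ lo hi j := by
  unfold bY
  rw [of_apply]
  split_ifs with h1
  · rw [gw_ratio h h1.1 h1.2.1 h1.2.2, norm_mul, norm_prod]
    have e1 : ∏ b ∈ Finset.Ico (i : ℕ) j, ‖(φ (b + 1) : ℂ)‖ = ∏ b ∈ Finset.Ico (i : ℕ) j, |φ (b + 1)| :=
      Finset.prod_congr rfl fun b _ => by rw [Complex.norm_real, Real.norm_eq_abs]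
    have e2 : ‖(starRingEnd ℂ) (D i j)‖ = ‖D i j‖ := Complex.norm_conj _
    rw [e1, e2]
    have e3 := Real.mul_self_sqrt (Finset.prod_nonneg fun b (_ : b ∈ Finset.Ico (i : ℕ) j) =>
      abs_nonneg (φ (b + 1)))
    have h2 := hb _ _ h1.1 h1.2.1 h1.2.2 j.2
    set R := Real.sqrt (∏ b ∈ Finset.Ico (i : ℕ) j, |φ (b + 1)|) with hR
    rw [← e3]
    have hR0 : 0 ≤ R := Real.sqrt_nonneg _
    have hg := (gw_pos h (i : ℕ)).le
    calc ‖D i j‖ * (R * R) * gw φ lo hi i = (‖D i j‖ * R) * (R * gw φ lo hi i) := by ring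
      _ ≤ K * (R * gw φ lo hi i) := mul_le_mul_of_nonneg_right h2 (mul_nonneg hR0 hg)
  · rw [norm_zero, zero_mul]
    exact mul_nonneg hK (gw_pos h _).le

theorem blk_bound {D : ℕ → ℕ → ℂ} {φ : ℕ → ℝ} {lo hi s : ℕ}
    (h : ∀ i, lo < i → i < hi → φ i ≠ 0) {K : ℝ} (hK : 0 ≤ K)
    (hb : ∀ n m, lo ≤ n → n ≤ m → m < hi → m < s →
      ‖D n m‖ * Real.sqrt (∏ i ∈ Finset.Ico n m, |φ (i + 1)|) ≤ K) (n : ℕ) :
    ‖trace ((bY D φ lo hi s * bX D lo hi s) ^ n)‖ ≤ s * ((s : ℝ) ^ 2 * K ^ 2) ^ n :=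
  hat_bound (g := fun i : Fin s => gw φ lo hi i) (fun i => gw_pos h i) (bX_bound h hK hb)
    (bY_bound h hK hb) n

theorem blk_adj {D : ℕ → ℕ → ℂ} {φ : ℕ → ℝ} {lo hi s : ℕ}
    (h : ∀ i, lo < i → i < hi → 0 < φ i) (i j : Fin s) :
    bY D φ lo hi s i j * (gw φ lo hi i : ℂ) ^ 2 =
      (starRingEnd ℂ) (bX D lo hi s j i) * (gw φ lo hi j : ℂ) ^ 2 := by
  unfold bX bY
  rw [of_apply, of_apply]
  by_cases h1 : lo ≤ (i : ℕ) ∧ (i : ℕ) ≤ j ∧ (j : ℕ) < hi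
  · rw [if_pos h1, if_pos h1, gw_ratio (fun i h1 h2 => (h i h1 h2).ne') h1.1 h1.2.1 h1.2.2, mul_assoc]
    congr 1
    rw [Complex.ofReal_mul, mul_pow]
    congr 1
    rw [← Complex.ofReal_pow, Real.sq_sqrt (Finset.prod_nonneg fun _ _ => abs_nonneg _),
      Complex.ofReal_prod]
    refine Finset.prod_congr rfl fun b hb => ?_
    rw [Finset.mem_Ico] at hb
    rw [abs_of_pos (h (b + 1) (by omega) (by omega))]
  · rw [if_neg h1, if_neg h1, zero_mul, map_zero, zero_mul]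

theorem blk_pos {D : ℕ → ℕ → ℂ} {φ : ℕ → ℝ} {lo hi s : ℕ}
    (h : ∀ i, lo < i → i < hi → 0 < φ i) (n : ℕ) :
    0 ≤ (trace ((bY D φ lo hi s * bX D lo hi s) ^ n)).re ∧
    ∀ k m : ℕ, lo ≤ k → k ≤ m → m < hi → m < s →
      ((‖D k m‖ * Real.sqrt (∏ i ∈ Finset.Ico k m, |φ (i + 1)|)) ^ 2) ^ n ≤
        (trace ((bY D φ lo hi s * bX D lo hi s) ^ n)).re := by
  have h' : ∀ i, lo < i → i < hi → φ i ≠ 0 := fun i h1 h2 => (h i h1 h2).ne'
  obtain ⟨h1, h2⟩ := pos_bound (g := fun i : Fin s => gw φ lo hi i) (fun i => gw_pos h' i)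
    (X := bX D lo hi s) (Y := bY D φ lo hi s) (fun i j => blk_adj h i j) n
  refine ⟨h1, ?_⟩
  intro k m hk hkm hm hms
  have h3 := h2 ⟨m, hms⟩ ⟨k, by omega⟩
  have e : ‖bX D lo hi s ⟨m, hms⟩ ⟨k, by omega⟩‖ * gw φ lo hi m / gw φ lo hi k =
      ‖D k m‖ * Real.sqrt (∏ i ∈ Finset.Ico k m, |φ (i + 1)|) := by
    unfold bX
    rw [of_apply, if_pos ⟨hk, hkm, hm⟩, gw_ratio h' hk hkm hm, ← mul_assoc,
      mul_div_cancel_right₀ _ (gw_pos h' k).ne']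
  rw [← e]
  exact h3

end Pool.Agent.Lib_helper77.VC
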