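import Pool.Agent.Lib_helper77.VC3.Hw

set_option autoImplicit false

open Polynomial

namespace Pool.Agent.Lib_helper77.VC

/-! ### the chain of highest weight vectors -/

/-- first slice of the top vector -/
noncomputable def y0 (t : ℂ) (N c : ℕ) : V := fun j k =>
  if j + k = (c : ℤ) then t ^ (((N : ℤ) - 1) * (k - j)) * (qb t (N - 1) j * qb t (N - 1) k) else 0

theorem y0_mem (t : ℂ) (N c : ℕ) (hN : 1 ≤ N) : y0 t N c ∈ Wt (N : ℤ) c := by
  rw [mem_Wt]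
  intro i j h
  unfold y0 at h
  split_ifs at h with h1
  · have h2 := right_ne_zero_of_mul h
    have h3 := left_ne_zero_of_mul h2
    have h4 := right_ne_zero_of_mul h2
    have a1 : 0 ≤ i := by
      by_contra hh; exact h3 (qb_of_neg (by omega))
    have a2 : i < N := by
      by_contra hh; exact h3 (qb_of_gt (by omega))
    have a3 : 0 ≤ j := by
      by_contra hh; exact h4 (qb_of_neg (by omega))
    have a4 : j < N := by
      by_contra hh; exact h4 (qb_of_gt (by omega))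
    exact ⟨a1, a2, a3, a4, h1⟩
  · exact absurd rfl h

/-- moving the first slice -/
theorem y0_left {t : ℂ} (ht : t ≠ 0) {N c : ℕ} (hN : 1 ≤ N) (hb : BrOK t (N - 1)) (j k : ℤ)
    (hjk : j + k = c) : br t (N - j) * br t (k + 1) * y0 t N c (j - 1) (k + 1) =
      t ^ (2 * ((N : ℤ) - 1)) * br t j * br t (N - 1 - k) * y0 t N c j k := by
  have h1 := qb_rec hb le_rfl j
  have h2 := qb_rec hb le_rfl (k + 1)
  rw [show ((N - 1 : ℕ) : ℤ) - j + 1 = N - j by omega] at h1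
  rw [show ((N - 1 : ℕ) : ℤ) - (k + 1) + 1 = N - 1 - k by omega, show k + 1 - 1 = k by ring] at h2
  unfold y0
  rw [if_pos (by omega), if_pos hjk]
  have e1 : t ^ (((N : ℤ) - 1) * (k + 1 - (j - 1))) = t ^ (2 * ((N : ℤ) - 1)) *
      t ^ (((N : ℤ) - 1) * (k - j)) := by
    rw [← zpow_add₀ ht]; congr 1; ring
  rw [e1]
  linear_combination (t ^ (2 * ((N : ℤ) - 1)) * t ^ (((N : ℤ) - 1) * (k - j)) * br t (k + 1) *
    qb t (N - 1) (k + 1)) * h1 - (t ^ (2 * ((N : ℤ) - 1)) * t ^ (((N : ℤ) - 1) * (k - j)) *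
    qb t (N - 1) j * br t j) * h2

theorem y0_right {t : ℂ} (ht : t ≠ 0) {N c : ℕ} (hN : 1 ≤ N) (hb : BrOK t (N - 1)) (j k : ℤ)
    (hjk : j + k = c) : br t (N - k) * br t (j + 1) * y0 t N c (j + 1) (k - 1) =
      t ^ (-(2 * ((N : ℤ) - 1))) * br t k * br t (N - 1 - j) * y0 t N c j k := by
  have h1 := qb_rec hb le_rfl k
  have h2 := qb_rec hb le_rfl (j + 1)
  rw [show ((N - 1 : ℕ) : ℤ) - k + 1 = N - k by omega] at h1
  rw [show ((N - 1 : ℕ) : ℤ) - (j + 1) + 1 = N - 1 - j by omega, show j + 1 - 1 = j by ring] at h2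
  unfold y0
  rw [if_pos (by omega), if_pos hjk]
  have e1 : t ^ (((N : ℤ) - 1) * (k - 1 - (j + 1))) = t ^ (-(2 * ((N : ℤ) - 1))) *
      t ^ (((N : ℤ) - 1) * (k - j)) := by
    rw [← zpow_add₀ ht]; congr 1; ring
  rw [e1]
  linear_combination (t ^ (-(2 * ((N : ℤ) - 1))) * t ^ (((N : ℤ) - 1) * (k - j)) * br t (j + 1) *
    qb t (N - 1) (j + 1)) * h1 - (t ^ (-(2 * ((N : ℤ) - 1))) * t ^ (((N : ℤ) - 1) * (k - j)) *
    qb t (N - 1) k * br t k) * h2

/-- `∏_{i<n} {j - i}` -/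
noncomputable def Qp (t : ℂ) (n : ℕ) (j : ℤ) : ℂ := ∏ i ∈ Finset.range n, br t (j - i)

theorem Qp_succ (t : ℂ) (n : ℕ) (j : ℤ) : Qp t (n + 1) j = Qp t n j * br t (j - n) := by
  unfold Qp; rw [Finset.prod_range_succ]

theorem Qp_shift (t : ℂ) (n : ℕ) (j : ℤ) : Qp t (n + 1) (j + 1) = br t (j + 1) * Qp t n j := by
  unfold Qp
  rw [Finset.prod_range_succ', mul_comm]
  push_cast
  rw [sub_zero]
  congr 1
  refine Finset.prod_congr rfl fun i _ => ?_
  congr 1; ring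

/-- `Qp n (j-1) {j} = Qp n j {j-n}` -/
theorem Qp_down (t : ℂ) (n : ℕ) (j : ℤ) : Qp t n (j - 1) * br t j = Qp t n j * br t (j - n) := by
  rw [← Qp_succ, show j = (j - 1) + 1 by ring, Qp_shift, show j - 1 + 1 = j by ring, mul_comm]

/-- the first slice of the `n`-th vector -/
noncomputable def ys (t : ℂ) (N c n : ℕ) : V := fun j k =>
  (-1) ^ n * Qp t n (3 * N - 2 - c) * (t ^ (2 * (n : ℤ) * (j + N - 1 - c)) * Qp t n j * y0 t N c j k)

theorem ys_zero (t : ℂ) (N c : ℕ) : ys t N c 0 = y0 t N c := by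
  funext j k
  unfold ys Qp
  simp

theorem A_id {t : ℂ} (ht : t ≠ 0) (N c j n : ℤ) :
    br t (2 * N - 1 - j - n) + t ^ (6 * N - 4 - 2 * c - 2 * n) * br t (N - 1 - c + j) =
      t ^ (2 * (j + N - 1 - c)) * br t (3 * N - 2 - c - n) := by
  have h := br_add t ht (N - 1 - c + j) (2 * N - 1 - j - n)
  rw [show N - 1 - c + j + (2 * N - 1 - j - n) = 3 * N - 2 - c - n by ring] at h
  rw [h, mul_add, ← mul_assoc, ← mul_assoc, ← zpow_add₀ ht, ← zpow_add₀ ht,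
    show 2 * (j + N - 1 - c) + 2 * (2 * N - 1 - j - n) = 6 * N - 4 - 2 * c - 2 * n by ring,
    show 2 * (j + N - 1 - c) + -(2 * (N - 1 - c + j)) = 0 by ring, zpow_zero]
  ring

theorem A_step {t : ℂ} (ht : t ≠ 0) {N c : ℕ} (hN : 1 ≤ N) (hb : BrOK t (N - 1)) (n : ℕ) (j k : ℤ)
    (hjk : j + k = c) : (cc t N j - cc t N n) * ys t N c n j k -
      t ^ (4 * (N : ℤ) - 2 - 2 * c) * br t (N - j) * br t (k + 1) * ys t N c n (j - 1) (k + 1) =
      ys t N c (n + 1) j k := by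
  have h1 := y0_left ht hN hb j k hjk
  have h2 := Qp_down t n j
  have h3 := A_id ht N c j n
  rw [Near.cc_sub t ht]
  unfold ys
  rw [Qp_succ, Qp_succ]
  have hk : k = c - j := by omega
  subst hk
  generalize y0 t N c (j - 1) (c - j + 1) = Y1 at *
  generalize y0 t N c j (c - j) = Y0 at *
  rw [show (N : ℤ) - 1 - (c - j) = N - 1 - c + j by ring] at h1
  have e0 : br t ((n : ℤ) - j) = -br t (j - n) := by
    rw [show (n : ℤ) - j = -(j - n) by ring, br_neg]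
  have e1 : t ^ (4 * (N : ℤ) - 2 - 2 * c) * t ^ (2 * (n : ℤ) * (j - 1 + N - 1 - c)) *
      t ^ (2 * ((N : ℤ) - 1)) = t ^ (2 * (n : ℤ) * (j + N - 1 - c)) *
      t ^ (6 * (N : ℤ) - 4 - 2 * c - 2 * n) := by
    rw [← zpow_add₀ ht, ← zpow_add₀ ht, ← zpow_add₀ ht]; congr 1; ring
  have e2 : t ^ (2 * ((n + 1 : ℕ) : ℤ) * (j + N - 1 - c)) = t ^ (2 * (n : ℤ) * (j + N - 1 - c)) *
      t ^ (2 * (j + (N : ℤ) - 1 - c)) := by
    rw [← zpow_add₀ ht]; congr 1; push_cast; ring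
  rw [e0, e2, pow_succ, show 3 * (N : ℤ) - 2 - c - n = 3 * (N : ℤ) - 2 - c - n from rfl]
  generalize t ^ (2 * (n : ℤ) * (j + N - 1 - c)) = P at *
  generalize t ^ (2 * (n : ℤ) * (j - 1 + N - 1 - c)) = P' at *
  generalize t ^ (4 * (N : ℤ) - 2 - 2 * c) = Q at *
  generalize Qp t n (3 * (N : ℤ) - 2 - c) = R at *
  generalize br t (2 * (N : ℤ) - 1 - j - n) = B1 at *
  generalize br t ((N : ℤ) - 1 - c + j) = B2 at *
  generalize Qp t n (j - 1) = G' at *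
  generalize Qp t n j = G at *
  linear_combination (-((-1) ^ n * R * Q * P' * G')) * h1 -
    ((-1) ^ n * R * Q * P' * t ^ (2 * ((N : ℤ) - 1)) * B2 * Y0) * h2 -
    ((-1) ^ n * R * G * br t (j - n) * B2 * Y0) * e1 - ((-1) ^ n * R * P * G * br t (j - n) * Y0) * h3

theorem B_id {t : ℂ} (ht : t ≠ 0) (N c j n : ℤ) :
    t ^ (4 * N - 4 - 2 * n - 2 * j) * br t (j - n) * br t (j - n - 1) * br t (N - 1 - c + j) +
    t ^ (2 * n - 2 * j) * br t (N - 1 - j) * br t (c - j) * br t (j + 1) +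
    t ^ (2 * (j + N - 1 - c)) * ((t ^ (4 * (c - j) + 2) + t ^ (4 * (c - j) - 4 * N + 2) -
      t ^ (4 * (c - j) - 4 * j + 2) + t ^ (4 * N - 2 - 4 * j) + t ^ (-2 - 4 * j) -
      t ^ (4 * (c - j) - 4 * j - 2)) - cc t N (n + 1)) * br t (j - n) =
    br t (n + 1) * br t (N - n - 1) * br t (c - n) := by
  unfold br cc
  have hJ : t ^ j ≠ 0 := zpow_ne_zero _ ht
  have hn : t ^ n ≠ 0 := zpow_ne_zero _ ht
  have hc : t ^ c ≠ 0 := zpow_ne_zero _ ht
  have hP : t ^ N ≠ 0 := zpow_ne_zero _ ht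
  have h2 : ∀ a : ℤ, t ^ (2 * a) = t ^ a * t ^ a := by
    intro a; rw [← zpow_add₀ ht]; congr 1; ring
  have h4 : ∀ a : ℤ, t ^ (4 * a) = t ^ a * t ^ a * t ^ a * t ^ a := by
    intro a; rw [← zpow_add₀ ht, ← zpow_add₀ ht, ← zpow_add₀ ht]; congr 1; ring
  have e2 : t ^ (2 : ℤ) = t * t := by rw [zpow_ofNat]; ring
  have e4 : t ^ (4 : ℤ) = t * t * t * t := by rw [zpow_ofNat]; ring
  simp only [h2, zpow_add₀ ht, zpow_sub₀ ht, zpow_neg, h4, zpow_one, e2, e4]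
  generalize t ^ j = J at *
  generalize t ^ n = A at *
  generalize t ^ c = C at *
  generalize t ^ N = P at *
  field_simp
  ring

theorem B_id0 {t : ℂ} (ht : t ≠ 0) (N j k : ℤ) :
    (t ^ (4 * k + 2) + t ^ (4 * k - 4 * N + 2) - t ^ (4 * k - 4 * j + 2) +
      t ^ (4 * N - 2 - 4 * j) + t ^ (-2 - 4 * j) - t ^ (4 * k - 4 * j - 2)) +
    t ^ (2 * k - 2 * j + 2) * (t ^ (2 * (N - 1)) * br t j * br t (N - 1 - k)) +
    t ^ (2 * k - 2 * j - 2) * (t ^ (-(2 * (N - 1))) * br t k * br t (N - 1 - j)) = cc t N 0 := by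
  unfold br cc
  have hJ : t ^ j ≠ 0 := zpow_ne_zero _ ht
  have hc : t ^ k ≠ 0 := zpow_ne_zero _ ht
  have hP : t ^ N ≠ 0 := zpow_ne_zero _ ht
  have h2 : ∀ a : ℤ, t ^ (2 * a) = t ^ a * t ^ a := by
    intro a; rw [← zpow_add₀ ht]; congr 1; ring
  have h4 : ∀ a : ℤ, t ^ (4 * a) = t ^ a * t ^ a * t ^ a * t ^ a := by
    intro a; rw [← zpow_add₀ ht, ← zpow_add₀ ht, ← zpow_add₀ ht]; congr 1; ring
  have e2 : t ^ (2 : ℤ) = t * t := by rw [zpow_ofNat]; ring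
  have e4 : t ^ (4 : ℤ) = t * t * t * t := by rw [zpow_ofNat]; ring
  simp only [h2, zpow_add₀ ht, zpow_sub₀ ht, zpow_neg, h4, zpow_one, e2, e4, mul_zero, zpow_zero]
  generalize t ^ j = J at *
  generalize t ^ k = C at *
  generalize t ^ N = P at *
  field_simp
  ring

/-- coefficients of the upper chain -/
noncomputable def phi (t : ℂ) (N c : ℕ) (n : ℕ) : ℂ :=
  -(br t n * br t (N - n) * br t (c + 1 - n) * br t (3 * N - 1 - c - n))

theorem B_step0 {t : ℂ} (ht : t ≠ 0) {N c : ℕ} (hN : 1 ≤ N) (hb : BrOK t (N - 1)) (j k : ℤ)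
    (hjk : j + k = c) : Co t N (y0 t N c) j k = cc t N 0 * y0 t N c j k := by
  have h1 := y0_left ht hN hb j k hjk
  have h2 := y0_right ht hN hb j k hjk
  have h3 := B_id0 ht N j k
  rw [Co_expand ht, ← h3]
  linear_combination (t ^ (2 * k - 2 * j + 2)) * h1 + (t ^ (2 * k - 2 * j - 2)) * h2

theorem B_step {t : ℂ} (ht : t ≠ 0) {N c : ℕ} (hN : 1 ≤ N) (hb : BrOK t (N - 1)) (n : ℕ) (j k : ℤ)
    (hjk : j + k = c) : Co t N (ys t N c (n + 1)) j k = cc t N ((n + 1 : ℕ) : ℤ) * ys t N c (n + 1) j k +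
      phi t N c (n + 1) * ys t N c n j k := by
  have h1 := y0_left ht hN hb j k hjk
  have h2 := y0_right ht hN hb j k hjk
  have h3 := B_id ht N c j n
  have h4 := Qp_down t n j
  have h5 := Qp_shift t n j
  have hk : k = c - j := by omega
  subst hk
  rw [Co_expand ht]
  unfold ys phi
  rw [h5, Qp_succ t n (j - 1), Qp_succ t n j, Qp_succ t n (3 * N - 2 - c)]
  rw [show (N : ℤ) - 1 - (c - j) = N - 1 - c + j by ring] at h1
  have e1 : t ^ (2 * (c - j) - 2 * j + 2) * t ^ (2 * ((n + 1 : ℕ) : ℤ) * (j - 1 + N - 1 - c)) *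
      t ^ (2 * ((N : ℤ) - 1)) = t ^ (2 * (n : ℤ) * (j + N - 1 - c)) *
      t ^ (4 * (N : ℤ) - 4 - 2 * n - 2 * j) := by
    rw [← zpow_add₀ ht, ← zpow_add₀ ht, ← zpow_add₀ ht]; congr 1; push_cast; ring
  have e2 : t ^ (2 * ((n + 1 : ℕ) : ℤ) * (j + N - 1 - c)) = t ^ (2 * (n : ℤ) * (j + N - 1 - c)) *
      t ^ (2 * (j + (N : ℤ) - 1 - c)) := by
    rw [← zpow_add₀ ht]; congr 1; push_cast; ring
  have e3 : t ^ (2 * (c - j) - 2 * j - 2) * t ^ (2 * ((n + 1 : ℕ) : ℤ) * (j + 1 + N - 1 - c)) *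
      t ^ (-(2 * ((N : ℤ) - 1))) = t ^ (2 * (n : ℤ) * (j + N - 1 - c)) *
      t ^ (2 * (n : ℤ) - 2 * j) := by
    rw [← zpow_add₀ ht, ← zpow_add₀ ht, ← zpow_add₀ ht]; congr 1; push_cast; ring
  rw [e2, pow_succ]
  push_cast at *
  rw [show (c : ℤ) + 1 - (n + 1) = c - n by ring, show 3 * (N : ℤ) - 1 - c - (n + 1) =
    3 * N - 2 - c - n by ring, show (N : ℤ) - (n + 1) = N - n - 1 by ring,
    show j - 1 - (n : ℤ) = j - n - 1 by ring]
  generalize y0 t N c (j - 1) (c - j + 1) = Y1 at *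
  generalize y0 t N c (j + 1) (c - j - 1) = Y2 at *
  generalize y0 t N c j (c - j) = Y0 at *
  generalize t ^ (2 * (n : ℤ) * (j + N - 1 - c)) = P at *
  generalize t ^ (2 * ((n : ℤ) + 1) * (j - 1 + N - 1 - c)) = P' at *
  generalize t ^ (2 * ((n : ℤ) + 1) * (j + 1 + N - 1 - c)) = P'' at *
  generalize t ^ (2 * (c - j) - 2 * j + 2) = Q1 at *
  generalize t ^ (2 * (c - j) - 2 * j - 2) = Q2 at *
  generalize Qp t n (3 * (N : ℤ) - 2 - c) = R at *
  generalize br t (3 * (N : ℤ) - 2 - c - n) = RR at *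
  generalize br t ((N : ℤ) - 1 - c + j) = B2 at *
  generalize Qp t n (j - 1) = G' at *
  generalize Qp t n j = G at *
  generalize t ^ (2 * ((N : ℤ) - 1)) = W at *
  generalize t ^ (-(2 * ((N : ℤ) - 1))) = W' at *
  generalize (-1 : ℂ) ^ n = S at *
  linear_combination (-(S * R * RR * Q1 * P' * G' * br t (j - n - 1))) * h1 -
    (S * R * RR * Q1 * P' * W * B2 * Y0 * br t (j - n - 1)) * h4 -
    (S * R * RR * G * br t (j - n) * br t (j - n - 1) * B2 * Y0) * e1 -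
    (S * R * RR * Q2 * P'' * br t (j + 1) * G) * h2 -
    (S * R * RR * br t (j + 1) * G * br t (c - j) * br t (N - 1 - j) * Y0) * e3 -
    (S * R * RR * P * G * Y0) * h3

end Pool.Agent.Lib_helper77.VC
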