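import Pool.Agent.Lib_helper77.VC3.Chain
import Pool.Agent.Lib_helper77.VC2.Circ

set_option autoImplicit false

open Polynomial

namespace Pool.Agent.Lib_helper77.VC

/-- a chain of highest weight vectors -/
structure HWc (t : ℂ) (N c : ℕ) (u : ℕ → V3) : Prop where
  mem : ∀ n, u n ∈ W3 (N : ℤ) c
  hw : ∀ n, E3 t N (u n) = 0
  sl : ∀ n, u n 0 = ys t N c n
  succ : ∀ n, u (n + 1) = L01 (Co t N) (u n) - cc t N n • u n

theorem ys_out (t : ℂ) (N c n : ℕ) {j k : ℤ} (h : j + k ≠ c) : ys t N c n j k = 0 := by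
  unfold ys y0
  rw [if_neg h, mul_zero, mul_zero]

theorem slice_A {t : ℂ} (ht : t ≠ 0) {N c : ℕ} (hN : 1 ≤ N) (hb : BrOK t (N - 1)) (n : ℕ) {x : V3}
    (hx : x ∈ W3 (N : ℤ) c) (hE : E3 t N x = 0) (h0 : x 0 = ys t N c n) :
    (L01 (Co t N) x - cc t N n • x) 0 = ys t N c (n + 1) := by
  funext j k
  by_cases hjk : j + k = c
  · rw [← A_step ht hN hb n j k hjk, Pi.sub_apply, Pi.sub_apply, Pi.sub_apply, A3_hw ht hx hE j k hjk,
      Pi.smul_apply, Pi.smul_apply, Pi.smul_apply, smul_eq_mul, h0]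
    ring
  · rw [ys_out t N c (n + 1) hjk]
    have h1 : L01 (Co t N) x - cc t N n • x ∈ W3 (N : ℤ) c :=
      (W3 _ _).sub_mem (L01_mem (Co_WtOK t N) hx) ((W3 _ _).smul_mem _ hx)
    by_contra h2
    obtain ⟨_, _, _, _, _, _, h3⟩ := h1 0 j k h2
    omega

theorem exists_chain {t : ℂ} (ht : t ≠ 0) {N c : ℕ} (hc : c < N) (hb : BrOK t (N - 1)) :
    ∃ u : ℕ → V3, HWc t N c u := by
  have hN : 1 ≤ N := by omega
  obtain ⟨x, hx, hx0, hE⟩ := solve ht hb hc (y0_mem t N c hN) (z := 0) (Submodule.zero_mem _)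
  let u : ℕ → V3 := fun n => Nat.rec x (fun n y => L01 (Co t N) y - cc t N n • y) n
  have hs : ∀ n, u (n + 1) = L01 (Co t N) (u n) - cc t N n • u n := fun n => rfl
  have h : ∀ n, u n ∈ W3 (N : ℤ) c ∧ E3 t N (u n) = 0 ∧ u n 0 = ys t N c n := by
    intro n
    induction n with
    | zero => exact ⟨hx, hE, by rw [ys_zero]; exact hx0⟩
    | succ n ih =>
      obtain ⟨i1, i2, i3⟩ := ih
      refine ⟨?_, ?_, ?_⟩
      · rw [hs]
        exact (W3 _ _).sub_mem (L01_mem (Co_WtOK t N) i1) ((W3 _ _).smul_mem _ i1)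
      · rw [hs, map_sub, map_smul, i2, smul_zero, sub_zero, E3_L01 ht (Co_QOK ht N) i1, i2, map_zero]
      · rw [hs]
        exact slice_A ht hN hb n i1 i2 i3
  exact ⟨u, fun n => (h n).1, fun n => (h n).2.1, fun n => (h n).2.2, hs⟩

theorem ys_last (t : ℂ) (N c : ℕ) (hN : 1 ≤ N) : ys t N c (c + 1) = 0 := by
  funext j k
  show ys t N c (c + 1) j k = 0
  unfold ys
  by_cases h : y0 t N c j k = 0
  · rw [h, mul_zero, mul_zero]
  · obtain ⟨a1, a2, a3, a4, a5⟩ := y0_mem t N c hN j k h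
    have : Qp t (c + 1) j = 0 := by
      unfold Qp
      rw [Finset.prod_eq_zero_iff]
      refine ⟨j.toNat, Finset.mem_range.mpr (by omega), ?_⟩
      rw [show j - ((j.toNat : ℕ) : ℤ) = 0 by omega, br_zero]
    rw [this, mul_zero, zero_mul, mul_zero]

theorem HWc.low {t : ℂ} (ht : t ≠ 0) {N c : ℕ} (hN : 1 ≤ N) (hb : BrOK t (N - 1)) {u : ℕ → V3}
    (h : HWc t N c u) : Low (L01 (Co t N)) (fun n : ℕ => cc t N n) (c + 1) u := by
  refine ⟨fun n => by rw [h.succ]; abel, ?_⟩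
  exact hw_inj ht hb (h.mem _) (h.hw _) (by rw [h.sl, ys_last t N c hN])

theorem HWc.upp {t : ℂ} (ht : t ≠ 0) {N c : ℕ} (hN : 1 ≤ N) (hb : BrOK t (N - 1)) {u : ℕ → V3}
    (h : HWc t N c u) : Upp (L12 (Co t N)) (fun n : ℕ => cc t N n) (phi t N c) u := by
  constructor
  · rw [← sub_eq_zero]
    refine hw_inj ht hb (c := c) ((W3 _ _).sub_mem (L12_mem (Co_WtOK t N) (h.mem _))
      ((W3 _ _).smul_mem _ (h.mem _))) ?_ ?_
    · rw [map_sub, map_smul, h.hw, smul_zero, sub_zero, E3_L12 ht (Co_QOK ht N) (h.mem _), h.hw,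
        map_zero]
    · rw [Pi.sub_apply, L12_apply, Pi.smul_apply, h.sl, ys_zero, sub_eq_zero]
      funext j k
      by_cases hjk : j + k = c
      · rw [B_step0 ht hN hb j k hjk]; rfl
      · have h1 := Co_mem (t := t) (y0_mem t N c hN)
        have h2 : Co t N (y0 t N c) j k = 0 := by
          by_contra h3
          obtain ⟨_, _, _, _, h4⟩ := h1 j k h3
          omega
        have h5 : y0 t N c j k = 0 := by unfold y0; rw [if_neg hjk]
        rw [h2, Pi.smul_apply, Pi.smul_apply, h5, smul_zero]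
  · intro n
    rw [← sub_eq_zero]
    refine hw_inj ht hb (c := c) ((W3 _ _).sub_mem (L12_mem (Co_WtOK t N) (h.mem _))
      ((W3 _ _).add_mem ((W3 _ _).smul_mem _ (h.mem _)) ((W3 _ _).smul_mem _ (h.mem _)))) ?_ ?_
    · rw [map_sub, map_add, map_smul, map_smul, h.hw, h.hw, smul_zero, smul_zero, add_zero, sub_zero,
        E3_L12 ht (Co_QOK ht N) (h.mem _), h.hw, map_zero]
    · rw [Pi.sub_apply, L12_apply, Pi.add_apply, Pi.smul_apply, Pi.smul_apply, h.sl, h.sl, sub_eq_zero]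
      funext j k
      by_cases hjk : j + k = c
      · rw [B_step ht hN hb n j k hjk]; rfl
      · have hys : ys t N c (n + 1) ∈ Wt (N : ℤ) c := by
          rw [← h.sl]
          have := W3_sl (h.mem (n + 1)) 0
          rwa [sub_zero] at this
        have h1 := Co_mem (t := t) hys
        have h2 : Co t N (ys t N c (n + 1)) j k = 0 := by
          by_contra h3
          obtain ⟨_, _, _, _, h4⟩ := h1 j k h3
          omega
        rw [h2, Pi.add_apply, Pi.add_apply, Pi.smul_apply, Pi.smul_apply, Pi.smul_apply, Pi.smul_apply,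
          ys_out t N c _ hjk, ys_out t N c _ hjk, smul_zero, smul_zero, add_zero]

/-! ### spanning and independence -/

/-- the highest weight space -/
noncomputable def HW (t : ℂ) (N c : ℕ) : Submodule ℂ V3 := W3 (N : ℤ) c ⊓ LinearMap.ker (E3 t N)

theorem mem_HW {t : ℂ} {N c : ℕ} {x : V3} : x ∈ HW t N c ↔ x ∈ W3 (N : ℤ) c ∧ E3 t N x = 0 := Iff.rfl

theorem ys_ne {t : ℂ} (ht : t ≠ 0) {N c : ℕ} (hc : c < N) (hb : BrOK t (3 * N)) {n : ℕ}
    (hn : n ≤ c) : ys t N c n n (c - n) ≠ 0 := by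
  unfold ys y0 Qp
  rw [if_pos (by ring)]
  have hb' : BrOK t (N - 1) := hb.mono (by omega)
  refine mul_ne_zero (mul_ne_zero (pow_ne_zero _ (by norm_num)) ?_) (mul_ne_zero (mul_ne_zero
    (zpow_ne_zero _ ht) ?_) (mul_ne_zero (zpow_ne_zero _ ht) (mul_ne_zero ?_ ?_)))
  · rw [Finset.prod_ne_zero_iff]
    intro i hi
    rw [Finset.mem_range] at hi
    have := hb (3 * N - 2 - c - i) (by omega) (by omega)
    rwa [show ((3 * N - 2 - c - i : ℕ) : ℤ) = 3 * (N : ℤ) - 2 - c - i by omega] at this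
  · rw [Finset.prod_ne_zero_iff]
    intro i hi
    rw [Finset.mem_range] at hi
    have := hb (n - i) (by omega) (by omega)
    rwa [show ((n - i : ℕ) : ℤ) = n - i by omega] at this
  · exact qb_ne hb' le_rfl (by omega)
  · have := qb_ne hb' le_rfl (by omega : c - n ≤ N - 1)
    rwa [show ((c - n : ℕ) : ℤ) = c - n by omega] at this

theorem ys_tri (t : ℂ) (N c : ℕ) {n : ℕ} {j : ℕ} (hj : j < n) (k : ℤ) : ys t N c n j k = 0 := by
  unfold ys Qp
  have : ∏ i ∈ Finset.range n, br t ((j : ℤ) - i) = 0 := by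
    rw [Finset.prod_eq_zero_iff]
    exact ⟨j, Finset.mem_range.mpr hj, by rw [sub_self, br_zero]⟩
  rw [this, mul_zero, zero_mul, mul_zero]

/-- first slice as a vector -/
noncomputable def fsl (t : ℂ) (N c : ℕ) : HW t N c →ₗ[ℂ] (Fin (c + 1) → ℂ) where
  toFun x i := (x : V3) 0 (i : ℕ) ((c : ℤ) - (i : ℕ))
  map_add' x y := by funext i; rfl
  map_smul' a x := by funext i; rfl

theorem fsl_inj {t : ℂ} (ht : t ≠ 0) {N c : ℕ} (hb : BrOK t (N - 1)) :
    Function.Injective (fsl t N c) := by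
  rw [← LinearMap.ker_eq_bot, LinearMap.ker_eq_bot']
  intro x hx
  obtain ⟨x, hx1, hx2⟩ := x
  apply Subtype.ext
  refine hw_inj ht hb hx1 hx2 ?_
  funext j k
  by_contra h
  obtain ⟨_, _, a3, a4, a5, a6, a7⟩ := hx1 0 j k h
  apply h
  have := congrFun hx ⟨j.toNat, by omega⟩
  show x 0 j k = 0
  have h2 : x 0 ((j.toNat : ℕ) : ℤ) ((c : ℤ) - ((j.toNat : ℕ) : ℤ)) = 0 := this
  rwa [show ((j.toNat : ℕ) : ℤ) = j by omega, show (c : ℤ) - j = k by omega] at h2

noncomputable def HWc.vec {t : ℂ} {N c : ℕ} {u : ℕ → V3} (h : HWc t N c u) (n : ℕ) : HW t N c :=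
  ⟨u n, h.mem n, h.hw n⟩

theorem HWc.indep {t : ℂ} (ht : t ≠ 0) {N c : ℕ} (hc : c < N) (hb : BrOK t (3 * N)) {u : ℕ → V3}
    (h : HWc t N c u) : LinearIndependent ℂ (fun i : Fin (c + 1) => h.vec i) := by
  rw [Fintype.linearIndependent_iff]
  intro g hg
  have h1 : ∀ j : Fin (c + 1), ∑ i : Fin (c + 1), g i * ys t N c i (j : ℕ) ((c : ℤ) - (j : ℕ)) = 0 := by
    intro j
    have := congrFun (congrArg (fsl t N c) hg) j
    rw [map_sum, Finset.sum_apply, map_zero] at this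
    rw [← show (0 : Fin (c + 1) → ℂ) j = 0 from rfl, ← this]
    refine Finset.sum_congr rfl fun i _ => ?_
    rw [map_smul, Pi.smul_apply, smul_eq_mul]
    congr 1
    show _ = u i 0 _ _
    rw [h.sl]
  have h2 : ∀ n : ℕ, ∀ hn : n < c + 1, g ⟨n, hn⟩ = 0 := by
    intro n
    induction n using Nat.strong_induction_on with
    | _ n ih =>
      intro hn
      have h3 := h1 ⟨n, hn⟩
      rw [Finset.sum_eq_single ⟨n, hn⟩] at h3
      · exact (mul_eq_zero.mp h3).resolve_right (ys_ne ht hc hb (by omega))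
      · intro i _ hi
        rcases lt_or_ge (i : ℕ) n with h4 | h4
        · have : g i = 0 := ih i h4 i.2
          rw [this, zero_mul]
        · have h5 : n < (i : ℕ) := lt_of_le_of_ne h4 (fun h6 => hi (Fin.ext h6.symm))
          rw [show (((⟨n, hn⟩ : Fin (c + 1)) : ℕ) : ℤ) = (n : ℤ) from rfl, ys_tri t N c h5, mul_zero]
      · intro h5; exact absurd (Finset.mem_univ _) h5
  intro i
  exact h2 i i.2

theorem HW_fin {t : ℂ} (ht : t ≠ 0) {N c : ℕ} (hb : BrOK t (N - 1)) :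
    FiniteDimensional ℂ (HW t N c) :=
  FiniteDimensional.of_injective (fsl t N c) (fsl_inj ht hb)

theorem HWc.span {t : ℂ} (ht : t ≠ 0) {N c : ℕ} (hc : c < N) (hb : BrOK t (3 * N)) {u : ℕ → V3}
    (h : HWc t N c u) : ⊤ ≤ Submodule.span ℂ (Set.range fun i : Fin (c + 1) => h.vec i) := by
  have := HW_fin ht (c := c) (hb.mono (by omega) : BrOK t (N - 1))
  have h1 : Module.finrank ℂ (HW t N c) ≤ c + 1 := by
    have := LinearMap.finrank_le_finrank_of_injective (fsl_inj ht (c := c) (hb.mono (by omega) : BrOK t (N - 1)))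
    simpa using this
  have h2 := (h.indep ht hc hb).fintype_card_le_finrank
  rw [Fintype.card_fin] at h2
  have h3 := (h.indep ht hc hb).span_eq_top_of_card_eq_finrank' (by rw [Fintype.card_fin]; omega)
  rw [h3]

noncomputable def HWc.basis {t : ℂ} (ht : t ≠ 0) {N c : ℕ} (hc : c < N) (hb : BrOK t (3 * N))
    {u : ℕ → V3} (h : HWc t N c u) : Module.Basis (Fin (c + 1)) ℂ (HW t N c) :=
  Module.Basis.mk (h.indep ht hc hb) (h.span ht hc hb)

theorem HWc.basis_apply {t : ℂ} (ht : t ≠ 0) {N c : ℕ} (hc : c < N) (hb : BrOK t (3 * N))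
    {u : ℕ → V3} (h : HWc t N c u) (i : Fin (c + 1)) : h.basis ht hc hb i = h.vec i := by
  unfold HWc.basis
  rw [Module.Basis.mk_apply]

end Pool.Agent.Lib_helper77.VC
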