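import Pool.Agent.Lib_helper77.VC3.Trp

set_option autoImplicit false

open Polynomial

namespace Pool.Agent.Lib_helper77.VC

/-- interpolation polynomial of `Ro ^ m` -/
noncomputable def pR (t : ℂ) (N m : ℕ) (g : ℕ → ℂ) : ℂ[X] :=
  ∑ k ∈ Finset.range N, C (g k ^ m * (dk t N k)⁻¹) * qk t N k

theorem dk_ne {t : ℂ} {N : ℕ} (h : Gen t N) {k : ℕ} (hk : k < N) : dk t N k ≠ 0 := by
  unfold dk
  rw [Finset.prod_ne_zero_iff]
  intro j hj
  rw [Finset.mem_erase, Finset.mem_range] at hj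
  exact sub_ne_zero.mpr (h.cc k j hk hj.2 (Ne.symm hj.1))

theorem pR_eval {t : ℂ} {N : ℕ} (h : Gen t N) (m : ℕ) (g : ℕ → ℂ) {k : ℕ} (hk : k < N) :
    (pR t N m g).eval (cc t N k) = g k ^ m := by
  unfold pR
  rw [eval_finset_sum, Finset.sum_eq_single k]
  · rw [eval_mul, eval_C]
    have : (qk t N k).eval (cc t N k) = dk t N k := by
      unfold qk dk
      rw [eval_prod]
      exact Finset.prod_congr rfl fun j _ => by simp
    rw [this, mul_assoc, inv_mul_cancel₀ (dk_ne h hk), mul_one]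
  · intro j hj hjk
    rw [eval_mul]
    have : (qk t N j).eval (cc t N k) = 0 := by
      unfold qk
      rw [eval_prod, Finset.prod_eq_zero_iff]
      refine ⟨k, Finset.mem_erase.mpr ⟨Ne.symm hjk, Finset.mem_range.mpr hk⟩, ?_⟩
      simp
    rw [this, mul_zero]
  · intro h1; exact absurd (Finset.mem_range.mpr hk) h1

theorem Spc_Ro {t : ℂ} {N : ℕ} (h : Gen t N) (hN : 1 ≤ N) (m : ℕ) :
    Spc t N (Ro t N ^ m) (fun k => lam t N k ^ m) := by
  refine ⟨pR t N m (fun k => lam t N k), fun k hk => pR_eval h m _ hk, ?_⟩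
  intro a x hx
  rw [Ro_pow h hN hx]
  unfold pR
  rw [map_sum, LinearMap.sum_apply]
  refine Finset.sum_congr rfl fun k _ => ?_
  rw [map_mul, aeval_C, Module.End.mul_apply, Module.algebraMap_end_apply]

theorem Co_flip (t : ℂ) (N : ℤ) (x : V) :
    (fun a b => Co t N x b a) = Co t⁻¹ N (fun a b => x b a) := by
  have h1 := Fo_flip t N (Eo t N x)
  rw [Eo_flip, map_neg, neg_neg] at h1
  funext a b
  have h2 : Fo t N (Eo t N x) b a = Fo t⁻¹ N (Eo t⁻¹ N (fun a b => x b a)) a b :=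
    congrFun (congrFun h1 a) b
  rw [Co_apply, Co_apply, h2, cc_inv, show b + a = a + b by ring]

theorem aeval_flip (t : ℂ) (N : ℤ) (p : ℂ[X]) (x : V) :
    (fun a b => aeval (Co t N) p x b a) = aeval (Co t⁻¹ N) p (fun a b => x b a) := by
  induction p using Polynomial.induction_on' with
  | add p q hp hq =>
    rw [map_add, map_add, LinearMap.add_apply, LinearMap.add_apply, ← hp, ← hq]; rfl
  | monomial n c =>
    rw [aeval_monomial, aeval_monomial, Module.End.mul_apply, Module.End.mul_apply,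
      Module.algebraMap_end_apply, Module.algebraMap_end_apply]
    have : ∀ n : ℕ, (fun a b => ((Co t N) ^ n) x b a) = ((Co t⁻¹ N) ^ n) (fun a b => x b a) := by
      intro n
      induction n with
      | zero => rfl
      | succ n ih => rw [pow_succ', pow_succ', Module.End.mul_apply, Module.End.mul_apply, ← ih, ← Co_flip]
    rw [← this]
    rfl

theorem Rm_pow_apply (t : ℂ) (N : ℤ) (m : ℕ) (x : V) :
    (Rm t N ^ m) x = fun a b => ((Ro t⁻¹ N) ^ m) (fun a b => x b a) b a := by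
  induction m with
  | zero => rfl
  | succ m ih =>
    rw [pow_succ', Module.End.mul_apply, ih]
    funext a b
    rw [Rm_apply, pow_succ', Module.End.mul_apply]

theorem Spc_Rm {t : ℂ} {N : ℕ} (h : Gen t N) (hN : 1 ≤ N) (m : ℕ) :
    Spc t N (Rm t N ^ m) (fun k => lam t⁻¹ N k ^ m) := by
  obtain ⟨p, hp, hq⟩ := Spc_Ro h.inv hN m
  refine ⟨p, fun k hk => by rw [← hp k hk, cc_inv], ?_⟩
  intro a x hx
  rw [Rm_pow_apply, hq a _ (flip_mem hx), ← aeval_flip]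

theorem Gen_of {t : ℂ} (ht : t ≠ 0) {N : ℕ} (hb : BrOK t (3 * N)) : Gen t N := by
  refine ⟨ht, ?_, fun j k hj hk hjk => cc_ne ht hb j k hj hk hjk⟩
  intro m h1 h2
  have := hb m.toNat (by omega) (by omega)
  rwa [show ((m.toNat : ℕ) : ℤ) = m by omega] at this

theorem BrOK.inv {t : ℂ} {M : ℕ} (h : BrOK t M) : BrOK t⁻¹ M := by
  intro m h1 h2
  rw [br_inv]
  exact neg_ne_zero.mpr (h m h1 h2)

/-! ### divided differences of the eigenvalues -/

/-- one crossing -/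
noncomputable def Dx1 (t : ℂ) (N n m : ℕ) : ℂ :=
  (-1) ^ n * t ^ (-((N : ℤ) ^ 2 - 1) + 2 * ((N : ℤ) - 1 - n) * (N - m)) /
    ((∏ r ∈ Finset.Ico n m, br t (N - 1 - r)) * qfac t (m - n))

/-- two crossings -/
noncomputable def Dx2 (t : ℂ) (N n m : ℕ) : ℂ :=
  t ^ (-(2 * ((N : ℤ) ^ 2 - 1)) + (((N : ℤ) - 1 - m) + (N - 1 - n)) ^ 2 + (N - 1 - m) +
    3 * (N - 1 - n)) / qfac t (m - n)

theorem DD1 {t : ℂ} (ht : t ≠ 0) {N : ℕ} (hb : BrOK t (N - 1)) {s : ℕ} (hs : s ≤ N) :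
    DD (fun n : ℕ => cc t N n) (fun k => lam t N k ^ 1) s (Dx1 t N) := by
  constructor
  · intro n hn
    unfold Dx1 lam
    rw [Finset.Ico_self, Finset.prod_empty, Nat.sub_self, qfac_zero, one_mul, div_one, pow_one]
    congr 2
    ring
  · intro n m hnm hm
    obtain ⟨k, rfl⟩ : ∃ k, m = n + 1 + k := ⟨m - n - 1, by omega⟩
    unfold Dx1
    rw [show n + 1 + k - n = k + 1 by omega, show n + 1 + k - (n + 1) = k by omega,
      show n + 1 + k - 1 = n + k by omega, show n + k - n = k by omega, qfac_succ]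
    have hq : qfac t k ≠ 0 := qfac_ne' hb (by omega)
    have hk : br t ((k : ℤ) + 1) ≠ 0 := by
      have := hb (k + 1) (by omega) (by omega)
      push_cast at this; exact this
    have hP : ∏ r ∈ Finset.Ico (n + 1) (n + k), br t ((N : ℤ) - 1 - r) ≠ 0 := by
      rw [Finset.prod_ne_zero_iff]
      intro r hr
      rw [Finset.mem_Ico] at hr
      have := hb (N - 1 - r) (by omega) (by omega)
      rwa [show ((N - 1 - r : ℕ) : ℤ) = (N : ℤ) - 1 - r by omega] at this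
    have hx : br t ((N : ℤ) - 1 - n) ≠ 0 := by
      have := hb (N - 1 - n) (by omega) (by omega)
      rwa [show ((N - 1 - n : ℕ) : ℤ) = (N : ℤ) - 1 - n by omega] at this
    have hy : br t ((N : ℤ) - 1 - (n + k : ℕ)) ≠ 0 := by
      have := hb (N - 1 - (n + k)) (by omega) (by omega)
      rwa [show ((N - 1 - (n + k) : ℕ) : ℤ) = (N : ℤ) - 1 - (n + k : ℕ) by omega] at this
    -- the three products
    set A := ∏ r ∈ Finset.Ico n (n + 1 + k), br t ((N : ℤ) - 1 - r) with hA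
    set B := ∏ r ∈ Finset.Ico (n + 1) (n + 1 + k), br t ((N : ℤ) - 1 - r) with hB
    set C := ∏ r ∈ Finset.Ico n (n + k), br t ((N : ℤ) - 1 - r) with hC
    have hAB : A = br t ((N : ℤ) - 1 - n) * B := by
      rw [hA, hB, Finset.prod_eq_prod_Ico_succ_bot (by omega)]
    have hAC : A = C * br t ((N : ℤ) - 1 - (n + k : ℕ)) := by
      rw [hA, hC, show n + 1 + k = (n + k) + 1 by omega, Finset.prod_Ico_succ_top (by omega)]
    have hBne : B ≠ 0 := by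
      rw [hB, Finset.prod_ne_zero_iff]
      intro r hr
      rw [Finset.mem_Ico] at hr
      have := hb (N - 1 - r) (by omega) (by omega)
      rwa [show ((N - 1 - r : ℕ) : ℤ) = (N : ℤ) - 1 - r by omega] at this
    have hAne : A ≠ 0 := by rw [hAB]; exact mul_ne_zero hx hBne
    have hCne : C ≠ 0 := by
      intro h; rw [h, zero_mul] at hAC; exact hAne hAC
    rw [Near.cc_sub t ht]
    have e1 : br t (((n : ℕ) : ℤ) - ((n + 1 + k : ℕ) : ℤ)) = -br t ((k : ℤ) + 1) := by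
      rw [show ((n : ℕ) : ℤ) - ((n + 1 + k : ℕ) : ℤ) = -((k : ℤ) + 1) by push_cast; ring, br_neg]
    have e2 := br_add' t ht ((N : ℤ) - 1 - n) ((N : ℤ) - ((n + 1 + k : ℕ) : ℤ))
    rw [show (N : ℤ) - 1 - n + ((N : ℤ) - ((n + 1 + k : ℕ) : ℤ)) =
      2 * (N : ℤ) - 1 - ((n + 1 + k : ℕ) : ℤ) - n by ring] at e2
    rw [e1, e2]
    have e3 : t ^ (-((N : ℤ) ^ 2 - 1) + 2 * ((N : ℤ) - 1 - ((n + 1 : ℕ) : ℤ)) *
        (N - ((n + 1 + k : ℕ) : ℤ))) = t ^ (-((N : ℤ) ^ 2 - 1) + 2 * ((N : ℤ) - 1 - n) *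
        (N - ((n + 1 + k : ℕ) : ℤ))) * t ^ (-(2 * ((N : ℤ) - ((n + 1 + k : ℕ) : ℤ)))) := by
      rw [← zpow_add₀ ht]; congr 1; push_cast; ring
    have e4 : t ^ (-((N : ℤ) ^ 2 - 1) + 2 * ((N : ℤ) - 1 - n) *
        (N - ((n + k : ℕ) : ℤ))) = t ^ (-((N : ℤ) ^ 2 - 1) + 2 * ((N : ℤ) - 1 - n) *
        (N - ((n + 1 + k : ℕ) : ℤ))) * t ^ (2 * ((N : ℤ) - 1 - n)) := by
      rw [← zpow_add₀ ht]; congr 1; push_cast; ring
    rw [e3, e4]
    have e5 : (N : ℤ) - ((n + 1 + k : ℕ) : ℤ) = (N : ℤ) - 1 - ((n + k : ℕ) : ℤ) := by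
      push_cast; ring
    rw [e5]
    have hAC' : C * br t ((N : ℤ) - 1 - (n + k : ℕ)) = br t ((N : ℤ) - 1 - n) * B := by
      rw [← hAC, hAB]
    rw [hAB, pow_succ]
    generalize t ^ (-((N : ℤ) ^ 2 - 1) + 2 * ((N : ℤ) - 1 - n) * ((N : ℤ) - 1 - ((n + k : ℕ) : ℤ))) = W
    generalize t ^ (-(2 * ((N : ℤ) - 1 - ((n + k : ℕ) : ℤ)))) = U
    generalize t ^ (2 * ((N : ℤ) - 1 - (n : ℤ))) = U'
    generalize br t ((N : ℤ) - 1 - (n : ℤ)) = X at *
    generalize br t ((N : ℤ) - 1 - ((n + k : ℕ) : ℤ)) = Y at *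
    generalize br t ((k : ℤ) + 1) = K at *
    generalize qfac t k = F at *
    have hCeq : C = X * B / Y := by rw [eq_div_iff hy]; exact hAC'
    rw [hCeq]
    field_simp
    ring

theorem DD2 {t : ℂ} (ht : t ≠ 0) {N : ℕ} (hb : BrOK t (N - 1)) {s : ℕ} (hs : s ≤ N) :
    DD (fun n : ℕ => cc t N n) (fun k => lam t N k ^ 2) s (Dx2 t N) := by
  constructor
  · intro n hn
    unfold Dx2 lam
    rw [Nat.sub_self, qfac_zero, div_one, mul_pow, ← pow_mul, mul_comm n 2, pow_mul, neg_one_sq, one_pow,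
      one_mul, ← zpow_natCast, ← zpow_mul]
    congr 1
    push_cast
    ring
  · intro n m hnm hm
    obtain ⟨k, rfl⟩ : ∃ k, m = n + 1 + k := ⟨m - n - 1, by omega⟩
    unfold Dx2
    rw [show n + 1 + k - n = k + 1 by omega, show n + 1 + k - (n + 1) = k by omega,
      show n + 1 + k - 1 = n + k by omega, show n + k - n = k by omega, qfac_succ]
    have hq : qfac t k ≠ 0 := qfac_ne' hb (by omega)
    have hk : br t ((k : ℤ) + 1) ≠ 0 := by
      have := hb (k + 1) (by omega) (by omega)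
      push_cast at this; exact this
    rw [Near.cc_sub t ht]
    have e1 : br t (((n : ℕ) : ℤ) - ((n + 1 + k : ℕ) : ℤ)) = -br t ((k : ℤ) + 1) := by
      rw [show ((n : ℕ) : ℤ) - ((n + 1 + k : ℕ) : ℤ) = -((k : ℤ) + 1) by push_cast; ring, br_neg]
    rw [e1]
    have e2 : br t (2 * (N : ℤ) - 1 - ((n + 1 + k : ℕ) : ℤ) - (n : ℕ)) =
        t ^ (2 * (2 * (N : ℤ) - 1 - ((n + 1 + k : ℕ) : ℤ) - (n : ℕ))) -
        t ^ (-(2 * (2 * (N : ℤ) - 1 - ((n + 1 + k : ℕ) : ℤ) - (n : ℕ)))) := rfl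
    rw [e2]
    have e3 : t ^ (-(2 * ((N : ℤ) ^ 2 - 1)) + (((N : ℤ) - 1 - ((n + 1 + k : ℕ) : ℤ)) +
        (N - 1 - ((n + 1 : ℕ) : ℤ))) ^ 2 + (N - 1 - ((n + 1 + k : ℕ) : ℤ)) +
        3 * (N - 1 - ((n + 1 : ℕ) : ℤ))) =
        t ^ (-(2 * ((N : ℤ) ^ 2 - 1)) + (((N : ℤ) - 1 - ((n + 1 + k : ℕ) : ℤ)) +
        (N - 1 - n)) ^ 2 + (N - 1 - ((n + 1 + k : ℕ) : ℤ)) +
        3 * (N - 1 - n)) * t ^ (-(2 * (2 * (N : ℤ) - 1 - ((n + 1 + k : ℕ) : ℤ) - (n : ℕ)))) := by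
      rw [← zpow_add₀ ht]; congr 1; push_cast; ring
    have e4 : t ^ (-(2 * ((N : ℤ) ^ 2 - 1)) + (((N : ℤ) - 1 - ((n + k : ℕ) : ℤ)) +
        (N - 1 - n)) ^ 2 + (N - 1 - ((n + k : ℕ) : ℤ)) +
        3 * (N - 1 - n)) =
        t ^ (-(2 * ((N : ℤ) ^ 2 - 1)) + (((N : ℤ) - 1 - ((n + 1 + k : ℕ) : ℤ)) +
        (N - 1 - n)) ^ 2 + (N - 1 - ((n + 1 + k : ℕ) : ℤ)) +
        3 * (N - 1 - n)) * t ^ (2 * (2 * (N : ℤ) - 1 - ((n + 1 + k : ℕ) : ℤ) - (n : ℕ))) := by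
      rw [← zpow_add₀ ht]; congr 1; push_cast; ring
    rw [e3, e4]
    field_simp
    ring

end Pool.Agent.Lib_helper77.VC
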