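import Pool.Agent.Lib_helper77.VC3.Rv

set_option autoImplicit false

open Matrix Filter Topology

namespace Pool.Agent.Lib_helper77.VC

/-- size of an entry of the normalised matrix in weight `c` -/
noncomputable def en (D : ℕ → ℂ → ℕ → ℕ → ℂ) (N c n m : ℕ) : ℝ :=
  ‖D N (rt N) n m‖ * Real.sqrt (∏ i ∈ Finset.Ico n m, |rp N c (i + 1)|)

theorem blk1_bound {N c : ℕ} (hc : c < N) {D : ℕ → ℂ → ℕ → ℕ → ℂ} {K : ℝ} (hK : 0 ≤ K)
    (h : ∀ n m, n ≤ m → m < N - 1 - c → m ≤ c → en D N c n m ≤ K) (n : ℕ) :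
    ‖trace ((bY (D N (rt N)) (rp N c) 0 (N - 1 - c) (c + 1) *
        bX (D N (rt N)) 0 (N - 1 - c) (c + 1)) ^ n)‖ ≤ N * ((N : ℝ) ^ 2 * K ^ 2) ^ n := by
  set hi := min (N - 1 - c) (c + 1) with hhi
  have e1 : bX (D N (rt N)) 0 (N - 1 - c) (c + 1) = bX (D N (rt N)) 0 hi (c + 1) := by
    ext i j
    unfold bX
    rw [of_apply, of_apply]
    have : (0 ≤ (j : ℕ) ∧ (j : ℕ) ≤ i ∧ (i : ℕ) < N - 1 - c) ↔ (0 ≤ (j : ℕ) ∧ (j : ℕ) ≤ i ∧ (i : ℕ) < hi) := by
      have := i.2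
      omega
    simp only [this]
  have e2 : bY (D N (rt N)) (rp N c) 0 (N - 1 - c) (c + 1) = bY (D N (rt N)) (rp N c) 0 hi (c + 1) := by
    ext i j
    unfold bY
    rw [of_apply, of_apply]
    have : (0 ≤ (i : ℕ) ∧ (i : ℕ) ≤ j ∧ (j : ℕ) < N - 1 - c) ↔ (0 ≤ (i : ℕ) ∧ (i : ℕ) ≤ j ∧ (j : ℕ) < hi) := by
      have := j.2
      omega
    simp only [this]
  rw [e1, e2]
  have h1 := blk_bound (D := D N (rt N)) (φ := rp N c) (lo := 0) (hi := hi) (s := c + 1)
    (fun i h1 h2 => (rp_neg hc (by omega) (by omega) (by omega)).ne) hK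
    (fun n m _ h2 h3 _ => h n m h2 (by omega) (by omega)) n
  refine h1.trans ?_
  have hs : (((c + 1 : ℕ) : ℝ)) ≤ N := by exact_mod_cast hc
  have h0 : (0 : ℝ) ≤ ((c + 1 : ℕ) : ℝ) := Nat.cast_nonneg _
  gcongr

theorem blk2_bound {N c : ℕ} (hc : c < N) {D : ℕ → ℂ → ℕ → ℕ → ℂ} {K : ℝ} (hK : 0 ≤ K)
    (h : ∀ n m, N - 1 - c ≤ n → n ≤ m → m ≤ c → en D N c n m ≤ K) (n : ℕ) :
    ‖trace ((bY (D N (rt N)) (rp N c) (N - 1 - c) (c + 1) (c + 1) *
        bX (D N (rt N)) (N - 1 - c) (c + 1) (c + 1)) ^ n)‖ ≤ N * ((N : ℝ) ^ 2 * K ^ 2) ^ n := by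
  have h1 := blk_bound (D := D N (rt N)) (φ := rp N c) (lo := N - 1 - c) (hi := c + 1) (s := c + 1)
    (fun i h1 h2 => (rp_pos hc h1 (by omega)).ne') hK
    (fun n m h1 h2 h3 _ => h n m h1 h2 (by omega)) n
  refine h1.trans ?_
  have hs : (((c + 1 : ℕ) : ℝ)) ≤ N := by exact_mod_cast hc
  have h0 : (0 : ℝ) ≤ ((c + 1 : ℕ) : ℝ) := Nat.cast_nonneg _
  gcongr

/-- upper bound for the invariant -/
theorem kash_up {N : ℕ} (hN : 2 ≤ N) {a n : ℕ} (ha : 1 ≤ a) (hn : 1 ≤ n) {D : ℕ → ℂ → ℕ → ℕ → ℂ}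
    (hD : FamR N a (D N)) {K : ℝ} (hK : 0 ≤ K)
    (h1 : ∀ c, c < N → ∀ n m, n ≤ m → m < N - 1 - c → m ≤ c → en D N c n m ≤ K)
    (h2 : ∀ c, c < N → ∀ n m, N - 1 - c ≤ n → n ≤ m → m ≤ c → en D N c n m ≤ K) :
    ‖kashaev N (axisDiagram a n)‖ ≤ 4 * (N : ℝ) ^ 3 * ((N : ℝ) ^ 2 * K ^ 2) ^ n := by
  have hN0 : (0 : ℝ) ≤ N := Nat.cast_nonneg _
  set B := ((N : ℝ) ^ 2 * K ^ 2) ^ n with hB
  have hB0 : 0 ≤ B := by positivity
  have hT : ∀ c, c < N → ‖Tc N (D N) n c‖ ≤ 2 * N * B := by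
    intro c hc
    rw [Tc_split hD hn hc]
    refine (norm_add_le _ _).trans ?_
    have g1 := blk1_bound hc hK (h1 c hc) n
    have g2 := blk2_bound hc hK (h2 c hc) n
    linarith
  rw [kashaev_eq_Tc hN ha hD, norm_mul, Complex.norm_natCast]
  have s1 : ‖∑ c ∈ Finset.range N, Tc N (D N) n c‖ ≤ N * (2 * N * B) := by
    refine (norm_sum_le _ _).trans ?_
    calc ∑ c ∈ Finset.range N, ‖Tc N (D N) n c‖ ≤ ∑ _c ∈ Finset.range N, 2 * N * B :=
          Finset.sum_le_sum fun c hc => hT c (Finset.mem_range.mp hc)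
      _ = N * (2 * N * B) := by rw [Finset.sum_const, Finset.card_range, nsmul_eq_mul]
  have s2 : ‖∑ c ∈ Finset.range (N - 1), (starRingEnd ℂ) (Tc N (D N) n c)‖ ≤ N * (2 * N * B) := by
    refine (norm_sum_le _ _).trans ?_
    calc ∑ c ∈ Finset.range (N - 1), ‖(starRingEnd ℂ) (Tc N (D N) n c)‖
        ≤ ∑ _c ∈ Finset.range (N - 1), 2 * N * B :=
          Finset.sum_le_sum fun c hc => by
            rw [Complex.norm_conj]
            exact hT c (by rw [Finset.mem_range] at hc; omega)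
      _ = ((N - 1 : ℕ) : ℝ) * (2 * N * B) := by rw [Finset.sum_const, Finset.card_range, nsmul_eq_mul]
      _ ≤ N * (2 * N * B) := by
          apply mul_le_mul_of_nonneg_right _ (by positivity)
          exact_mod_cast Nat.sub_le N 1
  calc (N : ℝ) * ‖_‖ ≤ N * (N * (2 * N * B) + N * (2 * N * B)) :=
        mul_le_mul_of_nonneg_left ((norm_add_le _ _).trans (add_le_add s1 s2)) hN0
    _ = 4 * (N : ℝ) ^ 3 * B := by ring

/-- lower bound for the invariant -/
theorem kash_low {N : ℕ} (hN : 2 ≤ N) {a n : ℕ} (ha : 1 ≤ a) (hn : 1 ≤ n) {D : ℕ → ℂ → ℕ → ℕ → ℂ}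
    (hD : FamR N a (D N)) {K1 : ℝ} (hK1 : 0 ≤ K1)
    (h1 : ∀ c, c < N → ∀ n m, n ≤ m → m < N - 1 - c → m ≤ c → en D N c n m ≤ K1)
    {k m : ℕ} (hkm : k ≤ m) (hm : m < N) :
    (en D N (N - 1) k m ^ 2) ^ n - 2 * (N : ℝ) ^ 2 * ((N : ℝ) ^ 2 * K1 ^ 2) ^ n ≤
      ‖kashaev N (axisDiagram a n)‖ := by
  have hN0 : (2 : ℝ) ≤ N := by exact_mod_cast hN
  set B := ((N : ℝ) ^ 2 * K1 ^ 2) ^ n with hB
  have hB0 : 0 ≤ B := by positivity
  have hP : ∀ c, c < N → ∀ k m : ℕ, N - 1 - c ≤ k → k ≤ m → m ≤ c →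
      (en D N c k m ^ 2) ^ n - N * B ≤ (Tc N (D N) n c).re := by
    intro c hc k m h3 h4 h5
    rw [Tc_split hD hn hc, Complex.add_re]
    have g1 := blk1_bound hc hK1 (h1 c hc) n
    have g2 := (blk_pos (D := D N (rt N)) (φ := rp N c) (lo := N - 1 - c) (hi := c + 1) (s := c + 1)
      (fun i h1 h2 => rp_pos hc h1 (by omega)) n).2 k m h3 h4 (by omega) (by omega)
    have g3 := Complex.abs_re_le_norm (trace ((bY (D N (rt N)) (rp N c) 0 (N - 1 - c) (c + 1) *
        bX (D N (rt N)) 0 (N - 1 - c) (c + 1)) ^ n))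
    have g4 := neg_abs_le (trace ((bY (D N (rt N)) (rp N c) 0 (N - 1 - c) (c + 1) *
        bX (D N (rt N)) 0 (N - 1 - c) (c + 1)) ^ n)).re
    unfold en
    linarith
  have hQ : ∀ c, c < N → -(N * B) ≤ (Tc N (D N) n c).re := by
    intro c hc
    rw [Tc_split hD hn hc, Complex.add_re]
    have g1 := blk1_bound hc hK1 (h1 c hc) n
    have g2 := (blk_pos (D := D N (rt N)) (φ := rp N c) (lo := N - 1 - c) (hi := c + 1) (s := c + 1)
      (fun i h1 h2 => rp_pos hc h1 (by omega)) n).1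
    have g3 := Complex.abs_re_le_norm (trace ((bY (D N (rt N)) (rp N c) 0 (N - 1 - c) (c + 1) *
        bX (D N (rt N)) 0 (N - 1 - c) (c + 1)) ^ n))
    have g4 := neg_abs_le (trace ((bY (D N (rt N)) (rp N c) 0 (N - 1 - c) (c + 1) *
        bX (D N (rt N)) 0 (N - 1 - c) (c + 1)) ^ n)).re
    linarith
  have hre : (kashaev N (axisDiagram a n)).re = N * (∑ c ∈ Finset.range N, (Tc N (D N) n c).re +
      ∑ c ∈ Finset.range (N - 1), (Tc N (D N) n c).re) := by
    rw [kashaev_eq_Tc hN ha hD, show ((N : ℕ) : ℂ) = ((N : ℝ) : ℂ) by push_cast; rfl,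
      Complex.re_ofReal_mul, Complex.add_re, Complex.re_sum, Complex.re_sum]
    rfl
  have hlast := hP (N - 1) (by omega) k m (by omega) hkm (by omega)
  have s1 : -((N - 1 : ℕ) * (N * B)) ≤ ∑ c ∈ Finset.range (N - 1), (Tc N (D N) n c).re := by
    calc -((N - 1 : ℕ) * (N * B)) = ∑ _c ∈ Finset.range (N - 1), -(N * B) := by
          rw [Finset.sum_const, Finset.card_range, nsmul_eq_mul]; ring
      _ ≤ _ := Finset.sum_le_sum fun c hc => hQ c (by rw [Finset.mem_range] at hc; omega)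
  have s2 : ∑ c ∈ Finset.range N, (Tc N (D N) n c).re =
      ∑ c ∈ Finset.range (N - 1), (Tc N (D N) n c).re + (Tc N (D N) n (N - 1)).re := by
    have h := Finset.sum_range_succ (fun c => (Tc N (D N) n c).re) (N - 1)
    rwa [show N - 1 + 1 = N by omega] at h
  have hcast : ((N - 1 : ℕ) : ℝ) = (N : ℝ) - 1 := by
    rw [Nat.cast_sub (by omega)]; simp
  rw [hcast] at s1
  have h3 : (en D N (N - 1) k m ^ 2) ^ n - 2 * (N : ℝ) ^ 2 * B ≤
      ∑ c ∈ Finset.range N, (Tc N (D N) n c).re + ∑ c ∈ Finset.range (N - 1), (Tc N (D N) n c).re := by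
    rw [s2]
    nlinarith
  by_cases h4 : (en D N (N - 1) k m ^ 2) ^ n - 2 * (N : ℝ) ^ 2 * B ≤ 0
  · exact h4.trans (norm_nonneg _)
  · push Not at h4
    calc (en D N (N - 1) k m ^ 2) ^ n - 2 * (N : ℝ) ^ 2 * B
        ≤ N * ((en D N (N - 1) k m ^ 2) ^ n - 2 * (N : ℝ) ^ 2 * B) := by nlinarith
      _ ≤ N * (∑ c ∈ Finset.range N, (Tc N (D N) n c).re +
          ∑ c ∈ Finset.range (N - 1), (Tc N (D N) n c).re) :=
          mul_le_mul_of_nonneg_left h3 (by linarith)
      _ = (kashaev N (axisDiagram a n)).re := hre.symm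
      _ ≤ ‖kashaev N (axisDiagram a n)‖ := Complex.re_le_norm _

theorem log_div_tendsto : Tendsto (fun N : ℕ => Real.log N / N) atTop (𝓝 0) := by
  have h := Real.isLittleO_log_id_atTop.tendsto_div_nhds_zero
  exact h.comp tendsto_natCast_atTop_atTop

theorem one_div_tendsto : Tendsto (fun N : ℕ => (1 : ℝ) / N) atTop (𝓝 0) :=
  tendsto_one_div_atTop_nhds_zero_nat

/-- the exact growth rate, from bounds of the entries -/
theorem growth {a n : ℕ} (ha : 1 ≤ a) (hn : 1 ≤ n) {D : ℕ → ℂ → ℕ → ℕ → ℂ}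
    (hD : ∀ N, FamR N a (D N)) {G G1 : ℝ} (hG : G1 < G) {kU k1 kL : ℕ → ℝ}
    (hU : Tendsto (fun N : ℕ => kU N / N) atTop (𝓝 G))
    (h1 : Tendsto (fun N : ℕ => k1 N / N) atTop (𝓝 G1))
    (hL : Tendsto (fun N : ℕ => kL N / N) atTop (𝓝 G))
    (b1 : ∀ᶠ N : ℕ in atTop, ∀ c, c < N → ∀ n m, n ≤ m → m < N - 1 - c → m ≤ c →
      en D N c n m ≤ Real.exp (k1 N))
    (b2 : ∀ᶠ N : ℕ in atTop, ∀ c, c < N → ∀ n m, N - 1 - c ≤ n → n ≤ m → m ≤ c →
      en D N c n m ≤ Real.exp (kU N))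
    (b3 : ∀ᶠ N : ℕ in atTop, ∃ k m, k ≤ m ∧ m < N ∧ Real.exp (kL N) ≤ en D N (N - 1) k m) :
    Tendsto (fun N : ℕ => 2 * Real.pi / N * Real.log ‖kashaev N (axisDiagram a n)‖) atTop
      (𝓝 (4 * Real.pi * n * G)) := by
  have hlog := log_div_tendsto
  have hone := one_div_tendsto
  have hlt : ∀ᶠ N : ℕ in atTop, k1 N ≤ kU N := by
    have h := h1.eventually_lt hU hG
    filter_upwards [h, eventually_ge_atTop 1] with N hN hN1
    have hN' : (0 : ℝ) < N := by exact_mod_cast hN1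
    exact ((div_lt_div_iff_of_pos_right hN').mp hN).le
  -- comparison of the error term
  have herr : ∀ᶠ N : ℕ in atTop, Real.log 4 + 2 * Real.log N + n * (2 * Real.log N + 2 * k1 N) ≤
      2 * n * kL N := by
    have e1 : Tendsto (fun N : ℕ => Real.log 4 * (1 / N) + 2 * (Real.log N / N) +
        n * (2 * (Real.log N / N) + 2 * (k1 N / N))) atTop (𝓝 (Real.log 4 * 0 + 2 * 0 +
        n * (2 * 0 + 2 * G1))) :=
      ((hone.const_mul _).add (hlog.const_mul _)).add (((hlog.const_mul _).add (h1.const_mul _)).const_mul _)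
    have e2 : Tendsto (fun N : ℕ => 2 * n * (kL N / N)) atTop (𝓝 (2 * n * G)) := hL.const_mul _
    have hn' : (0 : ℝ) < n := by exact_mod_cast hn
    have h := e1.eventually_lt e2 (by nlinarith)
    filter_upwards [h, eventually_ge_atTop 1] with N hN hN1
    have hN' : (0 : ℝ) < N := by exact_mod_cast hN1
    have h3 : (Real.log 4 * (1 / N) + 2 * (Real.log N / N) +
        n * (2 * (Real.log N / N) + 2 * (k1 N / N))) * N < 2 * n * (kL N / N) * N :=
      mul_lt_mul_of_pos_right hN hN'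
    have e3 : (Real.log 4 * (1 / N) + 2 * (Real.log N / N) +
        n * (2 * (Real.log N / N) + 2 * (k1 N / N))) * N =
        Real.log 4 + 2 * Real.log N + n * (2 * Real.log N + 2 * k1 N) := by
      field_simp
    have e4 : 2 * n * (kL N / N) * N = 2 * n * kL N := by field_simp
    rw [e3, e4] at h3
    exact h3.le
  -- lower bound
  have hlow : ∀ᶠ N : ℕ in atTop, 2 * Real.pi / N * (2 * n * kL N - Real.log 2) ≤
      2 * Real.pi / N * Real.log ‖kashaev N (axisDiagram a n)‖ := by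
    filter_upwards [b1, b3, herr, eventually_ge_atTop 2] with N c1 c3 ce hN
    obtain ⟨k, m, hkm, hm, hE⟩ := c3
    have hN' : (0 : ℝ) < N := by exact_mod_cast (by omega : 0 < N)
    have h3 := kash_low hN ha hn (hD N) (Real.exp_pos (k1 N)).le c1 hkm hm
    have h4 : Real.exp (2 * n * kL N) ≤ (en D N (N - 1) k m ^ 2) ^ n := by
      have : Real.exp (2 * n * kL N) = (Real.exp (kL N) ^ 2) ^ n := by
        rw [← pow_mul, ← Real.exp_nat_mul]
        congr 1; push_cast; ring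
      rw [this]
      exact pow_le_pow_left₀ (by positivity) (pow_le_pow_left₀ (Real.exp_pos _).le hE 2) n
    have h5 : 2 * (N : ℝ) ^ 2 * ((N : ℝ) ^ 2 * Real.exp (k1 N) ^ 2) ^ n ≤
        Real.exp (2 * n * kL N) / 2 := by
      have h6 := Real.exp_le_exp.mpr ce
      have e5 : Real.exp (Real.log 4 + 2 * Real.log N + n * (2 * Real.log N + 2 * k1 N)) =
          4 * (N : ℝ) ^ 2 * ((N : ℝ) ^ 2 * Real.exp (k1 N) ^ 2) ^ n := by
        rw [Real.exp_add, Real.exp_add, Real.exp_log (by norm_num)]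
        have q1 : Real.exp (2 * Real.log N) = (N : ℝ) ^ 2 := by
          rw [show 2 * Real.log N = ((2 : ℕ) : ℝ) * Real.log N by push_cast; ring, Real.exp_nat_mul,
            Real.exp_log hN']
        have q2 : Real.exp (n * (2 * Real.log N + 2 * k1 N)) =
            ((N : ℝ) ^ 2 * Real.exp (k1 N) ^ 2) ^ n := by
          rw [Real.exp_nat_mul, Real.exp_add, q1]
          congr 2
          rw [← Real.exp_nat_mul]; push_cast; rfl
        rw [q1, q2]
      rw [e5] at h6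
      linarith
    have h7 : Real.exp (2 * n * kL N) / 2 ≤ ‖kashaev N (axisDiagram a n)‖ := by linarith
    have h8 : 2 * n * kL N - Real.log 2 ≤ Real.log ‖kashaev N (axisDiagram a n)‖ := by
      have := Real.log_le_log (by positivity) h7
      rwa [Real.log_div (Real.exp_pos _).ne' (by norm_num), Real.log_exp] at this
    exact mul_le_mul_of_nonneg_left h8 (by positivity)
  -- upper bound
  have hup : ∀ᶠ N : ℕ in atTop, 2 * Real.pi / N * Real.log ‖kashaev N (axisDiagram a n)‖ ≤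
      2 * Real.pi / N * (Real.log 4 + 3 * Real.log N + n * (2 * Real.log N + 2 * kU N)) := by
    filter_upwards [b1, b2, b3, herr, hlt, hlow, eventually_ge_atTop 2] with N c1 c2 c3 ce cl clow hN
    have hN' : (0 : ℝ) < N := by exact_mod_cast (by omega : 0 < N)
    apply mul_le_mul_of_nonneg_left _ (by positivity)
    have h3 := kash_up hN ha hn (hD N) (Real.exp_pos (kU N)).le
      (fun c hc n m q1 q2 q3 => (c1 c hc n m q1 q2 q3).trans (Real.exp_le_exp.mpr cl)) c2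
    have e5 : 4 * (N : ℝ) ^ 3 * ((N : ℝ) ^ 2 * Real.exp (kU N) ^ 2) ^ n =
        Real.exp (Real.log 4 + 3 * Real.log N + n * (2 * Real.log N + 2 * kU N)) := by
      rw [Real.exp_add, Real.exp_add, Real.exp_log (by norm_num)]
      have q1 : ∀ j : ℕ, Real.exp ((j : ℝ) * Real.log N) = (N : ℝ) ^ j := by
        intro j
        rw [Real.exp_nat_mul, Real.exp_log hN']
      have q2 : Real.exp (n * (2 * Real.log N + 2 * kU N)) =
          ((N : ℝ) ^ 2 * Real.exp (kU N) ^ 2) ^ n := by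
        have q3 := q1 2
        push_cast at q3
        rw [Real.exp_nat_mul, Real.exp_add, q3]
        congr 2
        rw [← Real.exp_nat_mul]; push_cast; rfl
      have q4 := q1 3
      push_cast at q4
      rw [q4, q2]
    rcases eq_or_lt_of_le (norm_nonneg (kashaev N (axisDiagram a n))) with h0 | h0
    · rw [← h0, Real.log_zero]
      -- the exponent is nonnegative
      obtain ⟨k, m, hkm, hm, hE⟩ := c3
      have h4 := kash_low hN ha hn (hD N) (Real.exp_pos (k1 N)).le c1 hkm hm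
      rw [← h0] at h4
      exfalso
      have h5 : Real.exp (2 * n * kL N) ≤ (en D N (N - 1) k m ^ 2) ^ n := by
        have : Real.exp (2 * n * kL N) = (Real.exp (kL N) ^ 2) ^ n := by
          rw [← pow_mul, ← Real.exp_nat_mul]
          congr 1; push_cast; ring
        rw [this]
        exact pow_le_pow_left₀ (by positivity) (pow_le_pow_left₀ (Real.exp_pos _).le hE 2) n
      have h6 := Real.exp_le_exp.mpr ce
      have e6 : Real.exp (Real.log 4 + 2 * Real.log N + n * (2 * Real.log N + 2 * k1 N)) =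
          4 * (N : ℝ) ^ 2 * ((N : ℝ) ^ 2 * Real.exp (k1 N) ^ 2) ^ n := by
        rw [Real.exp_add, Real.exp_add, Real.exp_log (by norm_num)]
        have q1 : Real.exp (2 * Real.log N) = (N : ℝ) ^ 2 := by
          rw [show 2 * Real.log N = ((2 : ℕ) : ℝ) * Real.log N by push_cast; ring, Real.exp_nat_mul,
            Real.exp_log hN']
        have q2 : Real.exp (n * (2 * Real.log N + 2 * k1 N)) =
            ((N : ℝ) ^ 2 * Real.exp (k1 N) ^ 2) ^ n := by
          rw [Real.exp_nat_mul, Real.exp_add, q1]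
          congr 2
          rw [← Real.exp_nat_mul]; push_cast; rfl
        rw [q1, q2]
      rw [e6] at h6
      have h7 := Real.exp_pos (2 * n * kL N)
      linarith
    · have := Real.log_le_log h0 h3
      rwa [e5, Real.log_exp] at this
  refine tendsto_of_tendsto_of_tendsto_of_le_of_le' ?_ ?_ hlow hup
  · have e1 : Tendsto (fun N : ℕ => 4 * Real.pi * n * (kL N / N) - 2 * Real.pi * Real.log 2 * (1 / N))
        atTop (𝓝 (4 * Real.pi * n * G - 2 * Real.pi * Real.log 2 * 0)) :=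
      (hL.const_mul _).sub (hone.const_mul _)
    rw [mul_zero, sub_zero] at e1
    refine e1.congr fun N => ?_
    ring
  · have e1 : Tendsto (fun N : ℕ => 2 * Real.pi * Real.log 4 * (1 / N) +
        (6 * Real.pi + 4 * Real.pi * n) * (Real.log N / N) + 4 * Real.pi * n * (kU N / N))
        atTop (𝓝 (2 * Real.pi * Real.log 4 * 0 + (6 * Real.pi + 4 * Real.pi * n) * 0 +
          4 * Real.pi * n * G)) :=
      ((hone.const_mul _).add (hlog.const_mul _)).add (hU.const_mul _)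
    rw [mul_zero, mul_zero, zero_add, zero_add] at e1
    refine e1.congr fun N => ?_
    ring

end Pool.Agent.Lib_helper77.VC
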