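import Pool.Agent.Lib_helper77.VC3.Sp3

set_option autoImplicit false

open Polynomial

namespace Pool.Agent.Lib_helper77.VC

/-- a highest weight vector is determined by its first slice -/
theorem hw_inj {t : ℂ} (ht : t ≠ 0) {N : ℕ} (hb : BrOK t (N - 1)) {c : ℤ} {x : V3}
    (hx : x ∈ W3 (N : ℤ) c) (hE : E3 t N x = 0) (h0 : x 0 = 0) : x = 0 := by
  have h1 : ∀ i : ℕ, x i = 0 := by
    intro i
    induction i with
    | zero => exact h0
    | succ i ih =>
      rcases Nat.lt_or_ge (i + 1) N with h | h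
      · funext j k
        have h2 : E3 t N x i j k = 0 := by rw [hE]; rfl
        rw [E3_apply, ih, map_zero] at h2
        have h3 := hb (i + 1) (by omega) (by omega)
        push_cast at h3
        have h4 : br t ((i : ℤ) + 1) * t ^ ((2 * j - (N : ℤ) + 1) + (2 * k - N + 1)) ≠ 0 :=
          mul_ne_zero h3 (zpow_ne_zero _ ht)
        have h5 : br t ((i : ℤ) + 1) * t ^ ((2 * j - (N : ℤ) + 1) + (2 * k - N + 1)) *
            x ((i : ℤ) + 1) j k = 0 := by
          have : (0 : V) j k = 0 := rfl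
          rw [this, mul_zero, add_zero] at h2
          exact h2
        push_cast
        exact (mul_eq_zero.mp h5).resolve_left h4
      · exact W3_out hx (Or.inr (by exact_mod_cast h))
  funext i
  rcases lt_or_ge i 0 with h | h
  · exact W3_out hx (Or.inl h)
  · have := h1 i.toNat
    rwa [show ((i.toNat : ℕ) : ℤ) = i by omega] at this

/-- the slices of the solution of `E x = z` with given first slice -/
noncomputable def slv (t : ℂ) (N : ℤ) (y : V) (z : V3) : ℕ → V
  | 0 => y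
  | i + 1 => fun j k => (br t ((i : ℤ) + 1))⁻¹ * t ^ (-((2 * j - N + 1) + (2 * k - N + 1))) *
      (z i j k - t ^ (N - 1 - 2 * (i : ℤ)) * Eo t N (slv t N y z i) j k)

theorem slv_mem {t : ℂ} {N c : ℤ} {y : V} {z : V3} (hy : y ∈ Wt N c) (hz : z ∈ W3 N (c - 1))
    (i : ℕ) : slv t N y z i ∈ Wt N (c - i) := by
  induction i with
  | zero => simpa [slv] using hy
  | succ i ih =>
    rw [mem_Wt]
    intro j k h
    have h2 : z i j k - t ^ (N - 1 - 2 * (i : ℤ)) * Eo t N (slv t N y z i) j k ≠ 0 :=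
      right_ne_zero_of_mul h
    by_cases h3 : z i j k = 0
    · rw [h3, zero_sub] at h2
      have h4 := right_ne_zero_of_mul (neg_ne_zero.mp h2)
      obtain ⟨a1, a2, a3, a4, a5⟩ := Eo_mem ih j k h4
      exact ⟨a1, a2, a3, a4, by push_cast; omega⟩
    · obtain ⟨a1, a2, a3, a4, a5⟩ := W3_sl hz i j k h3
      exact ⟨a1, a2, a3, a4, by push_cast; omega⟩

theorem solve {t : ℂ} (ht : t ≠ 0) {N : ℕ} (hb : BrOK t (N - 1)) {c : ℕ} (hc : c < N) {y : V}
    {z : V3} (hy : y ∈ Wt (N : ℤ) c) (hz : z ∈ W3 (N : ℤ) ((c : ℤ) - 1)) :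
    ∃ x ∈ W3 (N : ℤ) c, x 0 = y ∧ E3 t N x = z := by
  refine ⟨fun i => if 0 ≤ i then slv t N y z i.toNat else 0, ?_, ?_, ?_⟩
  · rw [mem_W3]
    intro i j k h
    by_cases hi : 0 ≤ i
    · simp only [hi, if_true] at h
      obtain ⟨a1, a2, a3, a4, a5⟩ := slv_mem hy hz i.toNat j k h
      exact ⟨hi, by omega, a1, a2, a3, a4, by omega⟩
    · simp only [hi, if_false] at h
      exact absurd rfl h
  · show (if (0 : ℤ) ≤ 0 then slv t N y z (0 : ℤ).toNat else 0) = y
    rw [if_pos le_rfl]; rfl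
  · funext i j k
    rw [E3_apply]
    rcases lt_trichotomy i (-1) with h | h | h
    · rw [if_neg (by omega : ¬ 0 ≤ i + 1), if_neg (by omega : ¬ 0 ≤ i), map_zero,
        W3_out hz (Or.inl (by omega))]
      simp
    · rw [if_neg (by omega : ¬ 0 ≤ i), map_zero, W3_out hz (Or.inl (by omega)), h,
        show (-1 : ℤ) + 1 = 0 by norm_num, br_zero]
      simp
    · obtain ⟨i, rfl⟩ := Int.eq_ofNat_of_zero_le (by omega : 0 ≤ i)
      have e1 : (if 0 ≤ (i : ℤ) + 1 then slv t N y z ((i : ℤ) + 1).toNat else 0) =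
          slv t N y z (i + 1) := by
        rw [if_pos (by omega)]
        congr 1
      have e2 : (if 0 ≤ (i : ℤ) then slv t N y z (i : ℤ).toNat else 0) = slv t N y z i := by
        rw [if_pos (by omega)]
        congr 1
      rw [e1, e2]
      rcases Nat.lt_or_ge i c with hic | hic
      · have hbr := hb (i + 1) (by omega) (by omega)
        push_cast at hbr
        show br t ((i : ℤ) + 1) * t ^ ((2 * j - (N : ℤ) + 1) + (2 * k - N + 1)) *
          ((br t ((i : ℤ) + 1))⁻¹ * t ^ (-((2 * j - (N : ℤ) + 1) + (2 * k - N + 1))) *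
          (z i j k - t ^ ((N : ℤ) - 1 - 2 * (i : ℤ)) * Eo t N (slv t N y z i) j k)) + _ = _
        have hz2 : t ^ ((2 * j - (N : ℤ) + 1) + (2 * k - N + 1)) *
            t ^ (-((2 * j - (N : ℤ) + 1) + (2 * k - N + 1))) = 1 := by
          rw [← zpow_add₀ ht, add_neg_cancel, zpow_zero]
        have h3 : br t ((i : ℤ) + 1) * (br t ((i : ℤ) + 1))⁻¹ = 1 := mul_inv_cancel₀ hbr
        linear_combination ((br t ((i : ℤ) + 1) * (br t ((i : ℤ) + 1))⁻¹) * (z i j k -
          t ^ ((N : ℤ) - 1 - 2 * (i : ℤ)) * Eo t N (slv t N y z i) j k)) * hz2 +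
          (z i j k - t ^ ((N : ℤ) - 1 - 2 * (i : ℤ)) * Eo t N (slv t N y z i) j k) * h3
      · have h1 : slv t N y z (i + 1) = 0 := Wt_neg (by push_cast; omega) (slv_mem hy hz (i + 1))
        have h2 : Eo t N (slv t N y z i) = 0 :=
          Wt_neg (by omega) (Eo_mem (slv_mem hy hz i))
        have h3 : z i = 0 := Wt_neg (by omega) (W3_sl hz i)
        rw [h1, h2, h3]
        simp

end Pool.Agent.Lib_helper77.VC
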