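import Pool.Agent.Lib_helper77.VC3.Rt5

set_option autoImplicit false

open Polynomial

namespace Pool.Agent.Lib_helper77.VC

/-- points converging to the root of unity -/
noncomputable def zq (m : ℕ) : ℂ := ((1 / ((m : ℝ) + 1) : ℝ) : ℂ)

theorem zq_tendsto : Filter.Tendsto zq Filter.atTop (nhds 0) := by
  have h := tendsto_one_div_add_atTop_nhds_zero_nat (𝕜 := ℝ)
  have h2 := (Complex.continuous_ofReal.tendsto 0).comp h
  rw [Complex.ofReal_zero] at h2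
  exact h2

noncomputable def tz (N : ℕ) (z : ℂ) : ℂ := rt N * (1 + z)

theorem tz_zero (N : ℕ) : tz N 0 = rt N := by unfold tz; ring

theorem norm_tz (N m : ℕ) : 1 < ‖tz N (zq m)‖ := by
  unfold tz zq
  rw [norm_mul, norm_rt, one_mul]
  have h : (0 : ℝ) < 1 / ((m : ℝ) + 1) := by positivity
  have e : (1 : ℂ) + ((1 / ((m : ℝ) + 1) : ℝ) : ℂ) = ((1 + 1 / ((m : ℝ) + 1) : ℝ) : ℂ) := by
    push_cast; ring
  rw [e, Complex.norm_real, Real.norm_of_nonneg (by positivity)]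
  linarith

theorem tz_ne (N m : ℕ) : tz N (zq m) ≠ 0 := by
  intro h
  have := norm_tz N m
  rw [h, norm_zero] at this
  linarith

theorem br_big {t : ℂ} (h : 1 < ‖t‖) {m : ℕ} (hm : 1 ≤ m) : br t m ≠ 0 := by
  intro h1
  unfold br at h1
  have h2 := sub_eq_zero.mp h1
  have h3 := congrArg norm h2
  rw [norm_zpow, norm_zpow] at h3
  have h4 := zpow_right_injective₀ (by linarith : (0 : ℝ) < ‖t‖) h.ne' h3
  omega

theorem BrOK_tz (N m M : ℕ) : BrOK (tz N (zq m)) M := fun _ h1 _ => br_big (norm_tz N m) h1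

/-- continuity at the root of unity of a family of vectors -/
def CA (x : ℂ → V3) : Prop := ∀ i j k, ContinuousAt (fun z => x z i j k) 0

def CO (T : ℂ → Module.End ℂ V3) : Prop := ∀ x, CA x → CA (fun z => T z (x z))

theorem CO.mul {S T : ℂ → Module.End ℂ V3} (hS : CO S) (hT : CO T) : CO (fun z => S z * T z) :=
  fun x hx => hS _ (hT x hx)

theorem CO.pow {S : ℂ → Module.End ℂ V3} (hS : CO S) (n : ℕ) : CO (fun z => S z ^ n) := by
  induction n with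
  | zero => intro x hx; exact hx
  | succ n ih =>
    intro x hx
    have := hS _ (ih x hx)
    simp only [pow_succ', Module.End.mul_apply]
    exact this

theorem CA.const (x : V3) : CA (fun _ => x) := fun _ _ _ => continuousAt_const

theorem tz_diff (N : ℕ) : DifferentiableAt ℂ (tz N) 0 := by unfold tz; fun_prop

theorem br_rt_ok {N : ℕ} (r : ℕ) (hr : r + 1 < N) : br (rt N) ((r : ℤ) + 1) ≠ 0 := by
  have := BrOK_rt (N := N) (r + 1) (by omega) (by omega)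
  push_cast at this
  exact this

theorem Rcoef_ca {N : ℕ} {f : ℂ → ℂ} (hf : DifferentiableAt ℂ f 0) (h0 : f 0 ≠ 0)
    (hb : ∀ r : ℕ, r + 1 < N → br (f 0) ((r : ℤ) + 1) ≠ 0) (i j : ℤ) {n : ℕ} (hn : n < N) :
    ContinuousAt (fun z => Rcoef N (f z) i j n) 0 :=
  (Rcoef_diffg hf h0 N i j n (fun r hr => hb r (by omega))).continuousAt

theorem Ro_ca {N : ℕ} {f : ℂ → ℂ} (hf : DifferentiableAt ℂ f 0) (h0 : f 0 ≠ 0)
    (hb : ∀ r : ℕ, r + 1 < N → br (f 0) ((r : ℤ) + 1) ≠ 0) {x : ℂ → V}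
    (hx : ∀ i j, ContinuousAt (fun z => x z i j) 0) (i j : ℤ) :
    ContinuousAt (fun z => Ro (f z) N (x z) i j) 0 := by
  simp only [Ro_apply]
  apply tendsto_finsetSum
  intro n hn
  rw [Finset.mem_range, Int.toNat_natCast] at hn
  exact (Rcoef_ca hf h0 hb i j hn).mul (hx _ _)

theorem Ro_tz {N : ℕ} {x : ℂ → V} (hx : ∀ i j, ContinuousAt (fun z => x z i j) 0) (i j : ℤ) :
    ContinuousAt (fun z => Ro (tz N z) N (x z) i j) 0 :=
  Ro_ca (tz_diff N) (by rw [tz_zero]; exact rt_ne N)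
    (fun r hr => by rw [tz_zero]; exact br_rt_ok r hr) hx i j

theorem tzi_diff (N : ℕ) : DifferentiableAt ℂ (fun z => (tz N z)⁻¹) 0 :=
  (tz_diff N).inv (by rw [tz_zero]; exact rt_ne N)

theorem Rm_tz {N : ℕ} {x : ℂ → V} (hx : ∀ i j, ContinuousAt (fun z => x z i j) 0) (i j : ℤ) :
    ContinuousAt (fun z => Rm (tz N z) N (x z) i j) 0 := by
  simp only [Rm_apply]
  refine Ro_ca (tzi_diff N) ?_ ?_ (fun a b => hx b a) j i
  · rw [tz_zero]; exact inv_ne_zero (rt_ne N)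
  · intro r hr
    rw [tz_zero, br_inv]
    exact neg_ne_zero.mpr (br_rt_ok r hr)

theorem CO_L01 {Q : ℂ → Module.End ℂ V} (h : ∀ x : ℂ → V, (∀ i j, ContinuousAt (fun z => x z i j) 0) →
    ∀ i j, ContinuousAt (fun z => Q z (x z) i j) 0) : CO (fun z => L01 (Q z)) :=
  fun x hx i j k => h (fun z a b => x z a b k) (fun a b => hx a b k) i j

theorem CO_L12 {Q : ℂ → Module.End ℂ V} (h : ∀ x : ℂ → V, (∀ i j, ContinuousAt (fun z => x z i j) 0) →
    ∀ i j, ContinuousAt (fun z => Q z (x z) i j) 0) : CO (fun z => L12 (Q z)) :=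
  fun x hx i j k => h (fun z => x z i) (fun a b => hx i a b) j k

theorem pow_ca {Q : ℂ → Module.End ℂ V} (h : ∀ x : ℂ → V, (∀ i j, ContinuousAt (fun z => x z i j) 0) →
    ∀ i j, ContinuousAt (fun z => Q z (x z) i j) 0) (a : ℕ) : ∀ x : ℂ → V,
    (∀ i j, ContinuousAt (fun z => x z i j) 0) →
    ∀ i j, ContinuousAt (fun z => ((Q z) ^ a) (x z) i j) 0 := by
  induction a with
  | zero => intro x hx; exact hx
  | succ a ih =>
    intro x hx
    simp only [pow_succ', Module.End.mul_apply]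
    exact h _ (ih x hx)

theorem zpow_ca {f : ℂ → ℂ} (hf : ContinuousAt f 0) (h0 : f 0 ≠ 0) (m : ℤ) :
    ContinuousAt (fun z => f z ^ m) 0 := hf.zpow₀ m (Or.inl h0)

theorem br_ca {f : ℂ → ℂ} (hf : ContinuousAt f 0) (h0 : f 0 ≠ 0) (m : ℤ) :
    ContinuousAt (fun z => br (f z) m) 0 := by
  unfold br
  exact (zpow_ca hf h0 _).sub (zpow_ca hf h0 _)

theorem CO_E3 (N : ℕ) : CO (fun z => E3 (tz N z) N) := by
  intro x hx i j k
  have hf := (tz_diff N).continuousAt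
  have h0 : tz N 0 ≠ 0 := by rw [tz_zero]; exact rt_ne N
  simp only [E3_apply, Eo_apply]
  exact (((br_ca hf h0 _).mul (zpow_ca hf h0 _)).mul (hx _ _ _)).add ((zpow_ca hf h0 _).mul
    ((((br_ca hf h0 _).mul (zpow_ca hf h0 _)).mul (hx _ _ _)).add
      (((zpow_ca hf h0 _).mul (br_ca hf h0 _)).mul (hx _ _ _))))

/-- passing to the limit -/
theorem lim_eq {f g : ℂ → ℂ} (hf : ContinuousAt f 0) (hg : ContinuousAt g 0)
    (h : ∀ m, f (zq m) = g (zq m)) : f 0 = g 0 := by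
  have h1 := hf.tendsto.comp zq_tendsto
  have h2 := hg.tendsto.comp zq_tendsto
  have h3 : f ∘ zq = g ∘ zq := funext h
  rw [h3] at h1
  exact tendsto_nhds_unique h1 h2

/-! ### the words -/

theorem Tw.mul {t : ℂ} {N : ℤ} {S T : Module.End ℂ V3} (hS : Tw t N S) (hT : Tw t N T) :
    Tw t N (S * T) :=
  ⟨fun c x hx => hS.mem c _ (hT.mem c x hx), fun c x hx => by
    rw [Module.End.mul_apply, Module.End.mul_apply, hS.comm c _ (hT.mem c x hx), hT.comm c x hx]⟩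

theorem Tw.one (t : ℂ) (N : ℤ) : Tw t N (1 : Module.End ℂ V3) := ⟨fun _ _ hx => hx, fun _ _ _ => rfl⟩

theorem Tw.npow {t : ℂ} {N : ℤ} {S : Module.End ℂ V3} (hS : Tw t N S) (n : ℕ) : Tw t N (S ^ n) := by
  induction n with
  | zero => exact Tw.one t N
  | succ n ih => rw [pow_succ]; exact ih.mul hS

theorem Tw_L01 {t : ℂ} (ht : t ≠ 0) {N : ℤ} {Q : Module.End ℂ V} (h : QOK t N Q) (hw : WtOK N Q) :
    Tw t N (L01 Q) := ⟨fun _ _ hx => L01_mem hw hx, fun _ _ hx => E3_L01 ht h hx⟩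

theorem Tw_L12 {t : ℂ} (ht : t ≠ 0) {N : ℤ} {Q : Module.End ℂ V} (h : QOK t N Q) (hw : WtOK N Q) :
    Tw t N (L12 Q) := ⟨fun _ _ hx => L12_mem hw hx, fun _ _ hx => E3_L12 ht h hx⟩

theorem Ro_WtOK (t : ℂ) (N : ℤ) : WtOK N (Ro t N) := fun _ _ hx => Ro_mem hx

theorem Rm_WtOK (t : ℂ) (N : ℤ) : WtOK N (Rm t N) := by
  intro a x hx
  have h := flip_mem (Ro_mem (t := t⁻¹) (flip_mem hx))
  exact h

/-- the braid word -/
noncomputable def Wa (t : ℂ) (N : ℤ) (a n : ℕ) : Module.End ℂ V3 :=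
  (L12 (Rm t N) ^ a * L01 (Ro t N) ^ a) ^ n

/-- the braid word, other convention -/
noncomputable def Wb (t : ℂ) (N : ℤ) (a n : ℕ) : Module.End ℂ V3 :=
  (L01 (Rm t N) ^ a * L12 (Ro t N) ^ a) ^ n

theorem Tw_Wa {t : ℂ} {N : ℕ} (h : Gen t N) (a n : ℕ) : Tw t N (Wa t N a n) :=
  (((Tw_L12 h.ne (Rm_QOK h.ne h.br) (Rm_WtOK t N)).npow a).mul
    ((Tw_L01 h.ne (Ro_QOK h.ne h.br) (Ro_WtOK t N)).npow a)).npow n

theorem Tw_Wb {t : ℂ} {N : ℕ} (h : Gen t N) (a n : ℕ) : Tw t N (Wb t N a n) :=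
  (((Tw_L01 h.ne (Rm_QOK h.ne h.br) (Rm_WtOK t N)).npow a).mul
    ((Tw_L12 h.ne (Ro_QOK h.ne h.br) (Ro_WtOK t N)).npow a)).npow n

theorem CO_Wa (N a n : ℕ) : CO (fun z => Wa (tz N z) N a n) :=
  (((CO_L12 (fun _ hx => Rm_tz hx)).pow a).mul ((CO_L01 (fun _ hx => Ro_tz hx)).pow a)).pow n

theorem CO_Wb (N a n : ℕ) : CO (fun z => Wb (tz N z) N a n) :=
  (((CO_L01 (fun _ hx => Rm_tz hx)).pow a).mul ((CO_L12 (fun _ hx => Ro_tz hx)).pow a)).pow n

theorem mem_npow {P : Submodule ℂ V3} {S : Module.End ℂ V3} (h : ∀ x ∈ P, S x ∈ P) (n : ℕ) :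
    ∀ x ∈ P, (S ^ n) x ∈ P := by
  induction n with
  | zero => intro x hx; exact hx
  | succ n ih => intro x hx; rw [pow_succ', Module.End.mul_apply]; exact h _ (ih x hx)

theorem Wa_mem (t : ℂ) (N : ℤ) (a n : ℕ) (c : ℤ) : ∀ x ∈ W3 N c, Wa t N a n x ∈ W3 N c := by
  apply mem_npow
  intro x hx
  exact mem_npow (fun x hx => L12_mem (Rm_WtOK t N) hx) a _
    (mem_npow (fun x hx => L01_mem (Ro_WtOK t N) hx) a _ hx)

theorem Wb_mem (t : ℂ) (N : ℤ) (a n : ℕ) (c : ℤ) : ∀ x ∈ W3 N c, Wb t N a n x ∈ W3 N c := by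
  apply mem_npow
  intro x hx
  exact mem_npow (fun x hx => L01_mem (Rm_WtOK t N) hx) a _
    (mem_npow (fun x hx => L12_mem (Ro_WtOK t N) hx) a _ hx)

theorem Tw_lim {N : ℕ} {T : ℂ → Module.End ℂ V3} (hT : ∀ m, Tw (tz N (zq m)) N (T (zq m)))
    (hC : CO T) (hm : ∀ c : ℤ, ∀ x ∈ W3 (N : ℤ) c, T 0 x ∈ W3 (N : ℤ) c) : Tw (rt N) N (T 0) := by
  refine ⟨hm, ?_⟩
  intro c x hx
  funext i j k
  have h := lim_eq (CO_E3 N _ (hC _ (CA.const x)) i j k) (hC _ (CO_E3 N _ (CA.const x)) i j k)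
    (fun m => by
      show E3 (tz N (zq m)) N (T (zq m) x) i j k = T (zq m) (E3 (tz N (zq m)) N x) i j k
      rw [(hT m).comm c x hx])
  have h2 : E3 (tz N 0) N (T 0 x) i j k = T 0 (E3 (tz N 0) N x) i j k := h
  rw [tz_zero] at h2
  exact h2

theorem Tw_Wa_rt (N a n : ℕ) : Tw (rt N) N (Wa (rt N) N a n) := by
  have := Tw_lim (N := N) (T := fun z => Wa (tz N z) N a n)
    (fun m => Tw_Wa (Gen_of (tz_ne N m) (BrOK_tz N m _)) a n) (CO_Wa N a n)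
    (fun c => by rw [tz_zero]; exact Wa_mem _ _ _ _ c)
  rwa [tz_zero] at this

theorem Tw_Wb_rt (N a n : ℕ) : Tw (rt N) N (Wb (rt N) N a n) := by
  have := Tw_lim (N := N) (T := fun z => Wb (tz N z) N a n)
    (fun m => Tw_Wb (Gen_of (tz_ne N m) (BrOK_tz N m _)) a n) (CO_Wb N a n)
    (fun c => by rw [tz_zero]; exact Wb_mem _ _ _ _ c)
  rwa [tz_zero] at this

/-! ### the trace at a generic point -/

theorem HW_W3 {t : ℂ} {N c : ℕ} : HW t N c = W3 (N : ℤ) (c : ℤ) ⊓ LinearMap.ker (E3 t N) := rfl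

theorem gen_step {t : ℂ} (ht : t ≠ 0) {N c : ℕ} (hc : c < N) (hb : BrOK t (N - 1))
    {T : Module.End ℂ V3} (hT : Tw t N T) :
    trp T (W3 (N : ℤ) c) = trp T (HW t N c) + trp T (W3 (N : ℤ) ((c : ℤ) - 1)) := by
  refine trp_surj (sub_fin le_rfl) (sub_fin le_rfl) (hT.mem _) (hT.mem _) (fun x hx => E3_mem hx) ?_
    (hT.comm _)
  intro y hy
  obtain ⟨x, hx, _, hE⟩ := solve ht hb hc (y := 0) (Submodule.zero_mem _) hy
  exact ⟨x, hx, hE⟩

theorem CO.trp {N : ℕ} {T : ℂ → Module.End ℂ V3} (hC : CO T) (c : ℤ)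
    (hm : ∀ z, ∀ x ∈ W3 (N : ℤ) c, T z x ∈ W3 (N : ℤ) c) :
    ContinuousAt (fun z => Pool.Agent.Lib_helper77.VC.trp (T z) (W3 (N : ℤ) c)) 0 := by
  have e : (fun z => Pool.Agent.Lib_helper77.VC.trp (T z) (W3 (N : ℤ) c)) = fun z =>
      ∑ p ∈ St N c, (T z (dl p) (p.1 : ℤ) (p.2.1 : ℤ) (p.2.2 : ℤ) : ℂ) :=
    funext fun z => trp_W3 (hm z)
  rw [e]
  apply tendsto_finsetSum
  intro p _
  exact hC _ (CA.const (dl p)) _ _ _

/-- the difference of two consecutive weight traces at the root of unity -/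
theorem tau_of_lim {N c : ℕ} (hc : c < N) {T : ℂ → Module.End ℂ V3}
    (hT : ∀ m, Tw (tz N (zq m)) N (T (zq m))) (hC : CO T) (hT0 : Tw (rt N) N (T 0))
    (hm : ∀ z, ∀ c : ℤ, ∀ x ∈ W3 (N : ℤ) c, T z x ∈ W3 (N : ℤ) c) {F : ℂ → ℂ}
    (hF : ContinuousAt F 0) (h : ∀ m, Pool.Agent.Lib_helper77.VC.trp (T (zq m))
      (HW (tz N (zq m)) N c) = F (zq m)) : tauc (rt N) N (T 0) c = F 0 := by
  have h1 := gen_step (rt_ne N) hc BrOK_rt hT0
  have h2 := lim_eq (CO.trp hC (c : ℤ) (fun z => hm z c))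
    (hF.add (CO.trp hC ((c : ℤ) - 1) (fun z => hm z ((c : ℤ) - 1)))) (fun m => by
      show _ = F (zq m) + Pool.Agent.Lib_helper77.VC.trp (T (zq m)) (W3 (N : ℤ) ((c : ℤ) - 1))
      rw [← h m]
      exact gen_step (tz_ne N m) hc (BrOK_tz N m _) (hT m))
  have h3 : Pool.Agent.Lib_helper77.VC.trp (T 0) (W3 (N : ℤ) c) = F 0 +
      Pool.Agent.Lib_helper77.VC.trp (T 0) (W3 (N : ℤ) ((c : ℤ) - 1)) := h2
  rw [h1] at h3
  exact add_right_cancel h3

end Pool.Agent.Lib_helper77.VC
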