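import Mathlib

set_option autoImplicit false

open Matrix

namespace Pool.Agent.Lib_helper77.VC

/-! ### splitting a block triangular matrix -/

theorem split_pow {s : ℕ} {M M1 M2 : Matrix (Fin s) (Fin s) ℂ} (p : Fin s → Prop)
    (h0 : ∀ i j, p i → ¬ p j → M i j = 0) (h1 : ∀ i j, p i → p j → M1 i j = M i j)
    (h1' : ∀ i j, ¬ (p i ∧ p j) → M1 i j = 0) (h2 : ∀ i j, ¬ p i → ¬ p j → M2 i j = M i j)
    (h2' : ∀ i j, ¬ (¬ p i ∧ ¬ p j) → M2 i j = 0) (n : ℕ) :
    (∀ i j, p i → ¬ p j → (M ^ n) i j = 0) ∧ (∀ i j, p i → p j → (M1 ^ n) i j = (M ^ n) i j) ∧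
    (∀ i j, ¬ p i → ¬ p j → (M2 ^ n) i j = (M ^ n) i j) := by
  induction n with
  | zero =>
    refine ⟨?_, fun _ _ _ _ => by rw [pow_zero, pow_zero], fun _ _ _ _ => by rw [pow_zero, pow_zero]⟩
    intro i j hi hj
    rw [pow_zero, Matrix.one_apply_ne]
    rintro rfl
    exact hj hi
  | succ n ih =>
    obtain ⟨i1, i2, i3⟩ := ih
    refine ⟨?_, ?_, ?_⟩
    · intro i j hi hj
      rw [pow_succ, Matrix.mul_apply]
      apply Finset.sum_eq_zero
      intro k _
      by_cases hk : p k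
      · rw [h0 k j hk hj, mul_zero]
      · rw [i1 i k hi hk, zero_mul]
    · intro i j hi hj
      rw [pow_succ, pow_succ, Matrix.mul_apply, Matrix.mul_apply]
      refine Finset.sum_congr rfl fun k _ => ?_
      by_cases hk : p k
      · rw [i2 i k hi hk, h1 k j hk hj]
      · rw [i1 i k hi hk, h1' k j (fun h => hk h.1), mul_zero, zero_mul]
    · intro i j hi hj
      rw [pow_succ, pow_succ, Matrix.mul_apply, Matrix.mul_apply]
      refine Finset.sum_congr rfl fun k _ => ?_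
      by_cases hk : p k
      · rw [h0 k j hk hj, h2' k j (fun h => h.1 hk), mul_zero, mul_zero]
      · rw [i3 i k hi hk, h2 k j hk hj]

theorem split_trace {s : ℕ} {M M1 M2 : Matrix (Fin s) (Fin s) ℂ} (p : Fin s → Prop)
    (h0 : ∀ i j, p i → ¬ p j → M i j = 0) (h1 : ∀ i j, p i → p j → M1 i j = M i j)
    (h1' : ∀ i j, ¬ (p i ∧ p j) → M1 i j = 0) (h2 : ∀ i j, ¬ p i → ¬ p j → M2 i j = M i j)
    (h2' : ∀ i j, ¬ (¬ p i ∧ ¬ p j) → M2 i j = 0) {n : ℕ} (hn : 1 ≤ n) :
    trace (M ^ n) = trace (M1 ^ n) + trace (M2 ^ n) := by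
  obtain ⟨i1, i2, i3⟩ := split_pow p h0 h1 h1' h2 h2' n
  unfold trace
  rw [← Finset.sum_add_distrib]
  refine Finset.sum_congr rfl fun i _ => ?_
  rw [diag_apply, diag_apply, diag_apply]
  obtain ⟨m, rfl⟩ : ∃ m, n = m + 1 := ⟨n - 1, by omega⟩
  by_cases hi : p i
  · rw [← i2 i i hi hi]
    have : (M2 ^ (m + 1)) i i = 0 := by
      rw [pow_succ, mul_apply]
      apply Finset.sum_eq_zero
      intro k _
      rw [h2' k i (fun h => h.2 hi), mul_zero]
    rw [this, add_zero]
  · rw [← i3 i i hi hi]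
    have : (M1 ^ (m + 1)) i i = 0 := by
      rw [pow_succ, mul_apply]
      apply Finset.sum_eq_zero
      intro k _
      rw [h1' k i (fun h => hi h.2), mul_zero]
    rw [this, zero_add]

/-! ### upper bounds -/

theorem hat_bound {s : ℕ} {X Y : Matrix (Fin s) (Fin s) ℂ} {g : Fin s → ℝ} (hg : ∀ i, 0 < g i)
    {K : ℝ} (hX : ∀ i j, ‖X i j‖ * g i ≤ K * g j) (hY : ∀ i j, ‖Y i j‖ * g i ≤ K * g j) (n : ℕ) :
    ‖trace ((Y * X) ^ n)‖ ≤ s * ((s : ℝ) ^ 2 * K ^ 2) ^ n := by
  rcases Nat.eq_zero_or_pos s with hs | hs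
  · subst hs
    simp [trace]
  have hK : 0 ≤ K := by
    have i : Fin s := ⟨0, hs⟩
    have h1 := hX i i
    have h2 : 0 ≤ ‖X i i‖ * g i := mul_nonneg (norm_nonneg _) (hg i).le
    nlinarith [hg i]
  have hs1 : (1 : ℝ) ≤ s := by exact_mod_cast hs
  have hM : ∀ i j, ‖(Y * X) i j‖ * g i ≤ (s * K ^ 2) * g j := by
    intro i j
    rw [mul_apply]
    calc ‖∑ k, Y i k * X k j‖ * g i ≤ (∑ k, ‖Y i k * X k j‖) * g i :=
          mul_le_mul_of_nonneg_right (norm_sum_le _ _) (hg i).le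
      _ = ∑ k, ‖Y i k‖ * g i * ‖X k j‖ := by
          rw [Finset.sum_mul]
          refine Finset.sum_congr rfl fun k _ => ?_
          rw [norm_mul]; ring
      _ ≤ ∑ _k : Fin s, K ^ 2 * g j := by
          refine Finset.sum_le_sum fun k _ => ?_
          calc ‖Y i k‖ * g i * ‖X k j‖ ≤ K * g k * ‖X k j‖ :=
                mul_le_mul_of_nonneg_right (hY i k) (norm_nonneg _)
            _ = K * (‖X k j‖ * g k) := by ring
            _ ≤ K * (K * g j) := mul_le_mul_of_nonneg_left (hX k j) hK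
            _ = K ^ 2 * g j := by ring
      _ = (s * K ^ 2) * g j := by
          rw [Finset.sum_const, Finset.card_univ, Fintype.card_fin, nsmul_eq_mul]; ring
  have hpow : ∀ m : ℕ, ∀ i j, ‖((Y * X) ^ m) i j‖ * g i ≤ ((s : ℝ) ^ 2 * K ^ 2) ^ m * g j := by
    intro m
    induction m with
    | zero =>
      intro i j
      rw [pow_zero, pow_zero, one_mul]
      by_cases hij : i = j
      · subst hij; simp
      · rw [one_apply_ne hij, norm_zero, zero_mul]; exact (hg j).le
    | succ m ih =>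
      intro i j
      rw [pow_succ, mul_apply]
      have hc : 0 ≤ ((s : ℝ) ^ 2 * K ^ 2) ^ m := by positivity
      calc ‖∑ k, ((Y * X) ^ m) i k * (Y * X) k j‖ * g i
          ≤ (∑ k, ‖((Y * X) ^ m) i k * (Y * X) k j‖) * g i :=
            mul_le_mul_of_nonneg_right (norm_sum_le _ _) (hg i).le
        _ = ∑ k, ‖((Y * X) ^ m) i k‖ * g i * ‖(Y * X) k j‖ := by
            rw [Finset.sum_mul]
            refine Finset.sum_congr rfl fun k _ => ?_
            rw [norm_mul]; ring
        _ ≤ ∑ _k : Fin s, ((s : ℝ) ^ 2 * K ^ 2) ^ m * ((s * K ^ 2) * g j) := by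
            refine Finset.sum_le_sum fun k _ => ?_
            calc ‖((Y * X) ^ m) i k‖ * g i * ‖(Y * X) k j‖
                ≤ ((s : ℝ) ^ 2 * K ^ 2) ^ m * g k * ‖(Y * X) k j‖ :=
                  mul_le_mul_of_nonneg_right (ih i k) (norm_nonneg _)
              _ = ((s : ℝ) ^ 2 * K ^ 2) ^ m * (‖(Y * X) k j‖ * g k) := by ring
              _ ≤ ((s : ℝ) ^ 2 * K ^ 2) ^ m * ((s * K ^ 2) * g j) :=
                  mul_le_mul_of_nonneg_left (hM k j) hc
        _ = ((s : ℝ) ^ 2 * K ^ 2) ^ (m + 1) * g j := by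
            rw [Finset.sum_const, Finset.card_univ, Fintype.card_fin, nsmul_eq_mul]; ring
  unfold trace
  calc ‖∑ i, diag ((Y * X) ^ n) i‖ ≤ ∑ i, ‖diag ((Y * X) ^ n) i‖ := norm_sum_le _ _
    _ ≤ ∑ _i : Fin s, ((s : ℝ) ^ 2 * K ^ 2) ^ n := by
        refine Finset.sum_le_sum fun i _ => ?_
        rw [diag_apply]
        exact le_of_mul_le_mul_right (hpow n i i) (hg i)
    _ = _ := by rw [Finset.sum_const, Finset.card_univ, Fintype.card_fin, nsmul_eq_mul]

/-! ### positivity -/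

open scoped ComplexOrder in
theorem psd_trace_pow {s : ℕ} {H : Matrix (Fin s) (Fin s) ℂ} (h : H.PosSemidef) (n : ℕ) (k : Fin s) :
    ((H k k).re) ^ n ≤ (trace (H ^ n)).re := by
  set lam := h.1.eigenvalues with hlam
  have hnn : ∀ i, 0 ≤ lam i := h.eigenvalues_nonneg
  set U := h.1.eigenvectorUnitary with hU
  have hsp := h.1.spectral_theorem
  have hpow : H ^ n = (U : Matrix (Fin s) (Fin s) ℂ) * diagonal (fun i => ((lam i : ℂ)) ^ n) *
      star (U : Matrix (Fin s) (Fin s) ℂ) := by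
    have e1 : H ^ n = ((Unitary.conjStarAlgAut ℂ (Matrix (Fin s) (Fin s) ℂ)) U)
        ((diagonal (RCLike.ofReal ∘ lam)) ^ n) := by
      rw [map_pow, ← hsp]
    rw [e1, diagonal_pow, Unitary.conjStarAlgAut_apply]
    rfl
  have hUU : star (U : Matrix (Fin s) (Fin s) ℂ) * (U : Matrix (Fin s) (Fin s) ℂ) = 1 :=
    Unitary.coe_star_mul_self U
  have hUU' : (U : Matrix (Fin s) (Fin s) ℂ) * star (U : Matrix (Fin s) (Fin s) ℂ) = 1 :=
    Unitary.coe_mul_star_self U
  have htr : trace (H ^ n) = ∑ i, ((lam i : ℂ)) ^ n := by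
    rw [hpow, trace_mul_comm, ← mul_assoc, hUU, one_mul, trace_diagonal]
  have hH : H = (U : Matrix (Fin s) (Fin s) ℂ) * diagonal (fun i => ((lam i : ℂ))) *
      star (U : Matrix (Fin s) (Fin s) ℂ) := by
    conv_lhs => rw [hsp]
    rw [Unitary.conjStarAlgAut_apply]
    rfl
  have hkk : (H k k).re = ∑ i, lam i * Complex.normSq ((U : Matrix (Fin s) (Fin s) ℂ) k i) := by
    conv_lhs => rw [hH]
    rw [mul_apply, Complex.re_sum]
    refine Finset.sum_congr rfl fun i _ => ?_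
    rw [mul_diagonal, star_apply]
    have : (U : Matrix (Fin s) (Fin s) ℂ) k i * (lam i : ℂ) *
        star ((U : Matrix (Fin s) (Fin s) ℂ) k i) =
        ((lam i * Complex.normSq ((U : Matrix (Fin s) (Fin s) ℂ) k i) : ℝ) : ℂ) := by
      rw [Complex.ofReal_mul, ← Complex.mul_conj]
      show _ * _ * (starRingEnd ℂ) _ = _
      ring
    rw [this, Complex.ofReal_re]
  have hone : ∑ i, Complex.normSq ((U : Matrix (Fin s) (Fin s) ℂ) k i) = 1 := by
    have h1 := congrFun (congrFun hUU' k) k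
    rw [mul_apply, one_apply_eq] at h1
    have h2 := congrArg Complex.re h1
    rw [Complex.re_sum, Complex.one_re] at h2
    rw [← h2]
    refine Finset.sum_congr rfl fun i _ => ?_
    rw [star_apply]
    have : (U : Matrix (Fin s) (Fin s) ℂ) k i * star ((U : Matrix (Fin s) (Fin s) ℂ) k i) =
        ((Complex.normSq ((U : Matrix (Fin s) (Fin s) ℂ) k i) : ℝ) : ℂ) := Complex.mul_conj _
    rw [this, Complex.ofReal_re]
  obtain ⟨i0, _, hi0⟩ := Finset.exists_max_image Finset.univ lam ⟨k, Finset.mem_univ k⟩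
  have h1 : (H k k).re ≤ lam i0 := by
    rw [hkk]
    calc ∑ i, lam i * Complex.normSq ((U : Matrix (Fin s) (Fin s) ℂ) k i)
        ≤ ∑ i, lam i0 * Complex.normSq ((U : Matrix (Fin s) (Fin s) ℂ) k i) :=
          Finset.sum_le_sum fun i _ => mul_le_mul_of_nonneg_right (hi0 i (Finset.mem_univ i))
            (Complex.normSq_nonneg _)
      _ = lam i0 := by rw [← Finset.mul_sum, hone, mul_one]
  have h0 : 0 ≤ (H k k).re := by
    rw [hkk]
    exact Finset.sum_nonneg fun i _ => mul_nonneg (hnn i) (Complex.normSq_nonneg _)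
  have htr2 : (trace (H ^ n)).re = ∑ i, lam i ^ n := by
    rw [htr, Complex.re_sum]
    refine Finset.sum_congr rfl fun i _ => ?_
    rw [← Complex.ofReal_pow, Complex.ofReal_re]
  rw [htr2]
  calc ((H k k).re) ^ n ≤ lam i0 ^ n := pow_le_pow_left₀ h0 h1 n
    _ ≤ ∑ i, lam i ^ n := Finset.single_le_sum (f := fun i => lam i ^ n)
        (fun i _ => pow_nonneg (hnn i) n) (Finset.mem_univ i0)

open scoped ComplexOrder in
/-- `Y` is the adjoint of `X` for the weights `g ^ 2` -/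
theorem pos_bound {s : ℕ} {X Y : Matrix (Fin s) (Fin s) ℂ} {g : Fin s → ℝ} (hg : ∀ i, 0 < g i)
    (h : ∀ i j, Y i j * (g i : ℂ) ^ 2 = (starRingEnd ℂ) (X j i) * (g j : ℂ) ^ 2) (n : ℕ) :
    0 ≤ (trace ((Y * X) ^ n)).re ∧
    ∀ m k : Fin s, ((‖X m k‖ * g m / g k) ^ 2) ^ n ≤ (trace ((Y * X) ^ n)).re := by
  set G : Matrix (Fin s) (Fin s) ℂ := diagonal (fun i => (g i : ℂ)) with hG
  set G' : Matrix (Fin s) (Fin s) ℂ := diagonal (fun i => ((g i)⁻¹ : ℂ)) with hG'
  have hne : ∀ i, (g i : ℂ) ≠ 0 := fun i => by exact_mod_cast (hg i).ne'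
  have hGG : G' * G = 1 := by
    rw [hG, hG', diagonal_mul_diagonal, ← diagonal_one]
    congr 1; funext i; exact inv_mul_cancel₀ (hne i)
  have hGG' : G * G' = 1 := by
    rw [hG, hG', diagonal_mul_diagonal, ← diagonal_one]
    congr 1; funext i; exact mul_inv_cancel₀ (hne i)
  set Z := G * X * G' with hZ
  have hZa : ∀ i j, Z i j = (g i : ℂ) * X i j * ((g j : ℂ))⁻¹ := by
    intro i j
    rw [hZ, hG, hG', mul_diagonal, diagonal_mul]
  have hY : G * Y * G' = Zᴴ := by
    ext i j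
    rw [hG, hG', mul_diagonal, diagonal_mul, conjTranspose_apply, hZa]
    show _ = (starRingEnd ℂ) _
    rw [map_mul, map_mul, map_inv₀, Complex.conj_ofReal, Complex.conj_ofReal]
    have h1 := h i j
    have hi := hne i
    have hj := hne j
    field_simp
    linear_combination h1
  have hpow : G * (Y * X) ^ n * G' = (Zᴴ * Z) ^ n := by
    induction n with
    | zero => rw [pow_zero, pow_zero, mul_one, hGG']
    | succ n ih =>
      rw [pow_succ, pow_succ, ← ih, ← hY, hZ]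
      calc G * ((Y * X) ^ n * (Y * X)) * G' = G * (Y * X) ^ n * 1 * Y * 1 * X * G' := by
            simp only [mul_assoc, one_mul, mul_one]
        _ = G * (Y * X) ^ n * (G' * G) * Y * (G' * G) * X * G' := by rw [hGG]
        _ = _ := by simp only [mul_assoc]
  have htr : trace ((Y * X) ^ n) = trace ((Zᴴ * Z) ^ n) := by
    rw [← hpow, trace_mul_comm, ← mul_assoc, hGG, one_mul]
  have hpsd : (Zᴴ * Z).PosSemidef := posSemidef_conjTranspose_mul_self Z
  rw [htr]
  refine ⟨?_, ?_⟩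
  · have h1 := (hpsd.pow n).trace_nonneg
    exact (Complex.le_def.mp h1).1
  · intro m k
    refine le_trans (pow_le_pow_left₀ (by positivity) ?_ n) (psd_trace_pow hpsd n k)
    rw [mul_apply, Complex.re_sum]
    have e : ∀ i, (Zᴴ k i * Z i k).re = Complex.normSq (Z i k) := by
      intro i
      rw [conjTranspose_apply]
      show ((starRingEnd ℂ) (Z i k) * Z i k).re = _
      rw [mul_comm, Complex.mul_conj, Complex.ofReal_re]
    simp only [e]
    have h2 : (‖X m k‖ * g m / g k) ^ 2 = Complex.normSq (Z m k) := by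
      rw [hZa, Complex.normSq_eq_norm_sq, norm_mul, norm_mul, norm_inv, Complex.norm_real,
        Complex.norm_real, Real.norm_of_nonneg (hg m).le, Real.norm_of_nonneg (hg k).le]
      congr 1
      rw [div_eq_mul_inv]; ring
    rw [h2]
    exact Finset.single_le_sum (f := fun i => Complex.normSq (Z i k))
      (fun i _ => Complex.normSq_nonneg _) (Finset.mem_univ m)

end Pool.Agent.Lib_helper77.VC
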