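import Pool.Agent.Lib_helper77.VC3.Asy

set_option autoImplicit false

open Matrix Filter Topology MeasureTheory

namespace Pool.Agent.Lib_helper77.VC

/-- upper Riemann sum -/
theorem log_Bn_up {N n : ℕ} (hN : 1 ≤ N) (h : 2 * (n + 1) ≤ N) :
    Real.log (Bn N n) ≤ N / Real.pi * (lob (Real.pi * ((n + 1 : ℕ) : ℝ) / N) - lob (Real.pi / N)) := by
  have hN' : (0 : ℝ) < N := by exact_mod_cast hN
  have hpi := Real.pi_pos
  induction n with
  | zero => simp [Bn_zero]
  | succ n ih =>
    have ih' := ih (by omega)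
    have hb := Bn_pos (N := N) (n := n) (by omega)
    rw [Bn_succ, Real.log_mul hb.ne' (sb_pos (by omega) (by omega)).ne']
    have h1 := lob_sub (Real.pi * (n + 1 : ℕ) / N) (Real.pi * (n + 1 + 1 : ℕ) / N)
    have h2 : Real.pi * ((n + 1 : ℕ) : ℝ) / N ≤ Real.pi * (n + 1 + 1 : ℕ) / N := by
      push_cast
      apply div_le_div_of_nonneg_right _ hN'.le
      nlinarith
    have h3 : Real.pi * ((n + 1 + 1 : ℕ) : ℝ) / N ≤ Real.pi / 2 := by
      rw [div_le_div_iff₀ hN' (by norm_num)]
      have : (2 : ℝ) * ((n + 1 + 1 : ℕ) : ℝ) ≤ N := by exact_mod_cast h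
      nlinarith
    have h4 := le_int (a := Real.pi * (n + 1 : ℕ) / N) (by positivity) h2 h3
    have h5 : Real.pi * ((n + 1 + 1 : ℕ) : ℝ) / N - Real.pi * (n + 1 : ℕ) / N = Real.pi / N := by
      push_cast; field_simp; ring
    rw [h5] at h4
    have h6 : Real.log (sb N (n + 1)) = ls (Real.pi * ((n + 1 : ℕ) : ℝ) / N) := rfl
    rw [h6]
    have h7 : N / Real.pi * (Real.pi / N * ls (Real.pi * ((n + 1 : ℕ) : ℝ) / N)) =
        ls (Real.pi * ((n + 1 : ℕ) : ℝ) / N) := by
      field_simp
    have h8 : N / Real.pi * (Real.pi / N * ls (Real.pi * ((n + 1 : ℕ) : ℝ) / N)) ≤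
        N / Real.pi * (lob (Real.pi * ((n + 1 + 1 : ℕ) : ℝ) / N) -
          lob (Real.pi * ((n + 1 : ℕ) : ℝ) / N)) := by
      apply mul_le_mul_of_nonneg_left _ (div_nonneg hN'.le hpi.le)
      rw [h1]; exact h4
    rw [h7] at h8
    have h9 : N / Real.pi * (lob (Real.pi * ((n + 1 + 1 : ℕ) : ℝ) / N) - lob (Real.pi / N)) =
        N / Real.pi * (lob (Real.pi * ((n + 1 : ℕ) : ℝ) / N) - lob (Real.pi / N)) +
        N / Real.pi * (lob (Real.pi * ((n + 1 + 1 : ℕ) : ℝ) / N) -
          lob (Real.pi * ((n + 1 : ℕ) : ℝ) / N)) := by ring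
    rw [h9]
    linarith

theorem lob_cont : Continuous lob := intervalIntegral.continuous_primitive (fun a b => ls_int a b) 0

theorem third_tendsto : Tendsto (fun N : ℕ => ((N / 3 : ℕ) : ℝ) / N) atTop (𝓝 (1 / 3)) := by
  have h0 := one_div_tendsto
  have h1 : Tendsto (fun N : ℕ => (1 : ℝ) / 3 - 1 / N) atTop (𝓝 (1 / 3 - 0)) :=
    tendsto_const_nhds.sub h0
  rw [sub_zero] at h1
  refine tendsto_of_tendsto_of_tendsto_of_le_of_le' h1 tendsto_const_nhds ?_ ?_
  · filter_upwards [eventually_ge_atTop 1] with N hN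
    have hN' : (0 : ℝ) < N := by exact_mod_cast hN
    have h2 : (N : ℝ) ≤ 3 * ((N / 3 : ℕ) : ℝ) + 3 := by
      exact_mod_cast (by omega : N ≤ 3 * (N / 3) + 3)
    have e : (1 : ℝ) / 3 - 1 / N = (N / 3 - 1) / N := by field_simp
    rw [e]
    apply div_le_div_of_nonneg_right _ hN'.le
    linarith
  · filter_upwards [eventually_ge_atTop 1] with N hN
    have hN' : (0 : ℝ) < N := by exact_mod_cast hN
    have h2 : 3 * ((N / 3 : ℕ) : ℝ) ≤ N := by exact_mod_cast (by omega : 3 * (N / 3) ≤ N)
    rw [div_le_div_iff₀ hN' (by norm_num)]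
    linarith

theorem v3_third : v3 = -(3 * lob (Real.pi / 3)) := by
  rw [v3_eq, lob_dup]; ring

/-- lower exponent for the first family -/
noncomputable def l1 (N : ℕ) : ℝ := 3 * lob (Real.pi / N) -
  lob (Real.pi * ((N - 2 * (N / 3) : ℕ) : ℝ) / N) - 2 * lob (Real.pi * ((N / 3 + 1 : ℕ) : ℝ) / N)

theorem l1_tendsto : Tendsto l1 atTop (𝓝 v3) := by
  have h0 : Tendsto (fun N : ℕ => Real.pi / (N : ℝ)) atTop (𝓝 0) := by
    have := one_div_tendsto.const_mul Real.pi
    rw [mul_zero] at this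
    refine this.congr fun N => ?_
    ring
  have h1 : Tendsto (fun N : ℕ => Real.pi * ((N / 3 + 1 : ℕ) : ℝ) / N) atTop (𝓝 (Real.pi / 3)) := by
    have h2 := (third_tendsto.add one_div_tendsto).const_mul Real.pi
    rw [show Real.pi * (1 / 3 + 0) = Real.pi / 3 by ring] at h2
    refine h2.congr fun N => ?_
    push_cast; ring
  have h3 : Tendsto (fun N : ℕ => Real.pi * ((N - 2 * (N / 3) : ℕ) : ℝ) / N) atTop (𝓝 (Real.pi / 3)) := by
    have h2 := ((third_tendsto.const_mul 2).const_sub 1).const_mul Real.pi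
    rw [show Real.pi * (1 - 2 * (1 / 3)) = Real.pi / 3 by ring] at h2
    refine h2.congr' ?_
    filter_upwards [eventually_ge_atTop 1] with N hN
    have hN' : (0 : ℝ) < N := by exact_mod_cast hN
    rw [Nat.cast_sub (by omega)]
    push_cast
    field_simp
  have c := lob_cont
  have t0 := (c.tendsto 0).comp h0
  have t1 := (c.tendsto (Real.pi / 3)).comp h1
  have t3 := (c.tendsto (Real.pi / 3)).comp h3
  rw [lob_zero] at t0
  have := ((t0.const_mul 3).sub t3).sub (t1.const_mul 2)
  rw [show (3 : ℝ) * 0 - lob (Real.pi / 3) - 2 * lob (Real.pi / 3) = v3 by rw [v3_third]; ring] at this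
  exact this

/-- the large entry for the first family -/
theorem en1_low {N : ℕ} (hN : 12 ≤ N) : Real.exp (N / Real.pi * l1 N) ≤
    en (fun N t => Dx1 t N) N (N - 1) (N / 3) (2 * (N / 3)) := by
  set L := N / 3 with hL
  have hN' : (0 : ℝ) < N := by exact_mod_cast (by omega : 0 < N)
  have h2L : 2 * L < N := by omega
  rw [en_top _ (by omega) h2L]
  show _ ≤ ‖Dx1 (rt N) N L (2 * L)‖ * _
  rw [norm_D1_top (by omega) h2L]
  have b0 := Bn_pos (N := N) (n := 2 * L) h2L
  have b1 := Bn_pos (N := N) (n := L) (by omega)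
  have b3 := Bn_pos (N := N) (n := 2 * L - L) (by omega)
  rw [← Real.le_log_iff_exp_le (by positivity), log_D1_top (by omega) h2L,
    show 2 * L - L = L by omega]
  have u1 := log_Bn_up (N := N) (n := L) (by omega) (by omega)
  have u2 := log_Bn_up (N := N) (n := N - 1 - 2 * L) (by omega) (by omega)
  rw [show N - 1 - 2 * L + 1 = N - 2 * L by omega] at u2
  have hlog : 0 ≤ Real.log N := Real.log_nonneg (by exact_mod_cast (by omega : 1 ≤ N))
  have e : N / Real.pi * l1 N = -(2 * (N / Real.pi * (lob (Real.pi * ((L + 1 : ℕ) : ℝ) / N) -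
      lob (Real.pi / N)))) - N / Real.pi * (lob (Real.pi * ((N - 2 * L : ℕ) : ℝ) / N) -
      lob (Real.pi / N)) := by
    unfold l1
    rw [← hL]; ring
  rw [e]
  linarith

theorem lob_sixth_le : lob (Real.pi / 6) ≤ Real.pi / 6 * Real.log (Real.pi / 3) - Real.pi / 6 := by
  have hpi := Real.pi_pos
  have h1 : ∫ u in (0 : ℝ)..(Real.pi / 6), Real.log (2 * u) =
      Real.pi / 6 * Real.log (Real.pi / 3) - Real.pi / 6 := by
    rw [intervalIntegral.integral_comp_mul_left (fun u => Real.log u) two_ne_zero, integral_log,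
      mul_zero, smul_eq_mul, show 2 * (Real.pi / 6) = Real.pi / 3 by ring]
    ring
  rw [← h1]
  unfold lob
  apply intervalIntegral.integral_mono_on_of_le_Ioo (by positivity) (ls_int _ _)
  · have h : IntervalIntegrable (fun u => Real.log (2 * u)) volume (0 / 2) (Real.pi / 3 / 2) :=
      (intervalIntegral.intervalIntegrable_log' (a := 0) (b := Real.pi / 3)).comp_mul_left
    rw [zero_div, show Real.pi / 3 / 2 = Real.pi / 6 by ring] at h
    exact h
  · intro u hu
    unfold ls
    have hs : 0 < Real.sin u := Real.sin_pos_of_pos_of_lt_pi hu.1 (by linarith [hu.2])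
    apply Real.log_le_log (by linarith)
    have := Real.sin_lt hu.1
    linarith

theorem k1c_lt : k1c < 2 * cv := by
  have hpi := Real.pi_pos
  have h1 : (1 - Real.log (Real.pi / 3)) / 3 ≤ 2 * cv := by
    rw [cv_eq]
    have := lob_sixth_le
    rw [div_le_iff₀ (by norm_num), show 2 * (-lob (Real.pi / 6) / Real.pi) * 3 =
      (-lob (Real.pi / 6) * 6) / Real.pi by ring, le_div_iff₀ hpi]
    linarith
  refine lt_of_lt_of_le ?_ h1
  unfold k1c
  rw [Real.log_div (by norm_num) hpi.ne', Real.log_div hpi.ne' (by norm_num)]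
  have h2 : Real.log Real.pi < 1 + 4 * Real.log 3 - 3 * Real.log 4 := by
    have e : 1 + 4 * Real.log 3 - 3 * Real.log 4 = Real.log (Real.exp 1 * (3 ^ 4 / 4 ^ 3)) := by
      rw [Real.log_mul (Real.exp_pos 1).ne' (by norm_num), Real.log_exp,
        Real.log_div (by norm_num) (by norm_num), Real.log_pow, Real.log_pow]
      push_cast; ring
    rw [e]
    apply Real.log_lt_log hpi
    have h3 := Real.exp_one_gt_d9
    have h4 := Real.pi_lt_d2
    norm_num
    linarith
  linarith

/-- the volume conjecture for the first family -/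
theorem main1 {n : ℕ} (hn : 1 ≤ n) :
    Tendsto (fun N : ℕ => 2 * Real.pi / N * Real.log ‖kashaev N (axisDiagram 1 n)‖) atTop
      (𝓝 (4 * n * v3)) := by
  have hpi := Real.pi_pos
  have h := growth (a := 1) (n := n) le_rfl hn (D := fun N t => Dx1 t N) (fun N => FamR1 N)
    (G := 2 * cv) (G1 := k1c) k1c_lt (kU := fun N => Real.log N + (2 * cv * N + 1))
    (k1 := fun N => k1c * N) (kL := fun N => N / Real.pi * l1 N) ?_ ?_ ?_ ?_ ?_ ?_
  · have e : 4 * Real.pi * n * (2 * cv) = 4 * n * v3 := by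
      unfold cv
      field_simp
    rwa [e] at h
  · have h1 := (log_div_tendsto.add one_div_tendsto).add_const (2 * cv)
    rw [zero_add, zero_add] at h1
    refine h1.congr' ?_
    filter_upwards [eventually_ge_atTop 1] with N hN
    have hN' : (0 : ℝ) < N := by exact_mod_cast hN
    field_simp
    ring
  · refine tendsto_const_nhds.congr' ?_
    filter_upwards [eventually_ge_atTop 1] with N hN
    have hN' : (0 : ℝ) < N := by exact_mod_cast hN
    field_simp
  · have h1 := l1_tendsto.const_mul (1 / Real.pi)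
    have e : 1 / Real.pi * v3 = 2 * cv := by
      unfold cv; field_simp
    rw [e] at h1
    refine h1.congr' ?_
    filter_upwards [eventually_ge_atTop 1] with N hN
    have hN' : (0 : ℝ) < N := by exact_mod_cast hN
    field_simp
  · filter_upwards with N c hc n m h1 h2 h3
    exact en1_blk1 hc h1 h2 h3
  · filter_upwards with N c hc n m h1 h2 h3
    refine (en_le_top _ hc h1 h2 h3).trans ?_
    show ‖Dx1 (rt N) N n m‖ * _ ≤ _
    rw [norm_D1_top h2 (by omega)]
    exact D1_top_le h2 (by omega)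
  · filter_upwards [eventually_ge_atTop 12] with N hN
    exact ⟨N / 3, 2 * (N / 3), by omega, by omega, en1_low hN⟩

end Pool.Agent.Lib_helper77.VC
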