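import Pool.Agent.Lib_helper77.VC3.Dd
import Pool.Agent.Lib_helper77.VC2.Hol

set_option autoImplicit false

open Polynomial

namespace Pool.Agent.Lib_helper77.VC

/-! ### the q-binomial theorem for operators -/

/-- Gaussian binomial coefficients -/
def Gq (q : ℂ) : ℕ → ℕ → ℂ
  | _, 0 => 1
  | 0, _ + 1 => 0
  | n + 1, m + 1 => Gq q n m + q ^ (m + 1) * Gq q n (m + 1)

theorem Gq_zero_right (q : ℂ) (n : ℕ) : Gq q n 0 = 1 := by
  cases n <;> rfl

theorem Gq_gt (q : ℂ) : ∀ n m : ℕ, n < m → Gq q n m = 0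
  | n, 0, h => absurd h (Nat.not_lt_zero n)
  | 0, _ + 1, _ => rfl
  | n + 1, m + 1, h => by
    show Gq q n m + q ^ (m + 1) * Gq q n (m + 1) = 0
    rw [Gq_gt q n m (by omega), Gq_gt q n (m + 1) (by omega), mul_zero, add_zero]

theorem Gq_prod {q : ℂ} (hq : q ≠ 0) : ∀ n m : ℕ,
    Gq q n m * ∏ r ∈ Finset.range m, (q ^ (r + 1) - 1) =
      ∏ r ∈ Finset.range m, (q ^ ((n : ℤ) - r) - 1) := by
  intro n
  induction n with
  | zero =>
    intro m
    cases m with
    | zero => simp [Gq_zero_right]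
    | succ m =>
      rw [Gq_gt q 0 (m + 1) (by omega), zero_mul, Finset.prod_range_succ']
      simp
  | succ n ih =>
    intro m
    cases m with
    | zero => simp [Gq_zero_right]
    | succ m =>
      have h1 := ih m
      have h2 := ih (m + 1)
      show (Gq q n m + q ^ (m + 1) * Gq q n (m + 1)) * _ = _
      rw [add_mul, Finset.prod_range_succ, ← mul_assoc, h1, ← Finset.prod_range_succ, mul_assoc, h2,
        Finset.prod_range_succ (fun r => q ^ ((n : ℤ) - r) - 1) m,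
        Finset.prod_range_succ' (fun r => q ^ (((n + 1 : ℕ) : ℤ) - r) - 1) m]
      have e : ∏ k ∈ Finset.range m, (q ^ (((n + 1 : ℕ) : ℤ) - ((k + 1 : ℕ) : ℤ)) - 1) =
          ∏ r ∈ Finset.range m, (q ^ ((n : ℤ) - r) - 1) := by
        refine Finset.prod_congr rfl fun r _ => ?_
        congr 2; push_cast; ring
      rw [e]
      have e2 : q ^ (((n + 1 : ℕ) : ℤ) - ((0 : ℕ) : ℤ)) = q ^ (m + 1) * q ^ ((n : ℤ) - m) := by
        rw [← zpow_natCast, ← zpow_add₀ hq]; congr 1; push_cast; ring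
      rw [e2]
      ring

theorem qcomm_pow {R : Type*} [Ring R] [Algebra ℂ R] {q : ℂ} {A B : R} (h : B * A = q • (A * B))
    (m : ℕ) : B * A ^ m = q ^ m • (A ^ m * B) := by
  induction m with
  | zero => simp
  | succ m ih =>
    rw [pow_succ, ← mul_assoc, ih, smul_mul_assoc, mul_assoc, h, mul_smul_comm, smul_smul, pow_succ,
      mul_assoc]

theorem qbinom_op {R : Type*} [Ring R] [Algebra ℂ R] {q : ℂ} {A B : R} (h : B * A = q • (A * B))
    (n : ℕ) : (A + B) ^ n = ∑ m ∈ Finset.range (n + 1), Gq q n m • (A ^ m * B ^ (n - m)) := by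
  induction n with
  | zero => simp [Gq_zero_right]
  | succ n ih =>
    rw [pow_succ', ih, add_mul, Finset.mul_sum, Finset.mul_sum,
      Finset.sum_range_succ' (fun m => Gq q (n + 1) m • (A ^ m * B ^ (n + 1 - m))) (n + 1)]
    have e1 : ∀ m ∈ Finset.range (n + 1), Gq q (n + 1) (m + 1) • (A ^ (m + 1) * B ^ (n + 1 - (m + 1))) =
        A * (Gq q n m • (A ^ m * B ^ (n - m))) +
        (q ^ (m + 1) * Gq q n (m + 1)) • (A ^ (m + 1) * B ^ (n - m)) := by
      intro m _
      show (Gq q n m + q ^ (m + 1) * Gq q n (m + 1)) • _ = _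
      rw [add_smul, Nat.add_sub_add_right, mul_smul_comm, ← mul_assoc, ← pow_succ']
    rw [Finset.sum_congr rfl e1, Finset.sum_add_distrib, add_assoc]
    congr 1
    have e2 : ∀ m ∈ Finset.range (n + 1), B * (Gq q n m • (A ^ m * B ^ (n - m))) =
        (q ^ m * Gq q n m) • (A ^ m * B ^ (n + 1 - m)) := by
      intro m hm
      rw [Finset.mem_range] at hm
      rw [mul_smul_comm, ← mul_assoc, qcomm_pow h, smul_mul_assoc, smul_smul, mul_assoc, ← pow_succ',
        mul_comm, show n + 1 - m = n - m + 1 by omega]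
    rw [Finset.sum_congr rfl e2, Finset.sum_range_succ' (fun m => (q ^ m * Gq q n m) •
      (A ^ m * B ^ (n + 1 - m))) n, Finset.sum_range_succ (fun m => (q ^ (m + 1) * Gq q n (m + 1)) •
      (A ^ (m + 1) * B ^ (n - m))) n, Gq_gt q n (n + 1) (by omega), mul_zero, zero_smul, add_zero]
    congr 1
    · refine Finset.sum_congr rfl fun m hm => ?_
      rw [Nat.add_sub_add_right]
    · rw [Gq_zero_right, Gq_zero_right, pow_zero, one_mul]

theorem qpow_add {R : Type*} [Ring R] [Algebra ℂ R] {q : ℂ} (hq : q ≠ 0) {A B : R}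
    (h : B * A = q • (A * B)) {N : ℕ} (hN : 1 ≤ N) (h1 : q ^ N = 1)
    (h2 : ∀ r, 1 ≤ r → r < N → q ^ r ≠ 1) : (A + B) ^ N = A ^ N + B ^ N := by
  have hz : ∀ m, 1 ≤ m → m < N → Gq q N m = 0 := by
    intro m hm1 hm2
    have h3 := Gq_prod hq N m
    have h4 : ∏ r ∈ Finset.range m, (q ^ ((N : ℤ) - r) - 1) = 0 := by
      rw [Finset.prod_eq_zero_iff]
      refine ⟨0, Finset.mem_range.mpr (by omega), ?_⟩
      rw [Nat.cast_zero, sub_zero, zpow_natCast, h1, sub_self]
    rw [h4] at h3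
    have h5 : ∏ r ∈ Finset.range m, (q ^ (r + 1) - 1) ≠ 0 := by
      rw [Finset.prod_ne_zero_iff]
      intro r hr
      rw [Finset.mem_range] at hr
      exact sub_ne_zero.mpr (h2 (r + 1) (by omega) (by omega))
    exact (mul_eq_zero.mp h3).resolve_right h5
  have hNN : Gq q N N = 1 := by
    have h3 := Gq_prod hq N N
    have h4 : ∏ r ∈ Finset.range N, (q ^ ((N : ℤ) - r) - 1) =
        ∏ r ∈ Finset.range N, (q ^ (r + 1) - 1) := by
      rw [← Finset.prod_range_reflect]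
      refine Finset.prod_congr rfl fun r hr => ?_
      rw [Finset.mem_range] at hr
      rw [← zpow_natCast]
      congr 2
      omega
    rw [h4] at h3
    obtain ⟨M, rfl⟩ : ∃ M, N = M + 1 := ⟨N - 1, by omega⟩
    -- use the recursion instead
    clear h3 h4
    have : ∀ n : ℕ, Gq q n n = 1 := by
      intro n
      induction n with
      | zero => rfl
      | succ n ih =>
        show Gq q n n + q ^ (n + 1) * Gq q n (n + 1) = 1
        rw [ih, Gq_gt q n (n + 1) (by omega), mul_zero, add_zero]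
    exact this _
  rw [qbinom_op h, Finset.sum_range_succ, hNN, Nat.sub_self, pow_zero, mul_one, one_smul, add_comm]
  congr 1
  rw [Finset.sum_eq_single 0]
  · rw [Gq_zero_right, one_smul, pow_zero, one_mul, Nat.sub_zero]
  · intro m hm hm0
    rw [Finset.mem_range] at hm
    rw [hz m (by omega) hm, zero_smul]
  · intro h3; exact absurd (Finset.mem_range.mpr (by omega)) h3

/-! ### nilpotency of `E` at the root of unity -/

/-- first half of `E` on two strands -/
noncomputable def EA (t : ℂ) (N : ℤ) : Module.End ℂ V where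
  toFun x i j := br t (i + 1) * t ^ (2 * j - N + 1) * x (i + 1) j
  map_add' x y := by funext i j; simp only [Pi.add_apply]; ring
  map_smul' c x := by
    funext i j; simp only [Pi.smul_apply, smul_eq_mul, RingHom.id_apply]; ring

noncomputable def EB (t : ℂ) (N : ℤ) : Module.End ℂ V where
  toFun x i j := t ^ (N - 1 - 2 * i) * br t (j + 1) * x i (j + 1)
  map_add' x y := by funext i j; simp only [Pi.add_apply]; ring
  map_smul' c x := by
    funext i j; simp only [Pi.smul_apply, smul_eq_mul, RingHom.id_apply]; ring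

theorem Eo_split (t : ℂ) (N : ℤ) : Eo t N = EA t N + EB t N := by
  apply LinearMap.ext; intro x; rfl

theorem EBA {t : ℂ} (ht : t ≠ 0) (N : ℤ) : EB t N * EA t N = (t ^ 4 : ℂ) • (EA t N * EB t N) := by
  apply LinearMap.ext; intro x; funext i j
  show t ^ (N - 1 - 2 * i) * br t (j + 1) * (br t (i + 1) * t ^ (2 * (j + 1) - N + 1) *
    x (i + 1) (j + 1)) = t ^ 4 * (br t (i + 1) * t ^ (2 * j - N + 1) *
    (t ^ (N - 1 - 2 * (i + 1)) * br t (j + 1) * x (i + 1) (j + 1)))
  have e : t ^ (N - 1 - 2 * i) * t ^ (2 * (j + 1) - N + 1) = t ^ (4 : ℕ) * (t ^ (2 * j - N + 1) *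
      t ^ (N - 1 - 2 * (i + 1))) := by
    rw [← zpow_natCast, ← zpow_add₀ ht, ← zpow_add₀ ht, ← zpow_add₀ ht]; congr 1; push_cast; ring
  linear_combination (br t (j + 1) * br t (i + 1) * x (i + 1) (j + 1)) * e

theorem EA_pow (t : ℂ) (N : ℤ) (m : ℕ) (x : V) (i j : ℤ) : ((EA t N) ^ m) x i j =
    (∏ r ∈ Finset.range m, br t (i + 1 + r)) * (t ^ (2 * j - N + 1)) ^ m * x (i + m) j := by
  induction m generalizing i with
  | zero => simp
  | succ m ih =>
    rw [pow_succ', Module.End.mul_apply]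
    show br t (i + 1) * t ^ (2 * j - N + 1) * ((EA t N) ^ m) x (i + 1) j = _
    rw [ih (i + 1), Finset.prod_range_succ', pow_succ]
    have e : ∏ r ∈ Finset.range m, br t (i + 1 + 1 + r) =
        ∏ k ∈ Finset.range m, br t (i + 1 + ((k + 1 : ℕ) : ℤ)) := by
      refine Finset.prod_congr rfl fun r _ => ?_
      congr 1; push_cast; ring
    rw [e, Nat.cast_zero, add_zero, show i + 1 + (m : ℤ) = i + ((m + 1 : ℕ) : ℤ) by push_cast; ring]
    ring

theorem EB_pow (t : ℂ) (N : ℤ) (m : ℕ) (x : V) (i j : ℤ) : ((EB t N) ^ m) x i j =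
    (∏ r ∈ Finset.range m, br t (j + 1 + r)) * (t ^ (N - 1 - 2 * i)) ^ m * x i (j + m) := by
  induction m generalizing j with
  | zero => simp
  | succ m ih =>
    rw [pow_succ', Module.End.mul_apply]
    show t ^ (N - 1 - 2 * i) * br t (j + 1) * ((EB t N) ^ m) x i (j + 1) = _
    rw [ih (j + 1), Finset.prod_range_succ', pow_succ]
    have e : ∏ r ∈ Finset.range m, br t (j + 1 + 1 + r) =
        ∏ k ∈ Finset.range m, br t (j + 1 + ((k + 1 : ℕ) : ℤ)) := by
      refine Finset.prod_congr rfl fun r _ => ?_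
      congr 1; push_cast; ring
    rw [e, Nat.cast_zero, add_zero, show j + 1 + (m : ℤ) = j + ((m + 1 : ℕ) : ℤ) by push_cast; ring]
    ring

theorem br_rt_mul {N : ℕ} (hN : 1 ≤ N) (k : ℤ) : br (rt N) (N * k) = 0 := by
  unfold br
  have h1 := rt_pow_N hN
  rw [show 2 * ((N : ℤ) * k) = (2 * (N : ℤ)) * k by ring, zpow_neg, zpow_mul, h1]
  rcases Int.even_or_odd k with hk | hk
  · rw [hk.neg_one_zpow]; simp
  · rw [hk.neg_one_zpow]; norm_num

theorem br_full {N : ℕ} (hN : 1 ≤ N) (i : ℤ) :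
    ∏ r ∈ Finset.range N, br (rt N) (i + 1 + r) = 0 := by
  rw [Finset.prod_eq_zero_iff]
  have h1 : 0 ≤ (-(i + 1)) % (N : ℤ) := Int.emod_nonneg _ (by omega)
  have h2 : (-(i + 1)) % (N : ℤ) < N := Int.emod_lt_of_pos _ (by omega)
  refine ⟨((-(i + 1)) % (N : ℤ)).toNat, Finset.mem_range.mpr (by omega), ?_⟩
  have h3 := Int.emod_add_mul_ediv (-(i + 1)) (N : ℤ)
  rw [Int.toNat_of_nonneg h1, show i + 1 + (-(i + 1)) % (N : ℤ) = N * (-(-(i + 1) / (N : ℤ))) by
    linear_combination h3]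
  exact br_rt_mul hN _

theorem rt_prim3 {N : ℕ} (hN : 1 ≤ N) : (rt N ^ 4) ^ N = 1 ∧ ∀ r, 1 ≤ r → r < N → (rt N ^ 4) ^ r ≠ 1 := by
  have hN' : (N : ℂ) ≠ 0 := by exact_mod_cast (by omega : N ≠ 0)
  have e : rt N ^ 4 = Complex.exp (2 * Real.pi * Complex.I / N) := by
    unfold rt
    rw [← Complex.exp_nat_mul]
    congr 1
    push_cast
    field_simp
    ring
  have hp := Complex.isPrimitiveRoot_exp N (by omega)
  rw [e]
  refine ⟨hp.pow_eq_one, fun r h1 h2 h3 => ?_⟩
  have := hp.dvd_of_pow_eq_one r h3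
  exact absurd (Nat.le_of_dvd (by omega) this) (by omega)

theorem Eo_nil {N : ℕ} (hN : 1 ≤ N) : (Eo (rt N) N) ^ N = 0 := by
  obtain ⟨h1, h2⟩ := rt_prim3 hN
  rw [Eo_split, qpow_add (pow_ne_zero 4 (rt_ne N)) (EBA (rt_ne N) N) hN h1 h2]
  have e1 : (EA (rt N) N) ^ N = 0 := by
    apply LinearMap.ext; intro x; funext i j
    rw [EA_pow, br_full hN, zero_mul, zero_mul]; rfl
  have e2 : (EB (rt N) N) ^ N = 0 := by
    apply LinearMap.ext; intro x; funext i j
    rw [EB_pow, br_full hN, zero_mul, zero_mul]; rfl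
  rw [e1, e2, add_zero]

noncomputable def FA (t : ℂ) (N : ℤ) : Module.End ℂ V3 where
  toFun x i j k := br t (i + 1) * t ^ ((2 * j - N + 1) + (2 * k - N + 1)) * x (i + 1) j k
  map_add' x y := by funext i j k; simp only [Pi.add_apply]; ring
  map_smul' c x := by
    funext i j k; simp only [Pi.smul_apply, smul_eq_mul, RingHom.id_apply]; ring

noncomputable def FB (t : ℂ) (N : ℤ) : Module.End ℂ V3 where
  toFun x i := t ^ (N - 1 - 2 * i) • Eo t N (x i)
  map_add' x y := by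
    funext i
    rw [Pi.add_apply, map_add, smul_add]; rfl
  map_smul' c x := by
    funext i
    rw [Pi.smul_apply, map_smul, smul_comm]; rfl

theorem E3_split (t : ℂ) (N : ℤ) : E3 t N = FA t N + FB t N := by
  apply LinearMap.ext; intro x; rfl

theorem FBA {t : ℂ} (ht : t ≠ 0) (N : ℤ) : FB t N * FA t N = (t ^ 4 : ℂ) • (FA t N * FB t N) := by
  apply LinearMap.ext; intro x; funext i j k
  show t ^ (N - 1 - 2 * i) * Eo t N (FA t N x i) j k = t ^ 4 * (br t (i + 1) *
    t ^ ((2 * j - N + 1) + (2 * k - N + 1)) * (t ^ (N - 1 - 2 * (i + 1)) * Eo t N (x (i + 1)) j k))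
  rw [Eo_apply, Eo_apply]
  show t ^ (N - 1 - 2 * i) * (br t (j + 1) * t ^ (2 * k - N + 1) * (br t (i + 1) *
    t ^ ((2 * (j + 1) - N + 1) + (2 * k - N + 1)) * x (i + 1) (j + 1) k) +
    t ^ (N - 1 - 2 * j) * br t (k + 1) * (br t (i + 1) *
    t ^ ((2 * j - N + 1) + (2 * (k + 1) - N + 1)) * x (i + 1) j (k + 1))) = _
  have e : t ^ (N - 1 - 2 * i) * t ^ ((2 * (j + 1) - N + 1) + (2 * k - N + 1)) =
      t ^ (4 : ℕ) * (t ^ ((2 * j - N + 1) + (2 * k - N + 1)) * t ^ (N - 1 - 2 * (i + 1))) := by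
    rw [← zpow_natCast, ← zpow_add₀ ht, ← zpow_add₀ ht, ← zpow_add₀ ht]; congr 1; push_cast; ring
  rw [show (2 * j - N + 1) + (2 * (k + 1) - N + 1) = (2 * (j + 1) - N + 1) + (2 * k - N + 1) by ring]
  linear_combination (br t (i + 1) * (br t (j + 1) * t ^ (2 * k - N + 1) * x (i + 1) (j + 1) k +
    t ^ (N - 1 - 2 * j) * br t (k + 1) * x (i + 1) j (k + 1))) * e

theorem FA_pow (t : ℂ) (N : ℤ) (m : ℕ) (x : V3) (i j k : ℤ) : ((FA t N) ^ m) x i j k =
    (∏ r ∈ Finset.range m, br t (i + 1 + r)) * (t ^ ((2 * j - N + 1) + (2 * k - N + 1))) ^ m *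
      x (i + m) j k := by
  induction m generalizing i with
  | zero => simp
  | succ m ih =>
    rw [pow_succ', Module.End.mul_apply]
    show br t (i + 1) * t ^ ((2 * j - N + 1) + (2 * k - N + 1)) * ((FA t N) ^ m) x (i + 1) j k = _
    rw [ih (i + 1), Finset.prod_range_succ', pow_succ]
    have e : ∏ r ∈ Finset.range m, br t (i + 1 + 1 + r) =
        ∏ k ∈ Finset.range m, br t (i + 1 + ((k + 1 : ℕ) : ℤ)) := by
      refine Finset.prod_congr rfl fun r _ => ?_
      congr 1; push_cast; ring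
    rw [e, Nat.cast_zero, add_zero, show i + 1 + (m : ℤ) = i + ((m + 1 : ℕ) : ℤ) by push_cast; ring]
    ring

theorem FB_pow (t : ℂ) (N : ℤ) (m : ℕ) (x : V3) (i : ℤ) : ((FB t N) ^ m) x i =
    (t ^ (N - 1 - 2 * i)) ^ m • ((Eo t N) ^ m) (x i) := by
  induction m with
  | zero => simp
  | succ m ih =>
    rw [pow_succ', Module.End.mul_apply]
    show t ^ (N - 1 - 2 * i) • Eo t N (((FB t N) ^ m) x i) = _
    rw [ih, map_smul, smul_smul, pow_succ' (Eo t N), Module.End.mul_apply, pow_succ']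

theorem E3_nil {N : ℕ} (hN : 1 ≤ N) : (E3 (rt N) N) ^ N = 0 := by
  obtain ⟨h1, h2⟩ := rt_prim3 hN
  rw [E3_split, qpow_add (pow_ne_zero 4 (rt_ne N)) (FBA (rt_ne N) N) hN h1 h2]
  have e1 : (FA (rt N) N) ^ N = 0 := by
    apply LinearMap.ext; intro x; funext i j k
    rw [FA_pow, br_full hN, zero_mul, zero_mul]; rfl
  have e2 : (FB (rt N) N) ^ N = 0 := by
    apply LinearMap.ext; intro x; funext i
    rw [FB_pow, Eo_nil hN, LinearMap.zero_apply, smul_zero]; rfl
  rw [e1, e2, add_zero]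

end Pool.Agent.Lib_helper77.VC
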