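import Pool.Agent.Lib_helper77.VC3.Rt3

set_option autoImplicit false

open Polynomial

namespace Pool.Agent.Lib_helper77.VC

theorem br_rt_val (N : ℕ) (m : ℤ) :
    br (rt N) m = Complex.I * ((2 * Real.sin (Real.pi * m / N) : ℝ) : ℂ) := by
  rcases Nat.eq_zero_or_pos N with h | hN
  · subst h
    unfold br rt
    simp
  have hN' : (N : ℂ) ≠ 0 := by exact_mod_cast hN.ne'
  unfold br rt
  rw [← Complex.exp_int_mul, ← Complex.exp_int_mul]
  have e1 : ((2 * m : ℤ) : ℂ) * (Real.pi * Complex.I / (2 * N)) =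
      ((Real.pi * m / N : ℝ) : ℂ) * Complex.I := by
    push_cast; field_simp
  have e2 : ((-(2 * m) : ℤ) : ℂ) * (Real.pi * Complex.I / (2 * N)) =
      -((Real.pi * m / N : ℝ) : ℂ) * Complex.I := by
    push_cast; field_simp
  rw [e1, e2, Complex.ofReal_mul, Complex.ofReal_sin, Complex.sin]
  have h2 := Complex.I_mul_I
  push_cast
  linear_combination (Complex.exp (((Real.pi : ℂ) * m / N) * Complex.I) -
    Complex.exp (-((Real.pi : ℂ) * m / N) * Complex.I)) * h2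

theorem BrOK_rt {N : ℕ} : BrOK (rt N) (N - 1) := by
  intro m h1 h2
  rw [br_rt_val]
  have h3 := sb_pos (N := N) (m := m) h1 (by omega)
  refine mul_ne_zero Complex.I_ne_zero ?_
  have : (2 * Real.sin (Real.pi * ((m : ℤ) : ℝ) / N) : ℝ) ≠ 0 := by
    unfold sb at h3
    push_cast
    exact h3.ne'
  exact_mod_cast this

/-! ### surjectivity of `E` -/

/-- the lowest slice of `E^m x` when `x` starts in degree `m` -/
theorem E3_low {t : ℂ} (N : ℤ) (m : ℕ) : ∀ x : V3, (∀ i : ℤ, i < m → x i = 0) → ∀ j k : ℤ,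
    ((E3 t N) ^ m) x 0 j k = (∏ r ∈ Finset.range m, br t (r + 1)) *
      (t ^ ((2 * j - N + 1) + (2 * k - N + 1))) ^ m * x m j k := by
  induction m with
  | zero => intro x _ j k; simp
  | succ m ih =>
    intro x hx j k
    rw [pow_succ, Module.End.mul_apply, ih (E3 t N x), E3_apply, hx m (by push_cast; omega), map_zero,
      Finset.prod_range_succ, pow_succ]
    · have : (0 : V) j k = 0 := rfl
      rw [this]
      push_cast
      ring
    · intro i hi
      funext a b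
      rw [E3_apply, hx i (by push_cast; omega), hx (i + 1) (by push_cast; omega), map_zero]
      simp

theorem E3_surj {N : ℕ} (hN : 1 ≤ N) {c : ℤ} {v : V3} (hv : v ∈ W3 (N : ℤ) (c - 1))
    (hE : ((E3 (rt N) N) ^ (N - 1)) v = 0) : ∃ u ∈ W3 (N : ℤ) c, E3 (rt N) N u = v := by
  have ht := rt_ne N
  have hb : BrOK (rt N) (N - 1) := BrOK_rt
  set t := rt N with htdef
  let u : V3 := fun i => if 0 ≤ i ∧ i < (N : ℤ) then slv t N 0 v i.toNat else 0
  have hu : u ∈ W3 (N : ℤ) c := by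
    rw [mem_W3]
    intro i j k h
    by_cases hi : 0 ≤ i ∧ i < (N : ℤ)
    · have h1 : slv t N 0 v i.toNat j k ≠ 0 := by
        have : u i = slv t N 0 v i.toNat := if_pos hi
        rwa [this] at h
      obtain ⟨a1, a2, a3, a4, a5⟩ := slv_mem (Submodule.zero_mem _) hv i.toNat j k h1
      exact ⟨hi.1, hi.2, a1, a2, a3, a4, by omega⟩
    · have : u i = 0 := if_neg hi
      rw [this] at h
      exact absurd rfl h
  have hu0 : ∀ i : ℤ, i < 0 ∨ (N : ℤ) ≤ i → u i = 0 := fun i hi => if_neg (by omega)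
  have hui : ∀ i : ℕ, i < N → u i = slv t N 0 v i := by
    intro i hi
    show (if 0 ≤ (i : ℤ) ∧ (i : ℤ) < (N : ℤ) then slv t N 0 v (i : ℤ).toNat else 0) = _
    rw [if_pos (by omega), Int.toNat_natCast]
  have hw : ∀ i : ℤ, i ≠ (N : ℤ) - 1 → (E3 t N u - v) i = 0 := by
    intro i hi
    funext j k
    rw [Pi.sub_apply, Pi.sub_apply, Pi.sub_apply, E3_apply]
    by_cases h1 : 0 ≤ i ∧ i < (N : ℤ) - 1
    · obtain ⟨i, rfl⟩ := Int.eq_ofNat_of_zero_le h1.1
      have h2 := hui (i + 1) (by omega)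
      push_cast at h2
      rw [h2, hui i (by omega)]
      have hbr := hb (i + 1) (by omega) (by omega)
      push_cast at hbr
      show br t ((i : ℤ) + 1) * t ^ ((2 * j - (N : ℤ) + 1) + (2 * k - N + 1)) *
        ((br t ((i : ℤ) + 1))⁻¹ * t ^ (-((2 * j - (N : ℤ) + 1) + (2 * k - N + 1))) *
        (v i j k - t ^ ((N : ℤ) - 1 - 2 * (i : ℤ)) * Eo t N (slv t N 0 v i) j k)) + _ - _ = 0
      have hz2 : t ^ ((2 * j - (N : ℤ) + 1) + (2 * k - N + 1)) *
          t ^ (-((2 * j - (N : ℤ) + 1) + (2 * k - N + 1))) = 1 := by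
        rw [← zpow_add₀ ht, add_neg_cancel, zpow_zero]
      have h3 : br t ((i : ℤ) + 1) * (br t ((i : ℤ) + 1))⁻¹ = 1 := mul_inv_cancel₀ hbr
      linear_combination ((br t ((i : ℤ) + 1) * (br t ((i : ℤ) + 1))⁻¹) * (v i j k -
        t ^ ((N : ℤ) - 1 - 2 * (i : ℤ)) * Eo t N (slv t N 0 v i) j k)) * hz2 +
        (v i j k - t ^ ((N : ℤ) - 1 - 2 * (i : ℤ)) * Eo t N (slv t N 0 v i) j k) * h3
    · rw [hu0 i (by omega), map_zero, W3_out hv (by omega : i < 0 ∨ (N : ℤ) ≤ i)]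
      by_cases h2 : i = -1
      · subst h2
        rw [show (-1 : ℤ) + 1 = 0 by norm_num, br_zero]
        simp
      · rw [hu0 (i + 1) (by omega)]
        simp
  have hpow : ((E3 t N) ^ (N - 1)) (E3 t N u - v) = 0 := by
    rw [map_sub, hE, sub_zero, ← Module.End.mul_apply, ← pow_succ, show N - 1 + 1 = N by omega,
      htdef, E3_nil hN, LinearMap.zero_apply]
  have hlast : (E3 t N u - v) ((N : ℤ) - 1) = 0 := by
    funext j k
    have h1 := E3_low (t := t) (N : ℤ) (N - 1) (E3 t N u - v) (fun i hi => hw i (by omega)) j k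
    rw [hpow, show ((N - 1 : ℕ) : ℤ) = (N : ℤ) - 1 by omega] at h1
    have h2 : (∏ r ∈ Finset.range (N - 1), br t ((r : ℤ) + 1)) *
        (t ^ ((2 * j - (N : ℤ) + 1) + (2 * k - N + 1))) ^ (N - 1) ≠ 0 := by
      refine mul_ne_zero ?_ (pow_ne_zero _ (zpow_ne_zero _ ht))
      rw [Finset.prod_ne_zero_iff]
      intro r hr
      rw [Finset.mem_range] at hr
      have := hb (r + 1) (by omega) (by omega)
      push_cast at this
      exact this
    exact (mul_eq_zero.mp h1.symm).resolve_left h2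
  refine ⟨u, hu, ?_⟩
  rw [← sub_eq_zero]
  funext i
  by_cases hi : i = (N : ℤ) - 1
  · rw [hi]; exact hlast
  · exact hw i hi

/-! ### finite dimension and the trace on a weight space -/

/-- states of weight `c` -/
def St (N : ℕ) (c : ℤ) : Finset (ℕ × ℕ × ℕ) :=
  (Finset.range N ×ˢ Finset.range N ×ˢ Finset.range N).filter
    (fun p => (p.1 : ℤ) + p.2.1 + p.2.2 = c)

theorem mem_St {N : ℕ} {c : ℤ} {p : ℕ × ℕ × ℕ} : p ∈ St N c ↔
    p.1 < N ∧ p.2.1 < N ∧ p.2.2 < N ∧ (p.1 : ℤ) + p.2.1 + p.2.2 = c := by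
  unfold St
  simp only [Finset.mem_filter, Finset.mem_product, Finset.mem_range]
  tauto

/-- basis state -/
def dl (p : ℕ × ℕ × ℕ) : V3 := fun i j k => if i = p.1 ∧ j = p.2.1 ∧ k = p.2.2 then 1 else 0

/-- coordinates on a weight space -/
noncomputable def wEq (N : ℕ) (c : ℤ) : W3 (N : ℤ) c ≃ₗ[ℂ] (St N c → ℂ) where
  toFun x p := (x : V3) (p.1.1 : ℤ) (p.1.2.1 : ℤ) (p.1.2.2 : ℤ)
  invFun f := ⟨fun i j k => if h : 0 ≤ i ∧ 0 ≤ j ∧ 0 ≤ k ∧ (i.toNat, j.toNat, k.toNat) ∈ St N c then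
    f ⟨(i.toNat, j.toNat, k.toNat), h.2.2.2⟩ else 0, by
      rw [mem_W3]
      intro i j k h
      split_ifs at h with h1
      · obtain ⟨a, b, d, e⟩ := h1
        obtain ⟨e1, e2, e3, e4⟩ := mem_St.mp e
        dsimp only at e1 e2 e3 e4
        omega
      · exact absurd rfl h⟩
  map_add' x y := rfl
  map_smul' a x := rfl
  left_inv x := by
    apply Subtype.ext
    funext i j k
    dsimp only
    split_ifs with h
    · rw [Int.toNat_of_nonneg h.1, Int.toNat_of_nonneg h.2.1, Int.toNat_of_nonneg h.2.2.1]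
    · by_contra hne
      obtain ⟨a1, a2, a3, a4, a5, a6, a7⟩ := x.2 i j k (Ne.symm hne)
      apply h
      refine ⟨a1, a3, a5, mem_St.mpr ?_⟩
      dsimp only
      omega
  right_inv f := by
    funext p
    obtain ⟨⟨i, j, k⟩, hp⟩ := p
    dsimp only
    have h : 0 ≤ (i : ℤ) ∧ 0 ≤ (j : ℤ) ∧ 0 ≤ (k : ℤ) ∧
        ((i : ℤ).toNat, (j : ℤ).toNat, (k : ℤ).toNat) ∈ St N c := by
      simp only [Int.toNat_natCast]
      exact ⟨by omega, by omega, by omega, hp⟩
    rw [dif_pos h]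
    congr 1

theorem W3_fin (N : ℕ) (c : ℤ) : FiniteDimensional ℂ (W3 (N : ℤ) c) :=
  (wEq N c).symm.finiteDimensional

theorem sub_fin {N : ℕ} {c : ℤ} {P : Submodule ℂ V3} (h : P ≤ W3 (N : ℤ) c) :
    FiniteDimensional ℂ P := by
  have := W3_fin N c
  exact Submodule.finiteDimensional_of_le h

theorem trp_W3 {N : ℕ} {c : ℤ} {T : Module.End ℂ V3} (hT : ∀ x ∈ W3 (N : ℤ) c, T x ∈ W3 (N : ℤ) c) :
    trp T (W3 (N : ℤ) c) = ∑ p ∈ St N c, (T (dl p) (p.1 : ℤ) (p.2.1 : ℤ) (p.2.2 : ℤ) : ℂ) := by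
  rw [trp_eq hT, LinearMap.trace_eq_matrix_trace ℂ (Module.Basis.ofEquivFun (wEq N c)), Matrix.trace,
    ← Finset.sum_coe_sort (St N c) (fun p : ℕ × ℕ × ℕ => (T (dl p) (p.1 : ℤ) (p.2.1 : ℤ) (p.2.2 : ℤ) : ℂ))]
  apply Finset.sum_congr rfl
  intro p _
  rw [Matrix.diag_apply, LinearMap.toMatrix_apply, Module.Basis.coe_ofEquivFun]
  show wEq N c (T.restrict hT ((wEq N c).symm (Pi.single p 1))) p = _
  show T ((wEq N c).symm (Pi.single p 1)).1 p.1.1 p.1.2.1 p.1.2.2 = _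
  suffices key : ((wEq N c).symm (Pi.single p 1)).1 = dl p.1 by rw [key]
  funext i j k
  obtain ⟨⟨a, b, d⟩, hp⟩ := p
  show (if h : 0 ≤ i ∧ 0 ≤ j ∧ 0 ≤ k ∧ (i.toNat, j.toNat, k.toNat) ∈ St N c then
    (Pi.single (⟨(a, b, d), hp⟩ : St N c) (1 : ℂ) : St N c → ℂ)
      ⟨(i.toNat, j.toNat, k.toNat), h.2.2.2⟩ else 0) = if i = a ∧ j = b ∧ k = d then 1 else 0
  by_cases h1 : i = a ∧ j = b ∧ k = d
  · rw [if_pos h1]
    obtain ⟨rfl, rfl, rfl⟩ := h1
    have h : 0 ≤ (a : ℤ) ∧ 0 ≤ (b : ℤ) ∧ 0 ≤ (d : ℤ) ∧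
        ((a : ℤ).toNat, (b : ℤ).toNat, (d : ℤ).toNat) ∈ St N c := by
      simp only [Int.toNat_natCast]
      exact ⟨by omega, by omega, by omega, hp⟩
    rw [dif_pos h]
    have e : (⟨((a : ℤ).toNat, (b : ℤ).toNat, (d : ℤ).toNat), h.2.2.2⟩ : St N c) = ⟨(a, b, d), hp⟩ := by
      apply Subtype.ext
      simp
    rw [e, Pi.single_eq_same]
  · rw [if_neg h1]
    split_ifs with h
    · rw [Pi.single_eq_of_ne]
      intro h2
      have h3 := congrArg Subtype.val h2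
      simp only [Prod.mk.injEq] at h3
      apply h1
      omega
    · rfl

end Pool.Agent.Lib_helper77.VC
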