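import Pool.Agent.Lib_helper77.VC3.Rt4

set_option autoImplicit false

open Polynomial

namespace Pool.Agent.Lib_helper77.VC

/-- operators commuting with `E` -/
structure Tw (t : ℂ) (N : ℤ) (T : Module.End ℂ V3) : Prop where
  mem : ∀ c : ℤ, ∀ x ∈ W3 N c, T x ∈ W3 N c
  comm : ∀ c : ℤ, ∀ x ∈ W3 N c, E3 t N (T x) = T (E3 t N x)

/-- trace on the kernel of `E` in weight `c` -/
noncomputable def tauc (t : ℂ) (N : ℤ) (T : Module.End ℂ V3) (c : ℤ) : ℂ :=
  trp T (W3 N c ⊓ LinearMap.ker (E3 t N))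

theorem W3_neg {N c : ℤ} (hc : c < 0) : W3 N c = ⊥ := by
  rw [Submodule.eq_bot_iff]
  intro x hx
  funext i j k
  by_contra h
  obtain ⟨a1, a2, a3, a4, a5, a6, a7⟩ := hx i j k h
  omega

theorem W3_big {N c : ℤ} (hc : 3 * N - 3 < c) : W3 N c = ⊥ := by
  rw [Submodule.eq_bot_iff]
  intro x hx
  funext i j k
  by_contra h
  obtain ⟨a1, a2, a3, a4, a5, a6, a7⟩ := hx i j k h
  omega

theorem tauc_neg {t : ℂ} {N : ℤ} (T : Module.End ℂ V3) {c : ℤ} (hc : c < 0) : tauc t N T c = 0 :=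
  trp_bot (by rw [W3_neg hc, bot_inf_eq]) T

theorem tauc_big {t : ℂ} {N : ℤ} (T : Module.End ℂ V3) {c : ℤ} (hc : 3 * N - 3 < c) :
    tauc t N T c = 0 :=
  trp_bot (by rw [W3_big hc, bot_inf_eq]) T

theorem Tw.pow {t : ℂ} {N : ℤ} {T : Module.End ℂ V3} (h : Tw t N T) (i : ℕ) : ∀ {c : ℤ} {x : V3},
    x ∈ W3 N c → ((E3 t N) ^ i) x ∈ W3 N (c - i) ∧ ((E3 t N) ^ i) (T x) = T (((E3 t N) ^ i) x) := by
  induction i with
  | zero => intro c x hx; simpa using hx
  | succ i ih =>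
    intro c x hx
    obtain ⟨h1, h2⟩ := ih hx
    constructor
    · rw [pow_succ', Module.End.mul_apply, show c - ((i + 1 : ℕ) : ℤ) = c - i - 1 by push_cast; ring]
      exact E3_mem h1
    · rw [pow_succ', Module.End.mul_apply, Module.End.mul_apply, h2, h.comm _ _ h1]

/-- the Jordan filtration at the root of unity -/
theorem filt_sum {N : ℕ} (hN : 1 ≤ N) {T : Module.End ℂ V3} (hT : Tw (rt N) N T) (i : ℕ) :
    ∀ (_ : i ≤ N) (c : ℤ), trp T (W3 (N : ℤ) c ⊓ LinearMap.ker ((E3 (rt N) N) ^ i)) =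
      ∑ j ∈ Finset.range i, tauc (rt N) N T (c - j) := by
  induction i with
  | zero =>
    intro _ c
    rw [Finset.sum_range_zero]
    apply trp_bot
    rw [pow_zero]
    have : LinearMap.ker (1 : Module.End ℂ V3) = ⊥ := LinearMap.ker_id
    rw [this, inf_bot_eq]
  | succ i ih =>
    intro hi c
    have ih' := ih (by omega) (c - 1)
    have h1 := trp_surj (P := W3 (N : ℤ) c ⊓ LinearMap.ker ((E3 (rt N) N) ^ (i + 1)))
      (Q := W3 (N : ℤ) (c - 1) ⊓ LinearMap.ker ((E3 (rt N) N) ^ i)) (T := T) (E := E3 (rt N) N)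
      (sub_fin inf_le_left) (sub_fin inf_le_left) ?_ ?_ ?_ ?_ ?_
    · rw [h1, ih', Finset.sum_range_succ', add_comm, Nat.cast_zero, sub_zero]
      congr 1
      · refine Finset.sum_congr rfl fun j _ => ?_
        congr 1; push_cast; ring
      · unfold tauc
        congr 1
        rw [inf_assoc]
        congr 1
        apply inf_eq_right.mpr
        intro x hx
        have : E3 (rt N) N x = 0 := hx
        show ((E3 (rt N) N) ^ (i + 1)) x = 0
        rw [pow_succ, Module.End.mul_apply, this, map_zero]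
    · rintro x ⟨hx1, hx2⟩
      refine ⟨hT.mem c x hx1, ?_⟩
      have h2 : ((E3 (rt N) N) ^ (i + 1)) x = 0 := hx2
      show ((E3 (rt N) N) ^ (i + 1)) (T x) = 0
      rw [(hT.pow (i + 1) hx1).2, h2, map_zero]
    · rintro x ⟨hx1, hx2⟩
      refine ⟨hT.mem _ x hx1, ?_⟩
      have h2 : ((E3 (rt N) N) ^ i) x = 0 := hx2
      show ((E3 (rt N) N) ^ i) (T x) = 0
      rw [(hT.pow i hx1).2, h2, map_zero]
    · rintro x ⟨hx1, hx2⟩
      refine ⟨E3_mem hx1, ?_⟩
      have h2 : ((E3 (rt N) N) ^ (i + 1)) x = 0 := hx2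
      show ((E3 (rt N) N) ^ i) (E3 (rt N) N x) = 0
      rwa [← Module.End.mul_apply, ← pow_succ]
    · rintro y ⟨hy1, hy2⟩
      have h2 : ((E3 (rt N) N) ^ i) y = 0 := hy2
      obtain ⟨u, hu, hue⟩ := E3_surj hN hy1 (by
        obtain ⟨k, hk⟩ := Nat.exists_eq_add_of_le (by omega : i ≤ N - 1)
        rw [hk, add_comm, pow_add, Module.End.mul_apply, h2, map_zero])
      refine ⟨u, ⟨hu, ?_⟩, hue⟩
      show ((E3 (rt N) N) ^ (i + 1)) u = 0
      rw [pow_succ, Module.End.mul_apply, hue, h2]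
    · rintro x ⟨hx1, _⟩
      exact hT.comm c x hx1

theorem z_sum {N : ℕ} (hN : 1 ≤ N) {T : Module.End ℂ V3} (hT : Tw (rt N) N T) (c : ℤ) :
    trp T (W3 (N : ℤ) c) = ∑ j ∈ Finset.range N, tauc (rt N) N T (c - j) := by
  rw [← filt_sum hN hT N le_rfl c, E3_nil hN]
  congr 1
  rw [LinearMap.ker_zero, inf_top_eq]

theorem total_trace {N : ℕ} (hN : 1 ≤ N) {T : Module.End ℂ V3} (hT : Tw (rt N) N T) :
    ∑ p ∈ Finset.range N ×ˢ Finset.range N ×ˢ Finset.range N,
      (T (dl p) (p.1 : ℤ) (p.2.1 : ℤ) (p.2.2 : ℤ) : ℂ) =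
    N * (trp T (W3 (N : ℤ) ((N : ℤ) - 1)) + trp T (W3 (N : ℤ) (2 * (N : ℤ) - 1))) := by
  have e0 : ∑ p ∈ Finset.range N ×ˢ Finset.range N ×ˢ Finset.range N,
      (T (dl p) (p.1 : ℤ) (p.2.1 : ℤ) (p.2.2 : ℤ) : ℂ) =
      ∑ c ∈ Finset.range (4 * N), trp T (W3 (N : ℤ) (c : ℤ)) := by
    rw [← Finset.sum_fiberwise_of_maps_to (t := Finset.range (4 * N))
      (g := fun p : ℕ × ℕ × ℕ => p.1 + p.2.1 + p.2.2) (by
        intro p hp
        simp only [Finset.mem_product, Finset.mem_range] at hp ⊢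
        omega)]
    refine Finset.sum_congr rfl fun c _ => ?_
    rw [trp_W3 (hT.mem c)]
    refine Finset.sum_congr ?_ fun _ _ => rfl
    unfold St
    apply Finset.filter_congr
    intro p _
    omega
  set S := ∑ c ∈ Finset.range (3 * N), tauc (rt N) N T (c : ℤ) with hS
  have e1 : ∀ j < N, ∑ c ∈ Finset.range (4 * N), tauc (rt N) N T ((c : ℤ) - j) = S := by
    intro j hj
    rw [show 4 * N = j + (3 * N + (N - j)) by omega, Finset.sum_range_add, Finset.sum_range_add]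
    have h1 : ∑ c ∈ Finset.range j, tauc (rt N) N T ((c : ℤ) - j) = 0 := by
      apply Finset.sum_eq_zero
      intro c hc
      rw [Finset.mem_range] at hc
      exact tauc_neg T (by omega)
    have h2 : ∑ c ∈ Finset.range (N - j), tauc (rt N) N T (((j + (3 * N + c) : ℕ) : ℤ) - j) = 0 := by
      apply Finset.sum_eq_zero
      intro c hc
      exact tauc_big T (by push_cast; omega)
    rw [h1, h2, zero_add, add_zero, hS]
    refine Finset.sum_congr rfl fun c _ => ?_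
    congr 1; push_cast; ring
  have e2 : ∀ a : ℕ, trp T (W3 (N : ℤ) (((a + 1) * N : ℕ) - 1)) =
      ∑ c ∈ Finset.range N, tauc (rt N) N T ((a * N + c : ℕ) : ℤ) := by
    intro a
    rw [z_sum hN hT, ← Finset.sum_range_reflect]
    refine Finset.sum_congr rfl fun c hc => ?_
    rw [Finset.mem_range] at hc
    congr 1
    push_cast
    have : ((N - 1 - c : ℕ) : ℤ) = (N : ℤ) - 1 - c := by omega
    rw [this]; ring
  have e3 : S = trp T (W3 (N : ℤ) ((N : ℤ) - 1)) + trp T (W3 (N : ℤ) (2 * (N : ℤ) - 1)) := by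
    have h0 := e2 0
    have h1 := e2 1
    have h2 := e2 2
    have h3 : trp T (W3 (N : ℤ) (((2 + 1) * N : ℕ) - 1)) = 0 := by
      apply trp_bot
      apply W3_big
      push_cast; omega
    rw [h3] at h2
    rw [hS, show 3 * N = N + N + N by ring, Finset.sum_range_add, Finset.sum_range_add]
    have g0 : ∑ c ∈ Finset.range N, tauc (rt N) N T (c : ℤ) = trp T (W3 (N : ℤ) ((N : ℤ) - 1)) := by
      have : (((0 + 1) * N : ℕ) : ℤ) - 1 = (N : ℤ) - 1 := by push_cast; ring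
      rw [this] at h0
      rw [h0]
      refine Finset.sum_congr rfl fun c _ => ?_
      congr 1; push_cast; ring
    have g1 : ∑ c ∈ Finset.range N, tauc (rt N) N T ((N + c : ℕ) : ℤ) =
        trp T (W3 (N : ℤ) (2 * (N : ℤ) - 1)) := by
      have : (((1 + 1) * N : ℕ) : ℤ) - 1 = 2 * (N : ℤ) - 1 := by push_cast; ring
      rw [this] at h1
      rw [h1]
      refine Finset.sum_congr rfl fun c _ => ?_
      congr 1; push_cast; ring
    have g2 : ∑ c ∈ Finset.range N, tauc (rt N) N T ((N + N + c : ℕ) : ℤ) = 0 := by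
      rw [h2]
      refine Finset.sum_congr rfl fun c _ => ?_
      congr 1; push_cast; ring
    rw [g0, g1, g2, add_zero]
  rw [e0, ← e3]
  have e4 : ∀ c ∈ Finset.range (4 * N), trp T (W3 (N : ℤ) (c : ℤ)) =
      ∑ j ∈ Finset.range N, tauc (rt N) N T ((c : ℤ) - j) := fun c _ => z_sum hN hT _
  rw [Finset.sum_congr rfl e4, Finset.sum_comm,
    Finset.sum_congr rfl (fun j hj => e1 j (Finset.mem_range.mp hj)), Finset.sum_const,
    Finset.card_range, nsmul_eq_mul]

/-- partial sums of `tau` -/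
theorem z_low {N : ℕ} (hN : 1 ≤ N) {T : Module.End ℂ V3} (hT : Tw (rt N) N T) (c : ℕ) (hc : c < N) :
    trp T (W3 (N : ℤ) c) = ∑ j ∈ Finset.range (c + 1), tauc (rt N) N T (j : ℤ) := by
  rw [z_sum hN hT, show N = (c + 1) + (N - 1 - c) by omega, Finset.sum_range_add]
  have h1 : ∑ x ∈ Finset.range (N - 1 - c), tauc (rt (c + 1 + (N - 1 - c)))
      ((c + 1 + (N - 1 - c) : ℕ) : ℤ) T ((c : ℤ) - ((c + 1 + x : ℕ) : ℤ)) = 0 := by
    apply Finset.sum_eq_zero
    intro x _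
    exact tauc_neg T (by push_cast; omega)
  rw [h1, add_zero, ← Finset.sum_range_reflect]
  refine Finset.sum_congr rfl fun j hj => ?_
  rw [Finset.mem_range] at hj
  congr 1
  have : ((c + 1 - 1 - j : ℕ) : ℤ) = (c : ℤ) - j := by omega
  rw [this]; ring

end Pool.Agent.Lib_helper77.VC
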