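import Pool.Agent.Lib_helper77.VC3.Axis
import Pool.Agent.Lib_helper77.VC3.Blk

set_option autoImplicit false

open Matrix

namespace Pool.Agent.Lib_helper77.VC

/-! ### values at the root of unity -/

theorem norm_br_rt {N m : ℕ} (hm : m ≤ N) : ‖br (rt N) m‖ = sb N m := by
  rw [br_rt_val, norm_mul, Complex.norm_I, one_mul, Complex.norm_real, Real.norm_eq_abs]
  unfold sb
  rw [abs_of_nonneg]
  · push_cast; rfl
  · rcases Nat.eq_zero_or_pos N with h | h
    · subst h; simp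
    have hN : (0 : ℝ) < N := by exact_mod_cast h
    have hmN : (m : ℝ) ≤ N := by exact_mod_cast hm
    have : 0 ≤ Real.sin (Real.pi * ((m : ℤ) : ℝ) / N) := by
      apply Real.sin_nonneg_of_nonneg_of_le_pi
      · push_cast; positivity
      · rw [div_le_iff₀ hN]
        push_cast
        exact mul_le_mul_of_nonneg_left hmN Real.pi_pos.le
    linarith

theorem norm_qfac_rt {N k : ℕ} (hk : k ≤ N) : ‖qfac (rt N) k‖ = Bn N k := by
  unfold qfac Bn
  rw [_root_.norm_prod]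
  refine Finset.prod_congr rfl fun r hr => ?_
  rw [Finset.mem_range] at hr
  have := norm_br_rt (N := N) (m := r + 1) (by omega)
  push_cast at this
  exact this

theorem norm_rt_zpow (N : ℕ) (m : ℤ) : ‖rt N ^ m‖ = 1 := by
  rw [norm_zpow, norm_rt, _root_.one_zpow]

theorem Bn_Ico {N n m : ℕ} (hnm : n ≤ m) (hm : m < N) :
    ∏ r ∈ Finset.Ico n m, sb N (r + 1) = Bn N m / Bn N n := by
  rw [eq_div_iff (Bn_pos (by omega)).ne']
  unfold Bn
  rw [mul_comm, Finset.prod_range_mul_prod_Ico _ hnm]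

theorem norm_Dx1 {N n m : ℕ} (hnm : n ≤ m) (hm : m < N) :
    ‖Dx1 (rt N) N n m‖ = Bn N n / (Bn N m * Bn N (m - n)) := by
  unfold Dx1
  rw [norm_div, norm_mul, norm_mul, norm_pow, norm_neg, norm_one, one_pow, one_mul, norm_rt_zpow,
    _root_.norm_prod, norm_qfac_rt (by omega)]
  have e : ∏ r ∈ Finset.Ico n m, ‖br (rt N) ((N : ℤ) - 1 - r)‖ = Bn N m / Bn N n := by
    rw [← Bn_Ico hnm hm]
    refine Finset.prod_congr rfl fun r hr => ?_
    rw [Finset.mem_Ico] at hr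
    rw [show (N : ℤ) - 1 - r = (N : ℤ) - ((r + 1 : ℕ) : ℤ) by push_cast; ring, br_rt_refl (by omega),
      norm_br_rt (by omega)]
  rw [e]
  have h1 := Bn_pos (N := N) (n := m) hm
  have h2 := Bn_pos (N := N) (n := n) (by omega)
  have h3 := Bn_pos (N := N) (n := m - n) (by omega)
  field_simp

theorem norm_Dx2 {N n m : ℕ} (hm : m < N) :
    ‖Dx2 (rt N) N n m‖ = (Bn N (m - n))⁻¹ := by
  unfold Dx2
  rw [norm_div, norm_rt_zpow, norm_qfac_rt (by omega), one_div]

theorem qfac_conj (t : ℂ) (n : ℕ) : qfac ((starRingEnd ℂ) t) n = (starRingEnd ℂ) (qfac t n) := by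
  unfold qfac
  rw [map_prod]
  exact Finset.prod_congr rfl fun r _ => br_conj t _

theorem Dx1_conj (N n m : ℕ) : Dx1 (rt N)⁻¹ N n m = (starRingEnd ℂ) (Dx1 (rt N) N n m) := by
  rw [rt_inv]
  unfold Dx1
  rw [qfac_conj, map_div₀, map_mul, map_mul, map_prod, map_zpow₀, map_pow, map_neg, map_one]
  congr 2
  exact Finset.prod_congr rfl fun r _ => br_conj _ _

theorem Dx2_conj (N n m : ℕ) : Dx2 (rt N)⁻¹ N n m = (starRingEnd ℂ) (Dx2 (rt N) N n m) := by
  rw [rt_inv]
  unfold Dx2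
  rw [qfac_conj, map_div₀, map_zpow₀]

/-- the coefficients of the upper chain at the root of unity -/
noncomputable def rp (N c n : ℕ) : ℝ := sb N n ^ 2 * (sb N n ^ 2 - sb N (c + 1) ^ 2)

theorem phi_rt {N : ℕ} (hN : 1 ≤ N) (c n : ℕ) : phi (rt N) N c n = (rp N c n : ℂ) := by
  unfold phi rp sb
  have hN' : (N : ℝ) ≠ 0 := by exact_mod_cast (by omega : N ≠ 0)
  rw [br_rt_refl hN, br_rt_val, br_rt_val, br_rt_val]
  have e3 : Real.sin (Real.pi * ((3 * (N : ℤ) - 1 - c - n : ℤ) : ℝ) / N) =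
      Real.sin (Real.pi * (c + 1 : ℝ) / N + Real.pi * n / N) := by
    have : Real.pi * ((3 * (N : ℤ) - 1 - c - n : ℤ) : ℝ) / N =
        Real.pi - (Real.pi * (c + 1 : ℝ) / N + Real.pi * n / N) + 2 * Real.pi := by
      push_cast; field_simp; ring
    rw [this, Real.sin_add_two_pi, Real.sin_pi_sub]
  have e2 : Real.sin (Real.pi * (((c : ℤ) + 1 - n : ℤ) : ℝ) / N) =
      Real.sin (Real.pi * (c + 1 : ℝ) / N - Real.pi * n / N) := by
    congr 1; push_cast; field_simp
  rw [e3, e2]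
  have key : 2 * Real.sin (Real.pi * (c + 1 : ℝ) / N - Real.pi * n / N) *
      (2 * Real.sin (Real.pi * (c + 1 : ℝ) / N + Real.pi * n / N)) =
      (2 * Real.sin (Real.pi * (c + 1 : ℝ) / N)) ^ 2 - (2 * Real.sin (Real.pi * n / N)) ^ 2 := by
    rw [Real.sin_sub, Real.sin_add]
    have h1 := Real.sin_sq_add_cos_sq (Real.pi * (c + 1 : ℝ) / N)
    have h2 := Real.sin_sq_add_cos_sq (Real.pi * n / N)
    linear_combination (-4 * Real.sin (Real.pi * n / N) ^ 2) * h1 +
      (4 * Real.sin (Real.pi * (c + 1 : ℝ) / N) ^ 2) * h2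
  have hI : Complex.I ^ 4 = 1 := Complex.I_pow_four
  have e0 : (((c + 1 : ℕ) : ℝ)) = (c : ℝ) + 1 := by push_cast; ring
  have e1 : (((n : ℕ) : ℤ) : ℝ) = (n : ℝ) := by push_cast; rfl
  rw [e0, e1]
  have key2 : (2 * Real.sin (Real.pi * n / N)) ^ 2 * ((2 * Real.sin (Real.pi * n / N)) ^ 2 -
      (2 * Real.sin (Real.pi * (c + 1 : ℝ) / N)) ^ 2) =
      -((2 * Real.sin (Real.pi * n / N)) ^ 2 *
      (2 * Real.sin (Real.pi * (c + 1 : ℝ) / N - Real.pi * n / N) *
      (2 * Real.sin (Real.pi * (c + 1 : ℝ) / N + Real.pi * n / N)))) := by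
    rw [key]; ring
  rw [key2]
  set s1 := Real.sin (Real.pi * n / N)
  set s2 := Real.sin (Real.pi * (c + 1 : ℝ) / N - Real.pi * n / N)
  set s3 := Real.sin (Real.pi * (c + 1 : ℝ) / N + Real.pi * n / N)
  push_cast
  linear_combination (-(2 * (s1 : ℂ)) ^ 2 * (2 * (s2 : ℂ)) * (2 * (s3 : ℂ))) * hI

theorem sb_lt {N x y : ℕ} (hxy : y < x) (h : x + y < N) : sb N y < sb N x := by
  have hN' : (0 : ℝ) < N := by exact_mod_cast (by omega : 0 < N)
  have h1 : (y : ℝ) < x := by exact_mod_cast hxy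
  have h2 : (x : ℝ) + y < N := by exact_mod_cast h
  have h0' : (0 : ℝ) ≤ y := Nat.cast_nonneg _
  have key := sb_sub N x y
  have hpi := Real.pi_pos
  have c1 : 0 < Real.cos (Real.pi * ((x : ℝ) + y) / (2 * N)) := by
    apply Real.cos_pos_of_mem_Ioo
    constructor
    · have : 0 ≤ Real.pi * ((x : ℝ) + y) / (2 * N) := by positivity
      linarith
    · rw [div_lt_div_iff₀ (by positivity) (by norm_num)]
      nlinarith
  have c2 : 0 < Real.sin (Real.pi * ((x : ℝ) - y) / (2 * N)) := by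
    apply Real.sin_pos_of_pos_of_lt_pi
    · apply div_pos (mul_pos hpi (by linarith)) (by positivity)
    · rw [div_lt_iff₀ (by positivity)]
      nlinarith
  have : 0 < sb N x - sb N y := by rw [key]; positivity
  linarith

theorem sb_top (N : ℕ) (hN : 1 ≤ N) : sb N N = 0 := by
  unfold sb
  have hN' : (N : ℝ) ≠ 0 := by exact_mod_cast (by omega : N ≠ 0)
  rw [mul_div_assoc, div_self hN', mul_one, Real.sin_pi, mul_zero]

theorem rp_top (N n : ℕ) (hN : 1 ≤ N) : rp N (N - 1) n = sb N n ^ 4 := by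
  unfold rp
  rw [show N - 1 + 1 = N by omega, sb_top N hN]; ring

theorem sb_c {N c : ℕ} (hc : c < N) : sb N (c + 1) = sb N (N - 1 - c) := by
  rw [← sb_refl (N := N) (m := c + 1) (by omega) (by omega)]
  congr 1
  omega

theorem rp_zero {N c : ℕ} (hc : c < N) : rp N c (N - 1 - c) = 0 := by
  unfold rp
  rw [sb_c hc, sub_self, mul_zero]

theorem sb_nonneg {N m : ℕ} (hm : m ≤ N) : 0 ≤ sb N m := by
  rcases Nat.eq_zero_or_pos m with h | h
  · subst h; unfold sb; simp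
  · rcases lt_or_eq_of_le hm with h1 | h1
    · exact (sb_pos h h1).le
    · rw [h1, sb_top N (by omega)]

theorem rp_pos {N c n : ℕ} (hc : c < N) (h1 : N - 1 - c < n) (h2 : n ≤ c) : 0 < rp N c n := by
  unfold rp
  have h3 := sb_lt (N := N) h1 (by omega)
  have h4 := sb_nonneg (N := N) (m := N - 1 - c) (by omega)
  have h5 := sb_pos (N := N) (m := n) (by omega) (by omega)
  rw [sb_c hc]
  apply mul_pos (by positivity)
  nlinarith

theorem rp_neg {N c n : ℕ} (hc : c < N) (h0 : 1 ≤ n) (h1 : n < N - 1 - c) (h2 : n ≤ c) :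
    rp N c n < 0 := by
  unfold rp
  have h3 := sb_lt (N := N) h1 (by omega)
  have h5 := sb_pos (N := N) (m := n) (by omega) (by omega)
  rw [sb_c hc]
  apply mul_neg_of_pos_of_neg (by positivity)
  nlinarith

theorem rp_le {N c n : ℕ} (hc : c < N) (h1 : N - 1 - c < n) (h2 : n ≤ c) : |rp N c n| ≤ sb N n ^ 4 := by
  rw [abs_of_pos (rp_pos hc h1 h2)]
  unfold rp
  nlinarith [sq_nonneg (sb N n * sb N (c + 1))]

/-- the two families of braids at the root of unity -/
structure FamR (N a : ℕ) (D : ℂ → ℕ → ℕ → ℂ) : Prop where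
  fam : Fam N a D
  conj : ∀ n m, D (rt N)⁻¹ n m = (starRingEnd ℂ) (D (rt N) n m)

theorem FamR1 (N : ℕ) : FamR N 1 (fun t => Dx1 t N) := ⟨Fam1 N, Dx1_conj N⟩

theorem FamR2 (N : ℕ) : FamR N 2 (fun t => Dx2 t N) := ⟨Fam2 N, Dx2_conj N⟩

/-- the trace in weight `c` -/
noncomputable def Tc (N : ℕ) (D : ℂ → ℕ → ℕ → ℂ) (n c : ℕ) : ℂ :=
  trace ((YM (D (rt N)⁻¹) (phi (rt N) N c) (c + 1) * XM (D (rt N)) (c + 1)) ^ n)

theorem trace_conj_swap {s : ℕ} (A B : Matrix (Fin s) (Fin s) ℂ) (n : ℕ) :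
    trace ((A.map (starRingEnd ℂ) * B.map (starRingEnd ℂ)) ^ n) =
      (starRingEnd ℂ) (trace ((B * A) ^ n)) := by
  have e1 : A.map (starRingEnd ℂ) * B.map (starRingEnd ℂ) = (A * B).map (starRingEnd ℂ) :=
    (Matrix.map_mul).symm
  have e2 : ((A * B).map (starRingEnd ℂ)) ^ n = ((A * B) ^ n).map (starRingEnd ℂ) := by
    have := map_pow ((starRingEnd ℂ).mapMatrix (m := Fin s)) (A * B) n
    exact this.symm
  rw [e1, e2]
  have e3 : trace (((A * B) ^ n).map (starRingEnd ℂ)) = (starRingEnd ℂ) (trace ((A * B) ^ n)) := by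
    unfold trace
    rw [map_sum]
    rfl
  rw [e3]
  congr 1
  cases n with
  | zero => rw [pow_zero, pow_zero]
  | succ n =>
    have e4 : ∀ m : ℕ, (A * B) ^ (m + 1) = A * (B * A) ^ m * B := by
      intro m
      induction m with
      | zero => simp
      | succ m ih =>
        rw [pow_succ, ih, pow_succ]
        simp only [mul_assoc]
    rw [e4, trace_mul_comm, ← mul_assoc, ← pow_succ']

theorem Tc_conj {N : ℕ} (hN : 1 ≤ N) {a : ℕ} {D : ℂ → ℕ → ℕ → ℂ} (hD : FamR N a D) (n c : ℕ) :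
    trace ((XM (D (rt N)⁻¹) (c + 1) * YM (D (rt N)) (phi (rt N) N c) (c + 1)) ^ n) =
      (starRingEnd ℂ) (Tc N D n c) := by
  unfold Tc
  rw [← trace_conj_swap]
  congr 3
  · ext i j
    unfold XM
    rw [Matrix.map_apply, of_apply, of_apply]
    split_ifs with h
    · rw [hD.conj]
    · rw [map_zero]
  · ext i j
    unfold YM
    rw [Matrix.map_apply, of_apply, of_apply]
    split_ifs with h
    · rw [map_mul, hD.conj, Complex.conj_conj, map_prod]
      congr 1
      refine Finset.prod_congr rfl fun r _ => ?_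
      rw [phi_rt hN, Complex.conj_ofReal]
    · rw [map_zero]

/-- the Kashaev invariant as a sum of traces -/
theorem kashaev_eq_Tc {N : ℕ} (hN : 2 ≤ N) {a : ℕ} (ha : 1 ≤ a) {D : ℂ → ℕ → ℕ → ℂ}
    (hD : FamR N a D) (n : ℕ) :
    kashaev N (axisDiagram a n) = N * (∑ c ∈ Finset.range N, Tc N D n c +
      ∑ c ∈ Finset.range (N - 1), (starRingEnd ℂ) (Tc N D n c)) := by
  rw [kashaev_axis (by omega) ha, total_Wa hN hD.fam]
  congr 2
  exact Finset.sum_congr rfl fun c _ => Tc_conj (by omega) hD n c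

/-- splitting into the two blocks -/
theorem Tc_split {N : ℕ} {a : ℕ} {D : ℂ → ℕ → ℕ → ℂ} (hD : FamR N a D)
    {n c : ℕ} (hn : 1 ≤ n) (hc : c < N) : Tc N D n c =
      trace ((bY (D (rt N)) (rp N c) 0 (N - 1 - c) (c + 1) *
        bX (D (rt N)) 0 (N - 1 - c) (c + 1)) ^ n) +
      trace ((bY (D (rt N)) (rp N c) (N - 1 - c) (c + 1) (c + 1) *
        bX (D (rt N)) (N - 1 - c) (c + 1) (c + 1)) ^ n) :=
  blk_split (fun n m _ _ => hD.conj n m) (fun i => phi_rt (by omega) c i) (rp_zero hc) hn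

end Pool.Agent.Lib_helper77.VC
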