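import Pool.Agent.Lib_helper77.VC2.Clos
import Pool.Agent.Lib_helper77.VC3.Tri

set_option autoImplicit false

open Polynomial

namespace Pool.Agent.Lib_helper77.VC

abbrev V3 := ℤ → ℤ → ℤ → ℂ

noncomputable def L01 (Q : Module.End ℂ V) : Module.End ℂ V3 where
  toFun x i j k := Q (fun a b => x a b k) i j
  map_add' x y := by
    funext i j k
    have : (fun a b => (x + y) a b k) = (fun a b => x a b k) + (fun a b => y a b k : V) := rfl
    rw [this, map_add]; rfl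
  map_smul' c x := by
    funext i j k
    have : (fun a b => (c • x) a b k) = c • (fun a b => x a b k : V) := rfl
    rw [this, map_smul]; rfl

noncomputable def L12 (Q : Module.End ℂ V) : Module.End ℂ V3 where
  toFun x i := Q (x i)
  map_add' x y := by
    funext i
    rw [Pi.add_apply, map_add]; rfl
  map_smul' c x := by
    funext i
    rw [Pi.smul_apply, map_smul]; rfl

theorem L01_apply (Q : Module.End ℂ V) (x : V3) (i j k : ℤ) :
    L01 Q x i j k = Q (fun a b => x a b k) i j := rfl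

theorem L12_apply (Q : Module.End ℂ V) (x : V3) (i : ℤ) : L12 Q x i = Q (x i) := rfl

noncomputable def E3 (t : ℂ) (N : ℤ) : Module.End ℂ V3 where
  toFun x i j k := br t (i + 1) * t ^ ((2 * j - N + 1) + (2 * k - N + 1)) * x (i + 1) j k +
    t ^ (N - 1 - 2 * i) * Eo t N (x i) j k
  map_add' x y := by
    funext i j k
    have : Eo t N ((x + y) i) = Eo t N (x i) + Eo t N (y i) := by rw [← map_add]; rfl
    rw [this]
    simp only [Pi.add_apply]; ring
  map_smul' c x := by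
    funext i j k
    have : Eo t N ((c • x) i) = c • Eo t N (x i) := by rw [← map_smul]; rfl
    rw [this]
    simp only [Pi.smul_apply, smul_eq_mul, RingHom.id_apply]; ring

theorem E3_apply (t : ℂ) (N : ℤ) (x : V3) (i j k : ℤ) :
    E3 t N x i j k = br t (i + 1) * t ^ ((2 * j - N + 1) + (2 * k - N + 1)) * x (i + 1) j k +
    t ^ (N - 1 - 2 * i) * Eo t N (x i) j k := rfl

/-- the other form of `E3` -/
theorem E3_alt {t : ℂ} (ht : t ≠ 0) (N : ℤ) (x : V3) (i j k : ℤ) :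
    E3 t N x i j k = t ^ (2 * k - N + 1) * Eo t N (fun a b => x a b k) i j +
      (t⁻¹) ^ ((2 * i - N + 1) + (2 * j - N + 1)) * (br t (k + 1) * x i j (k + 1)) := by
  rw [E3_apply, Eo_apply, Eo_apply, inv_zpow', zpow_add₀ ht (2 * j - N + 1) (2 * k - N + 1), neg_add,
    zpow_add₀ ht (-(2 * i - N + 1)) (-(2 * j - N + 1)),
    show -(2 * i - N + 1) = N - 1 - 2 * i by ring, show -(2 * j - N + 1) = N - 1 - 2 * j by ring]
  ring

/-- weight spaces in three strands -/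
def W3 (N c : ℤ) : Submodule ℂ V3 where
  carrier := {x | ∀ i j k, x i j k ≠ 0 → 0 ≤ i ∧ i < N ∧ 0 ≤ j ∧ j < N ∧ 0 ≤ k ∧ k < N ∧
    i + j + k = c}
  add_mem' := by
    intro x y hx hy i j k h
    by_cases h1 : x i j k = 0
    · refine hy i j k fun h2 => h ?_
      rw [Pi.add_apply, Pi.add_apply, Pi.add_apply, h1, h2, add_zero]
    · exact hx i j k h1
  zero_mem' := by intro i j k h; exact absurd rfl h
  smul_mem' := by
    intro c x hx i j k h
    refine hx i j k fun h2 => h ?_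
    rw [Pi.smul_apply, Pi.smul_apply, Pi.smul_apply, h2, smul_zero]

theorem mem_W3 {N c : ℤ} {x : V3} : x ∈ W3 N c ↔ ∀ i j k, x i j k ≠ 0 → 0 ≤ i ∧ i < N ∧ 0 ≤ j ∧
    j < N ∧ 0 ≤ k ∧ k < N ∧ i + j + k = c := Iff.rfl

theorem W3_sl {N c : ℤ} {x : V3} (hx : x ∈ W3 N c) (i : ℤ) : x i ∈ Wt N (c - i) := by
  rw [mem_Wt]
  intro j k h
  obtain ⟨a1, a2, a3, a4, a5, a6, a7⟩ := hx i j k h
  exact ⟨a3, a4, a5, a6, by omega⟩

theorem W3_sl' {N c : ℤ} {x : V3} (hx : x ∈ W3 N c) (k : ℤ) : (fun a b => x a b k : V) ∈ Wt N (c - k) := by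
  rw [mem_Wt]
  intro i j h
  obtain ⟨a1, a2, a3, a4, a5, a6, a7⟩ := hx i j k h
  exact ⟨a1, a2, a3, a4, by omega⟩

theorem W3_out {N c : ℤ} {x : V3} (hx : x ∈ W3 N c) {i : ℤ} (hi : i < 0 ∨ N ≤ i) : x i = 0 := by
  funext j k
  by_contra h
  obtain ⟨a1, a2, _⟩ := hx i j k h
  omega

/-- preserving the weight spaces -/
def WtOK (N : ℤ) (Q : Module.End ℂ V) : Prop := ∀ a : ℤ, ∀ x ∈ Wt N a, Q x ∈ Wt N a

theorem L12_mem {N c : ℤ} {Q : Module.End ℂ V} (hQ : WtOK N Q) {x : V3} (hx : x ∈ W3 N c) :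
    L12 Q x ∈ W3 N c := by
  rw [mem_W3]
  intro i j k h
  rw [L12_apply] at h
  obtain ⟨a3, a4, a5, a6, a7⟩ := hQ _ _ (W3_sl hx i) j k h
  refine ⟨?_, ?_, a3, a4, a5, a6, by omega⟩
  · by_contra h1
    rw [W3_out hx (by omega), map_zero] at h
    exact h rfl
  · by_contra h1
    rw [W3_out hx (by omega), map_zero] at h
    exact h rfl

theorem L01_mem {N c : ℤ} {Q : Module.End ℂ V} (hQ : WtOK N Q) {x : V3} (hx : x ∈ W3 N c) :
    L01 Q x ∈ W3 N c := by
  rw [mem_W3]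
  intro i j k h
  rw [L01_apply] at h
  obtain ⟨a3, a4, a5, a6, a7⟩ := hQ _ _ (W3_sl' hx k) i j h
  have h0 : (k < 0 ∨ N ≤ k) → (fun a b => x a b k : V) = 0 := by
    intro hk
    funext a b
    by_contra h1
    obtain ⟨_, _, _, _, b1, b2, _⟩ := hx a b k h1
    omega
  refine ⟨a3, a4, a5, a6, ?_, ?_, by omega⟩
  · by_contra h1
    rw [h0 (by omega), map_zero] at h
    exact h rfl
  · by_contra h1
    rw [h0 (by omega), map_zero] at h
    exact h rfl

theorem E3_mem {t : ℂ} {N c : ℤ} {x : V3} (hx : x ∈ W3 N c) : E3 t N x ∈ W3 N (c - 1) := by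
  rw [mem_W3]
  intro i j k h
  rw [E3_apply] at h
  by_cases h1 : br t (i + 1) * t ^ ((2 * j - N + 1) + (2 * k - N + 1)) * x (i + 1) j k = 0
  · rw [h1, zero_add] at h
    have h2 := right_ne_zero_of_mul h
    obtain ⟨a3, a4, a5, a6, a7⟩ := Eo_mem (W3_sl hx i) j k h2
    refine ⟨?_, ?_, a3, a4, a5, a6, by omega⟩
    · by_contra h1
      rw [W3_out hx (by omega), map_zero] at h2
      exact h2 rfl
    · by_contra h1
      rw [W3_out hx (by omega), map_zero] at h2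
      exact h2 rfl
  · have h3 : x (i + 1) j k ≠ 0 := right_ne_zero_of_mul h1
    have h4 : br t (i + 1) ≠ 0 := left_ne_zero_of_mul (left_ne_zero_of_mul h1)
    obtain ⟨a1, a2, a3, a4, a5, a6, a7⟩ := hx _ _ _ h3
    have : i + 1 ≠ 0 := by intro h5; rw [h5] at h4; exact h4 (br_zero t)
    exact ⟨by omega, by omega, a3, a4, a5, a6, by omega⟩

theorem E3_L12 {t : ℂ} (ht : t ≠ 0) {N c : ℤ} {Q : Module.End ℂ V} (h : QOK t N Q) {x : V3}
    (hx : x ∈ W3 N c) : E3 t N (L12 Q x) = L12 Q (E3 t N x) := by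
  funext i
  rw [L12_apply]
  have e : E3 t N x i = br t (i + 1) • (fun j k => t ^ ((2 * j - N + 1) + (2 * k - N + 1)) *
      x (i + 1) j k : V) + t ^ (N - 1 - 2 * i) • Eo t N (x i) := by
    funext j k
    rw [E3_apply, Pi.add_apply, Pi.add_apply, Pi.smul_apply, Pi.smul_apply, Pi.smul_apply,
      Pi.smul_apply, smul_eq_mul, smul_eq_mul]
    ring
  rw [e, map_add, map_smul, map_smul, h.wt t ht, h.eo _ (Wt_BoxV (W3_sl hx i))]
  funext j k
  rw [E3_apply, L12_apply, L12_apply, Pi.add_apply, Pi.add_apply, Pi.smul_apply, Pi.smul_apply,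
    Pi.smul_apply, Pi.smul_apply, smul_eq_mul, smul_eq_mul]
  ring

theorem E3_L01 {t : ℂ} (ht : t ≠ 0) {N c : ℤ} {Q : Module.End ℂ V} (h : QOK t N Q) {x : V3}
    (hx : x ∈ W3 N c) : E3 t N (L01 Q x) = L01 Q (E3 t N x) := by
  funext i j k
  rw [L01_apply, E3_alt ht]
  have e : (fun a b => E3 t N x a b k) = t ^ (2 * k - N + 1) • Eo t N (fun a b => x a b k) +
      br t (k + 1) • (fun a b => (t⁻¹) ^ ((2 * a - N + 1) + (2 * b - N + 1)) * x a b (k + 1) : V) := by
    funext a b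
    rw [E3_alt ht, Pi.add_apply, Pi.add_apply, Pi.smul_apply, Pi.smul_apply, Pi.smul_apply,
      Pi.smul_apply, smul_eq_mul, smul_eq_mul]
    ring
  rw [e, map_add, map_smul, map_smul, h.wt _ (inv_ne_zero ht), h.eo _ (Wt_BoxV (W3_sl' hx k)),
    Pi.add_apply, Pi.add_apply, Pi.smul_apply, Pi.smul_apply, Pi.smul_apply,
    Pi.smul_apply, smul_eq_mul, smul_eq_mul]
  have e2 : (fun a b => L01 Q x a b k) = Q (fun a b => x a b k) := rfl
  rw [e2, L01_apply]
  ring

/-- the Casimir element is a good operator -/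
theorem Co_QOK {t : ℂ} (ht : t ≠ 0) (N : ℤ) : QOK t N (Co t N) := by
  refine ⟨fun x _ => (Eo_Co t ht N x).symm, fun x _ => (Fo_Co t ht N x).symm, ?_, ?_⟩
  · intro u hu x
    funext i j
    rw [Co_expand ht, Co_expand ht,
      show (2 * (i - 1) - N + 1) + (2 * (j + 1) - N + 1) = (2 * i - N + 1) + (2 * j - N + 1) by ring,
      show (2 * (i + 1) - N + 1) + (2 * (j - 1) - N + 1) = (2 * i - N + 1) + (2 * j - N + 1) by ring]
    ring
  · intro x hx i j h
    rw [Co_expand ht] at h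
    have hbr : ∀ m : ℤ, br t m ≠ 0 → m ≠ 0 := by
      intro m hm h0; rw [h0] at hm; exact hm (br_zero t)
    by_cases h1 : x i j = 0
    · rw [h1, mul_zero, zero_add] at h
      by_cases h2 : br t (N - i) * br t (j + 1) * t ^ (2 * j - 2 * i + 2) * x (i - 1) (j + 1) = 0
      · rw [h2, zero_add] at h
        obtain ⟨a1, a2, a3, a4⟩ := hx _ _ (right_ne_zero_of_mul h)
        have b1 := hbr _ (left_ne_zero_of_mul (left_ne_zero_of_mul (left_ne_zero_of_mul h)))
        have b2 := hbr _ (right_ne_zero_of_mul (left_ne_zero_of_mul (left_ne_zero_of_mul h)))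
        omega
      · obtain ⟨a1, a2, a3, a4⟩ := hx _ _ (right_ne_zero_of_mul h2)
        have b1 := hbr _ (left_ne_zero_of_mul (left_ne_zero_of_mul (left_ne_zero_of_mul h2)))
        have b2 := hbr _ (right_ne_zero_of_mul (left_ne_zero_of_mul (left_ne_zero_of_mul h2)))
        omega
    · exact hx i j h1

theorem Co_WtOK (t : ℂ) (N : ℤ) : WtOK N (Co t N) := fun _ _ hx => Co_mem hx

/-! ### highest weight vectors -/

/-- `C` on the strands 0, 1 on highest weight vectors -/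
theorem A3_hw {t : ℂ} (ht : t ≠ 0) {N c : ℤ} {x : V3} (hx : x ∈ W3 N c) (hE : E3 t N x = 0)
    (j k : ℤ) (hjk : j + k = c) : L01 (Co t N) x 0 j k = cc t N j * x 0 j k -
      t ^ (4 * N - 2 - 2 * c) * br t (N - j) * br t (k + 1) * x 0 (j - 1) (k + 1) := by
  rw [L01_apply, Co_expand ht]
  have h0 : x (0 - 1) = 0 := W3_out hx (Or.inl (by norm_num))
  have h1 : E3 t N x 0 (j - 1) k = 0 := by rw [hE]; rfl
  rw [E3_apply, Eo_apply, show j - 1 + 1 = j by ring, show (0 : ℤ) + 1 = 1 by norm_num] at h1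
  rw [h0, show (0 : ℤ) + 1 = 1 by norm_num]
  subst hjk
  simp only [Pi.zero_apply, mul_zero, add_zero, sub_zero]
  generalize x 0 j k = X0 at *
  generalize x 1 (j - 1) k = X1 at *
  generalize x 0 (j - 1) (k + 1) = X2 at *
  have key : br t 1 * t ^ (2 * j - 2) * X1 = -(t ^ (2 * N - 2) * br t j * X0) -
      t ^ (4 * N - 2 - 2 * (j + k)) * br t (k + 1) * X2 := by
    have e1 : t ^ (2 * j - 2) = t ^ (3 * N - 3 - 2 * k) *
        t ^ ((2 * (j - 1) - N + 1) + (2 * k - N + 1)) * t ^ (-(N : ℤ) + 1) := by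
      rw [← zpow_add₀ ht, ← zpow_add₀ ht]; congr 1; ring
    have e2 : t ^ (3 * N - 3 - 2 * k) * t ^ (-(N : ℤ) + 1) * t ^ (N - 1 - 2 * 0) *
        t ^ (2 * k - N + 1) = t ^ (2 * N - 2) := by
      rw [← zpow_add₀ ht, ← zpow_add₀ ht, ← zpow_add₀ ht]; congr 1; ring
    have e3 : t ^ (3 * N - 3 - 2 * k) * t ^ (-(N : ℤ) + 1) * t ^ (N - 1 - 2 * 0) *
        t ^ (N - 1 - 2 * (j - 1)) = t ^ (4 * N - 2 - 2 * (j + k)) := by
      rw [← zpow_add₀ ht, ← zpow_add₀ ht, ← zpow_add₀ ht]; congr 1; ring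
    rw [e1, ← e2, ← e3]
    linear_combination (t ^ (3 * N - 3 - 2 * k) * t ^ (-(N : ℤ) + 1)) * h1
  have key2 : (t ^ (4 * j + 2) + t ^ (4 * j - 4 * N + 2) - t ^ (4 * j + 2) +
      t ^ (4 * N - 2) + t ^ (-2 : ℤ) - t ^ (4 * j - 2)) -
      br t (N - j) * (t ^ (2 * N - 2) * br t j) = cc t N j := by
    unfold br cc
    have hJ : t ^ j ≠ 0 := zpow_ne_zero _ ht
    have hP : t ^ N ≠ 0 := zpow_ne_zero _ ht
    have e4 : ∀ n : ℤ, t ^ (4 * n) = t ^ n * t ^ n * t ^ n * t ^ n := by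
      intro n
      rw [← zpow_add₀ ht, ← zpow_add₀ ht, ← zpow_add₀ ht]; congr 1; ring
    have e2 : ∀ n : ℤ, t ^ (2 * n) = t ^ n * t ^ n := by
      intro n
      rw [← zpow_add₀ ht]; congr 1; ring
    simp only [e2, zpow_add₀ ht, zpow_sub₀ ht, zpow_neg, e4, zpow_one, mul_zero, sub_zero]
    have e5 : t ^ (2 : ℤ) = t * t := by rw [zpow_ofNat]; ring
    rw [e5]
    generalize t ^ j = J at *
    generalize t ^ N = P at *
    field_simp
    ring
  rw [← key2]
  linear_combination (br t (N - j)) * key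

end Pool.Agent.Lib_helper77.VC
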