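import Pool.Agent.Lib_helper77.VC3.Lim

set_option autoImplicit false

open Polynomial

namespace Pool.Agent.Lib_helper77.VC

/-- explicit divided differences of the eigenvalues of `Ro ^ a` -/
structure Fam (N a : ℕ) (D : ℂ → ℕ → ℕ → ℂ) : Prop where
  dd : ∀ t : ℂ, t ≠ 0 → BrOK t (N - 1) → ∀ s, s ≤ N →
    DD (fun n : ℕ => cc t N n) (fun k => lam t N k ^ a) s (D t)
  cont : ∀ f : ℂ → ℂ, ContinuousAt f 0 → f 0 ≠ 0 → BrOK (f 0) (N - 1) → ∀ n m : ℕ, n ≤ m → m < N →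
    ContinuousAt (fun z => D (f z) n m) 0

theorem prod_ca {ι : Type*} (s : Finset ι) {f : ι → ℂ → ℂ} (h : ∀ i ∈ s, ContinuousAt (f i) 0) :
    ContinuousAt (fun z => ∏ i ∈ s, f i z) 0 := tendsto_finsetProd s h

theorem qfac_ca {f : ℂ → ℂ} (hf : ContinuousAt f 0) (h0 : f 0 ≠ 0) (n : ℕ) :
    ContinuousAt (fun z => qfac (f z) n) 0 := by
  unfold qfac
  exact prod_ca _ (fun r _ => br_ca hf h0 _)

theorem Fam1 (N : ℕ) : Fam N 1 (fun t => Dx1 t N) := by
  refine ⟨fun t ht hb s hs => DD1 ht hb hs, ?_⟩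
  intro f hf h0 hb n m hnm hm
  unfold Dx1
  refine (continuousAt_const.mul (zpow_ca hf h0 _)).div
    ((prod_ca _ (fun r _ => br_ca hf h0 _)).mul (qfac_ca hf h0 _)) ?_
  refine mul_ne_zero ?_ (qfac_ne' hb (by omega))
  rw [Finset.prod_ne_zero_iff]
  intro r hr
  rw [Finset.mem_Ico] at hr
  have := hb (N - 1 - r) (by omega) (by omega)
  rwa [show ((N - 1 - r : ℕ) : ℤ) = (N : ℤ) - 1 - r by omega] at this

theorem Fam2 (N : ℕ) : Fam N 2 (fun t => Dx2 t N) := by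
  refine ⟨fun t ht hb s hs => DD2 ht hb hs, ?_⟩
  intro f hf h0 hb n m hnm hm
  unfold Dx2
  exact (zpow_ca hf h0 _).div (qfac_ca hf h0 _) (qfac_ne' hb (by omega))

theorem matrix_ca {s : ℕ} {A : ℂ → Matrix (Fin s) (Fin s) ℂ}
    (h : ∀ i j, ContinuousAt (fun z => A z i j) 0) : ContinuousAt A 0 :=
  continuousAt_pi.mpr fun i => continuousAt_pi.mpr fun j => h i j

theorem trace_ca {s : ℕ} {A B : ℂ → Matrix (Fin s) (Fin s) ℂ} (hA : ContinuousAt A 0)
    (hB : ContinuousAt B 0) (n : ℕ) :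
    ContinuousAt (fun z => Matrix.trace ((A z * B z) ^ n)) 0 := by
  have h1 : ContinuousAt (fun z => A z * B z) 0 := hA.mul hB
  have h2 : ContinuousAt (fun z => (A z * B z) ^ n) 0 := h1.pow n
  have h3 : Continuous (fun M : Matrix (Fin s) (Fin s) ℂ => Matrix.trace M) :=
    continuous_id.matrix_trace
  exact h3.continuousAt.comp h2

theorem XM_ca {N a s : ℕ} {D : ℂ → ℕ → ℕ → ℂ} (hD : Fam N a D) (hs : s ≤ N) {f : ℂ → ℂ}
    (hf : ContinuousAt f 0) (h0 : f 0 ≠ 0) (hb : BrOK (f 0) (N - 1)) :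
    ContinuousAt (fun z => XM (D (f z)) s) 0 := by
  apply matrix_ca
  intro i j
  unfold XM
  simp only [Matrix.of_apply]
  split_ifs with h
  · exact hD.cont f hf h0 hb _ _ h (by omega)
  · exact continuousAt_const

theorem phi_ca {f : ℂ → ℂ} (hf : ContinuousAt f 0) (h0 : f 0 ≠ 0) (N c n : ℕ) :
    ContinuousAt (fun z => phi (f z) N c n) 0 := by
  unfold phi
  exact ((((br_ca hf h0 _).mul (br_ca hf h0 _)).mul (br_ca hf h0 _)).mul (br_ca hf h0 _)).neg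

theorem YM_ca {N a s c : ℕ} {D : ℂ → ℕ → ℕ → ℂ} (hD : Fam N a D) (hs : s ≤ N) {f g : ℂ → ℂ}
    (hf : ContinuousAt f 0) (h0 : f 0 ≠ 0) (hb : BrOK (f 0) (N - 1)) (hg : ContinuousAt g 0)
    (g0 : g 0 ≠ 0) : ContinuousAt (fun z => YM (D (f z)) (phi (g z) N c) s) 0 := by
  apply matrix_ca
  intro i j
  unfold YM
  simp only [Matrix.of_apply]
  split_ifs with h
  · exact (hD.cont f hf h0 hb _ _ h (by omega)).mul (prod_ca _ (fun r _ => phi_ca hg g0 N c _))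
  · exact continuousAt_const

theorem DD.inv {N a : ℕ} {D : ℂ → ℕ → ℕ → ℂ} (hD : Fam N a D) {t : ℂ} (ht : t ≠ 0)
    (hb : BrOK t (N - 1)) {s : ℕ} (hs : s ≤ N) :
    DD (fun n : ℕ => cc t N n) (fun k => lam t⁻¹ N k ^ a) s (D t⁻¹) := by
  have h := hD.dd t⁻¹ (inv_ne_zero ht) hb.inv s hs
  have e : (fun n : ℕ => cc t⁻¹ N n) = fun n : ℕ => cc t N n := funext fun n => cc_inv t N n
  rwa [e] at h

theorem tau_Wa {N a c : ℕ} (hc : c < N) {D : ℂ → ℕ → ℕ → ℂ} (hD : Fam N a D) (n : ℕ) :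
    tauc (rt N) N (Wa (rt N) N a n) c = Matrix.trace
      ((YM (D (rt N)⁻¹) (phi (rt N) N c) (c + 1) * XM (D (rt N)) (c + 1)) ^ n) := by
  have hf := (tz_diff N).continuousAt
  have h0 : tz N 0 ≠ 0 := by rw [tz_zero]; exact rt_ne N
  have hfi := (tzi_diff N).continuousAt
  have h0i : (tz N 0)⁻¹ ≠ 0 := inv_ne_zero h0
  have hb : BrOK (tz N 0) (N - 1) := by rw [tz_zero]; exact BrOK_rt
  have h := tau_of_lim hc (T := fun z => Wa (tz N z) N a n)
    (F := fun z => Matrix.trace ((YM (D (tz N z)⁻¹) (phi (tz N z) N c) (c + 1) *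
      XM (D (tz N z)) (c + 1)) ^ n))
    (fun m => Tw_Wa (Gen_of (tz_ne N m) (BrOK_tz N m _)) a n) (CO_Wa N a n)
    (by rw [tz_zero]; exact Tw_Wa_rt N a n) (fun z c => Wa_mem _ _ _ _ c)
    (trace_ca (YM_ca hD (by omega) hfi h0i hb.inv hf h0) (XM_ca hD (by omega) hf h0 hb) n)
    (fun m => by
      have ht := tz_ne N m
      have hb3 := BrOK_tz N m (3 * N)
      have hgen := Gen_of ht hb3
      have h1 := (trp_HW ht hc hb3 (Spc_Ro hgen (by omega) a) (Spc_Rm hgen (by omega) a)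
        (hD.dd _ ht (hb3.mono (by omega)) (c + 1) (by omega))
        (DD.inv hD ht (hb3.mono (by omega)) (s := c + 1) (by omega)) n).1
      rw [L12_pow, L01_pow] at h1
      exact h1)
  simp only [tz_zero] at h
  exact h

theorem tau_Wb {N a c : ℕ} (hc : c < N) {D : ℂ → ℕ → ℕ → ℂ} (hD : Fam N a D) (n : ℕ) :
    tauc (rt N) N (Wb (rt N) N a n) c = Matrix.trace
      ((XM (D (rt N)⁻¹) (c + 1) * YM (D (rt N)) (phi (rt N) N c) (c + 1)) ^ n) := by
  have hf := (tz_diff N).continuousAt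
  have h0 : tz N 0 ≠ 0 := by rw [tz_zero]; exact rt_ne N
  have hfi := (tzi_diff N).continuousAt
  have h0i : (tz N 0)⁻¹ ≠ 0 := inv_ne_zero h0
  have hb : BrOK (tz N 0) (N - 1) := by rw [tz_zero]; exact BrOK_rt
  have h := tau_of_lim hc (T := fun z => Wb (tz N z) N a n)
    (F := fun z => Matrix.trace ((XM (D (tz N z)⁻¹) (c + 1) *
      YM (D (tz N z)) (phi (tz N z) N c) (c + 1)) ^ n))
    (fun m => Tw_Wb (Gen_of (tz_ne N m) (BrOK_tz N m _)) a n) (CO_Wb N a n)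
    (by rw [tz_zero]; exact Tw_Wb_rt N a n) (fun z c => Wb_mem _ _ _ _ c)
    (trace_ca (XM_ca hD (by omega) hfi h0i hb.inv) (YM_ca hD (by omega) hf h0 hb hf h0) n)
    (fun m => by
      have ht := tz_ne N m
      have hb3 := BrOK_tz N m (3 * N)
      have hgen := Gen_of ht hb3
      have h1 := (trp_HW ht hc hb3 (Spc_Rm hgen (by omega) a) (Spc_Ro hgen (by omega) a)
        (DD.inv hD ht (hb3.mono (by omega)) (s := c + 1) (by omega))
        (hD.dd _ ht (hb3.mono (by omega)) (c + 1) (by omega)) n).2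
      rw [L12_pow, L01_pow] at h1
      exact h1)
  simp only [tz_zero] at h
  exact h

/-! ### reversing the three strands -/

/-- `x ↦ x (N-1-k, N-1-j, N-1-i)` -/
noncomputable def S3 (N : ℤ) : Module.End ℂ V3 where
  toFun x i j k := x (N - 1 - k) (N - 1 - j) (N - 1 - i)
  map_add' x y := rfl
  map_smul' c x := rfl

theorem S3_apply (N : ℤ) (x : V3) (i j k : ℤ) : S3 N x i j k = x (N - 1 - k) (N - 1 - j) (N - 1 - i) :=
  rfl

theorem S3_S3 (N : ℤ) (x : V3) : S3 N (S3 N x) = x := by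
  funext i j k
  rw [S3_apply, S3_apply]
  congr 1 <;> ring

theorem S3_mem {N c c' : ℤ} (hc : c + c' = 3 * N - 3) {x : V3} (hx : x ∈ W3 N c) :
    S3 N x ∈ W3 N c' := by
  rw [mem_W3]
  intro i j k h
  obtain ⟨a1, a2, a3, a4, a5, a6, a7⟩ := hx _ _ _ h
  omega

theorem S3_L01 {N : ℤ} {Q : Module.End ℂ V} (h : ∀ x, So N (Q x) = Q (So N x)) (x : V3) :
    S3 N (L01 Q x) = L12 Q (S3 N x) := by
  funext i j k
  rw [S3_apply, L01_apply, L12_apply]
  have h1 := congrFun (congrFun (h (fun a b => x a b (N - 1 - i))) j) k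
  rw [So_apply] at h1
  exact h1

theorem S3_L12 {N : ℤ} {Q : Module.End ℂ V} (h : ∀ x, So N (Q x) = Q (So N x)) (x : V3) :
    S3 N (L12 Q x) = L01 Q (S3 N x) := by
  funext i j k
  rw [S3_apply, L12_apply, L01_apply]
  have h1 := congrFun (congrFun (h (x (N - 1 - k))) i) j
  rw [So_apply] at h1
  exact h1

theorem So_Rm (t : ℂ) (N : ℤ) (x : V) : So N (Rm t N x) = Rm t N (So N x) := by
  funext i j
  rw [So_apply, Rm_apply, Rm_apply]
  have h1 := congrFun (congrFun (So_Ro t⁻¹ N (fun a b => x b a)) j) i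
  rw [So_apply] at h1
  exact h1

theorem S3_pow {N : ℤ} {P Q : Module.End ℂ V3} (h : ∀ x, S3 N (P x) = Q (S3 N x)) (n : ℕ) (x : V3) :
    S3 N ((P ^ n) x) = (Q ^ n) (S3 N x) := by
  induction n with
  | zero => rfl
  | succ n ih => rw [pow_succ', pow_succ', Module.End.mul_apply, Module.End.mul_apply, h, ih]

theorem S3_Wa (t : ℂ) (N : ℤ) (a n : ℕ) (x : V3) : S3 N (Wa t N a n x) = Wb t N a n (S3 N x) := by
  unfold Wa Wb
  apply S3_pow
  intro x
  rw [Module.End.mul_apply, Module.End.mul_apply,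
    S3_pow (fun x => S3_L12 (fun y => So_Rm t N y) x) a, S3_pow (fun x => S3_L01 (fun y => So_Ro t N y) x) a]

/-- the total trace of the braid word at the root of unity -/
theorem total_Wa {N : ℕ} (hN : 2 ≤ N) {a : ℕ} {D : ℂ → ℕ → ℕ → ℂ} (hD : Fam N a D) (n : ℕ) :
    ∑ p ∈ Finset.range N ×ˢ Finset.range N ×ˢ Finset.range N,
      (Wa (rt N) N a n (dl p) (p.1 : ℤ) (p.2.1 : ℤ) (p.2.2 : ℤ) : ℂ) =
    N * (∑ c ∈ Finset.range N, Matrix.trace
        ((YM (D (rt N)⁻¹) (phi (rt N) N c) (c + 1) * XM (D (rt N)) (c + 1)) ^ n) +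
      ∑ c ∈ Finset.range (N - 1), Matrix.trace
        ((XM (D (rt N)⁻¹) (c + 1) * YM (D (rt N)) (phi (rt N) N c) (c + 1)) ^ n)) := by
  have hN1 : 1 ≤ N := by omega
  rw [total_trace hN1 (Tw_Wa_rt N a n)]
  congr 1
  have e1 : (N : ℤ) - 1 = ((N - 1 : ℕ) : ℤ) := by omega
  have e2 : trp (Wa (rt N) N a n) (W3 (N : ℤ) (2 * (N : ℤ) - 1)) =
      trp (Wb (rt N) N a n) (W3 (N : ℤ) ((N - 2 : ℕ) : ℤ)) := by
    refine trp_conj (S := S3 N) (Wa_mem _ _ _ _ _) (fun x hx => S3_mem ?_ hx)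
      (fun x hx => S3_mem ?_ hx) (S3_S3 _) (fun x _ => S3_Wa _ _ _ _ x)
    · omega
    · omega
  rw [e1, e2, z_low hN1 (Tw_Wa_rt N a n) (N - 1) (by omega), z_low hN1 (Tw_Wb_rt N a n) (N - 2) (by omega),
    show N - 1 + 1 = N by omega, show N - 2 + 1 = N - 1 by omega]
  congr 1
  · exact Finset.sum_congr rfl fun c hc => tau_Wa (Finset.mem_range.mp hc) hD n
  · refine Finset.sum_congr rfl fun c hc => tau_Wb ?_ hD n
    rw [Finset.mem_range] at hc
    omega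

end Pool.Agent.Lib_helper77.VC
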