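import Pool.Agent.Lib_helper77.VC3.Chain2

set_option autoImplicit false

open Polynomial

namespace Pool.Agent.Lib_helper77.VC

open Classical in
/-- trace on an invariant subspace -/
noncomputable def trp (T : Module.End ℂ V3) (P : Submodule ℂ V3) : ℂ :=
  if h : ∀ x ∈ P, T x ∈ P then LinearMap.trace ℂ P (T.restrict h) else 0

theorem trp_eq {T : Module.End ℂ V3} {P : Submodule ℂ V3} (h : ∀ x ∈ P, T x ∈ P) :
    trp T P = LinearMap.trace ℂ P (T.restrict h) := by
  unfold trp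
  rw [dif_pos h]

theorem trp_surj {P Q : Submodule ℂ V3} (hP : FiniteDimensional ℂ P) (hQ : FiniteDimensional ℂ Q)
    {T E : Module.End ℂ V3} (hT : ∀ x ∈ P, T x ∈ P) (hT' : ∀ x ∈ Q, T x ∈ Q)
    (hE : ∀ x ∈ P, E x ∈ Q) (hs : ∀ y ∈ Q, ∃ x ∈ P, E x = y)
    (hc : ∀ x ∈ P, E (T x) = T (E x)) :
    trp T P = trp T (P ⊓ LinearMap.ker E) + trp T Q := by
  let E' : P →ₗ[ℂ] Q := E.restrict hE
  have hE's : Function.Surjective E' := by
    intro y
    obtain ⟨x, hx, hxy⟩ := hs y y.2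
    exact ⟨⟨x, hx⟩, Subtype.ext hxy⟩
  have hk : ∀ x ∈ P ⊓ LinearMap.ker E, T x ∈ P ⊓ LinearMap.ker E := by
    intro x hx
    refine ⟨hT x hx.1, ?_⟩
    have h1 : E x = 0 := hx.2
    show E (T x) = 0
    rw [hc x hx.1, h1, map_zero]
  have hK : ∀ x ∈ LinearMap.ker E', (T.restrict hT) x ∈ LinearMap.ker E' := by
    intro x hx
    have h1 : E' x = 0 := hx
    have h2 : E (x : V3) = 0 := congrArg Subtype.val h1
    show E' ((T.restrict hT) x) = 0
    apply Subtype.ext
    show E (T x) = 0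
    rw [hc x x.2, h2, map_zero]
  have h1 := trace_surj E' hE's (T.restrict hT) (T.restrict hT')
    (fun x => Subtype.ext (hc x x.2)) hK
  rw [trp_eq hT, trp_eq hT', trp_eq hk, h1]
  congr 1
  let e : LinearMap.ker E' ≃ₗ[ℂ] (P ⊓ LinearMap.ker E : Submodule ℂ V3) :=
    { toFun := fun x => ⟨x.1.1, x.1.2, congrArg Subtype.val (show E' x.1 = 0 from x.2)⟩
      invFun := fun x => ⟨⟨x.1, x.2.1⟩, Subtype.ext (show E x.1 = 0 from x.2.2)⟩
      map_add' := fun x y => rfl
      map_smul' := fun a x => rfl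
      left_inv := fun x => rfl
      right_inv := fun x => rfl }
  have h2 := @LinearMap.trace_conj' ℂ _ (LinearMap.ker E') _ _
    (P ⊓ LinearMap.ker E : Submodule ℂ V3) _ _ (LinearMap.restrict (T.restrict hT) hK) e
  rw [← h2]
  congr 1

theorem trp_conj {P Q : Submodule ℂ V3} {T T' S : Module.End ℂ V3} (hT : ∀ x ∈ P, T x ∈ P)
    (hS : ∀ x ∈ P, S x ∈ Q) (hS' : ∀ y ∈ Q, S y ∈ P) (hSS : ∀ x, S (S x) = x)
    (hc : ∀ x ∈ P, S (T x) = T' (S x)) : trp T P = trp T' Q := by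
  have hT' : ∀ x ∈ Q, T' x ∈ Q := by
    intro x hx
    have h1 := hc (S x) (hS' x hx)
    rw [hSS] at h1
    rw [← h1]
    exact hS _ (hT _ (hS' x hx))
  rw [trp_eq hT, trp_eq hT']
  let e : P ≃ₗ[ℂ] Q :=
    { toFun := fun x => ⟨S x.1, hS _ x.2⟩
      invFun := fun x => ⟨S x.1, hS' _ x.2⟩
      map_add' := fun x y => Subtype.ext (map_add S _ _)
      map_smul' := fun a x => Subtype.ext (map_smul S _ _)
      left_inv := fun x => Subtype.ext (hSS _)
      right_inv := fun x => Subtype.ext (hSS _) }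
  rw [← LinearMap.trace_conj' (T.restrict hT) e]
  congr 1
  apply LinearMap.ext
  intro x
  apply Subtype.ext
  show S (T (S x.1)) = T' x.1
  rw [hc _ (hS' _ x.2), hSS]

theorem trp_congr {P : Submodule ℂ V3} {T T' : Module.End ℂ V3} (h : ∀ x ∈ P, T x = T' x) :
    trp T P = trp T' P := by
  by_cases h1 : ∀ x ∈ P, T x ∈ P
  · have h2 : ∀ x ∈ P, T' x ∈ P := fun x hx => by rw [← h x hx]; exact h1 x hx
    rw [trp_eq h1, trp_eq h2]
    congr 1
    apply LinearMap.ext
    intro x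
    exact Subtype.ext (h x x.2)
  · have h2 : ¬ ∀ x ∈ P, T' x ∈ P := fun h2 => h1 fun x hx => by rw [h x hx]; exact h2 x hx
    unfold trp
    rw [dif_neg h1, dif_neg h2]

theorem trp_bot {P : Submodule ℂ V3} (hP : P = ⊥) (T : Module.End ℂ V3) : trp T P = 0 := by
  subst hP
  have h : ∀ x ∈ (⊥ : Submodule ℂ V3), T x ∈ (⊥ : Submodule ℂ V3) := by
    intro x hx
    rw [Submodule.mem_bot] at hx ⊢
    rw [hx, map_zero]
  rw [trp_eq h]
  have : T.restrict h = 0 := by
    apply LinearMap.ext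
    intro x
    apply Subtype.ext
    have hx := x.2
    rw [Submodule.mem_bot] at hx
    show T x.1 = 0
    rw [hx, map_zero]
  rw [this, map_zero]

/-! ### functional calculus in three strands -/

theorem L01_mul (P Q : Module.End ℂ V) : L01 (P * Q) = L01 P * L01 Q := rfl

theorem L12_mul (P Q : Module.End ℂ V) : L12 (P * Q) = L12 P * L12 Q := rfl

theorem L01_pow (P : Module.End ℂ V) (n : ℕ) : L01 (P ^ n) = L01 P ^ n := by
  induction n with
  | zero => rfl
  | succ n ih => rw [pow_succ, pow_succ, L01_mul, ih]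

theorem L12_pow (P : Module.End ℂ V) (n : ℕ) : L12 (P ^ n) = L12 P ^ n := by
  induction n with
  | zero => rfl
  | succ n ih => rw [pow_succ, pow_succ, L12_mul, ih]

theorem L01_aeval (C : Module.End ℂ V) (p : ℂ[X]) : L01 (aeval C p) = aeval (L01 C) p := by
  induction p using Polynomial.induction_on' with
  | add p q hp hq => rw [map_add, map_add, ← hp, ← hq]; rfl
  | monomial n a =>
    rw [aeval_monomial, aeval_monomial, L01_mul, L01_pow]
    rfl

theorem L12_aeval (C : Module.End ℂ V) (p : ℂ[X]) : L12 (aeval C p) = aeval (L12 C) p := by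
  induction p using Polynomial.induction_on' with
  | add p q hp hq => rw [map_add, map_add, ← hp, ← hq]; rfl
  | monomial n a =>
    rw [aeval_monomial, aeval_monomial, L12_mul, L12_pow]
    rfl

/-- an operator which is a polynomial of the Casimir operator, with eigenvalues `f` -/
def Spc (t : ℂ) (N : ℕ) (Q : Module.End ℂ V) (f : ℕ → ℂ) : Prop :=
  ∃ p : ℂ[X], (∀ k, k < N → p.eval (cc t N k) = f k) ∧
    ∀ a : ℤ, ∀ x ∈ Wt (N : ℤ) a, Q x = aeval (Co t N) p x

theorem L01_spc {t : ℂ} {N : ℕ} {Q : Module.End ℂ V} {p : ℂ[X]}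
    (h : ∀ a : ℤ, ∀ x ∈ Wt (N : ℤ) a, Q x = aeval (Co t N) p x) {c : ℤ} {x : V3}
    (hx : x ∈ W3 (N : ℤ) c) : L01 Q x = aeval (L01 (Co t N)) p x := by
  rw [← L01_aeval]
  funext i j k
  rw [L01_apply, L01_apply, h _ _ (W3_sl' hx k)]

theorem L12_spc {t : ℂ} {N : ℕ} {Q : Module.End ℂ V} {p : ℂ[X]}
    (h : ∀ a : ℤ, ∀ x ∈ Wt (N : ℤ) a, Q x = aeval (Co t N) p x) {c : ℤ} {x : V3}
    (hx : x ∈ W3 (N : ℤ) c) : L12 Q x = aeval (L12 (Co t N)) p x := by
  rw [← L12_aeval]
  funext i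
  rw [L12_apply, L12_apply, h _ _ (W3_sl hx i)]

theorem aeval_restrict {M : Type*} [AddCommGroup M] [Module ℂ M] {A : Module.End ℂ M}
    {P : Submodule ℂ M} (h : ∀ x ∈ P, A x ∈ P) (p : ℂ[X]) (x : P) :
    ((aeval (A.restrict h : Module.End ℂ P) p x : P) : M) = aeval A p (x : M) := by
  induction p using Polynomial.induction_on' with
  | add p q hp hq => rw [map_add, map_add, LinearMap.add_apply, LinearMap.add_apply, ← hp, ← hq]; rfl
  | monomial n a =>
    rw [aeval_monomial, aeval_monomial, Module.End.mul_apply, Module.End.mul_apply]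
    have : ∀ n : ℕ, (((A.restrict h : Module.End ℂ P) ^ n) x : M) = (A ^ n) (x : M) := by
      intro n
      induction n with
      | zero => rfl
      | succ n ih => rw [pow_succ', pow_succ', Module.End.mul_apply, Module.End.mul_apply, ← ih]; rfl
    rw [Module.algebraMap_end_apply, Module.algebraMap_end_apply, ← this]
    rfl

theorem aeval_mem_of {M : Type*} [AddCommGroup M] [Module ℂ M] {A : Module.End ℂ M}
    {P : Submodule ℂ M} (h : ∀ x ∈ P, A x ∈ P) (p : ℂ[X]) {x : M} (hx : x ∈ P) :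
    aeval A p x ∈ P := by
  have := aeval_restrict h p ⟨x, hx⟩
  rw [← this]
  exact Subtype.property _

theorem A_HW {t : ℂ} (ht : t ≠ 0) {N c : ℕ} : ∀ x ∈ HW t N c, L01 (Co t N) x ∈ HW t N c := by
  intro x hx
  refine ⟨L01_mem (Co_WtOK t N) hx.1, ?_⟩
  show E3 t N _ = 0
  rw [E3_L01 ht (Co_QOK ht N) hx.1, show E3 t N x = 0 from hx.2, map_zero]

theorem B_HW {t : ℂ} (ht : t ≠ 0) {N c : ℕ} : ∀ x ∈ HW t N c, L12 (Co t N) x ∈ HW t N c := by
  intro x hx
  refine ⟨L12_mem (Co_WtOK t N) hx.1, ?_⟩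
  show E3 t N _ = 0
  rw [E3_L12 ht (Co_QOK ht N) hx.1, show E3 t N x = 0 from hx.2, map_zero]

theorem Low.res {M : Type*} [AddCommGroup M] [Module ℂ M] {A : Module.End ℂ M}
    {P : Submodule ℂ M} (hA : ∀ x ∈ P, A x ∈ P) {γ : ℕ → ℂ} {s : ℕ} {u : ℕ → M} (h : Low A γ s u)
    (hu : ∀ n, u n ∈ P) : Low (A.restrict hA : Module.End ℂ P) γ s (fun n => ⟨u n, hu n⟩) :=
  ⟨fun n => Subtype.ext (h.step n), Subtype.ext h.last⟩

theorem Upp.res {M : Type*} [AddCommGroup M] [Module ℂ M] {A : Module.End ℂ M}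
    {P : Submodule ℂ M} (hA : ∀ x ∈ P, A x ∈ P) {γ φ : ℕ → ℂ} {u : ℕ → M} (h : Upp A γ φ u)
    (hu : ∀ n, u n ∈ P) : Upp (A.restrict hA : Module.End ℂ P) γ φ (fun n => ⟨u n, hu n⟩) :=
  ⟨Subtype.ext h.first, fun n => Subtype.ext (h.step n)⟩

theorem cc_ne {t : ℂ} (ht : t ≠ 0) {N : ℕ} (hb : BrOK t (3 * N)) (n m : ℕ) (hn : n < N) (hm : m < N)
    (hnm : n ≠ m) : cc t N n ≠ cc t N m := by
  intro h
  have h1 := Near.cc_sub t ht N n m
  rw [h, sub_self] at h1
  have h2 : br t (2 * (N : ℤ) - 1 - n - m) ≠ 0 := by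
    have := hb (2 * N - 1 - n - m) (by omega) (by omega)
    rwa [show ((2 * N - 1 - n - m : ℕ) : ℤ) = 2 * (N : ℤ) - 1 - n - m by omega] at this
  have h3 : br t ((m : ℤ) - n) ≠ 0 := by
    rcases lt_or_gt_of_ne hnm with h4 | h4
    · have := hb (m - n) (by omega) (by omega)
      rwa [show ((m - n : ℕ) : ℤ) = (m : ℤ) - n by omega] at this
    · have := hb (n - m) (by omega) (by omega)
      rw [show ((n - m : ℕ) : ℤ) = -((m : ℤ) - n) by omega, br_neg] at this
      exact neg_ne_zero.mp this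
  exact mul_ne_zero h2 h3 h1.symm

theorem trp_HW {t : ℂ} (ht : t ≠ 0) {N c : ℕ} (hc : c < N) (hb : BrOK t (3 * N))
    {Q1 Q2 : Module.End ℂ V} {f1 f2 : ℕ → ℂ} (h1 : Spc t N Q1 f1) (h2 : Spc t N Q2 f2)
    {D1 D2 : ℕ → ℕ → ℂ} (hD1 : DD (fun n : ℕ => cc t N n) f1 (c + 1) D1)
    (hD2 : DD (fun n : ℕ => cc t N n) f2 (c + 1) D2) (n : ℕ) :
    trp ((L12 Q2 * L01 Q1) ^ n) (HW t N c) =
      Matrix.trace ((YM D2 (phi t N c) (c + 1) * XM D1 (c + 1)) ^ n) ∧
    trp ((L01 Q1 * L12 Q2) ^ n) (HW t N c) =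
      Matrix.trace ((XM D1 (c + 1) * YM D2 (phi t N c) (c + 1)) ^ n) := by
  have hb' : BrOK t (N - 1) := hb.mono (by omega)
  have hN : 1 ≤ N := by omega
  obtain ⟨u, hu⟩ := exists_chain ht hc hb'
  obtain ⟨p1, hp1, hq1⟩ := h1
  obtain ⟨p2, hp2, hq2⟩ := h2
  have huH : ∀ n, u n ∈ HW t N c := fun n => ⟨hu.mem n, hu.hw n⟩
  have hlow := (hu.low ht hN hb').res (A_HW ht) huH
  have hupp := (hu.upp ht hN hb').res (B_HW ht) huH
  have hne : ∀ n m, n < c + 1 → m < c + 1 → n ≠ m →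
      (fun n : ℕ => cc t N n) n ≠ (fun n : ℕ => cc t N n) m :=
    fun n m hn hm hnm => cc_ne ht hb n m (by omega) (by omega) hnm
  have m1 := toMatrix_low hlow hD1 hne (fun n hn => hp1 n (by omega)) (hu.basis ht hc hb)
    (fun i => hu.basis_apply ht hc hb i)
  have m2 := toMatrix_upp hupp hD2 hne (fun n hn => hp2 n (by omega)) (hu.basis ht hc hb)
    (fun i => hu.basis_apply ht hc hb i)
  have g1 : ∀ x ∈ HW t N c, L01 Q1 x ∈ HW t N c := by
    intro x hx
    rw [L01_spc hq1 hx.1]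
    exact aeval_mem_of (A_HW ht) _ hx
  have g2 : ∀ x ∈ HW t N c, L12 Q2 x ∈ HW t N c := by
    intro x hx
    rw [L12_spc hq2 hx.1]
    exact aeval_mem_of (B_HW ht) _ hx
  have r1 : (L01 Q1).restrict g1 = aeval ((L01 (Co t N)).restrict (A_HW ht) : Module.End ℂ (HW t N c)) p1 := by
    apply LinearMap.ext
    intro x
    apply Subtype.ext
    rw [aeval_restrict]
    exact L01_spc hq1 x.2.1
  have r2 : (L12 Q2).restrict g2 = aeval ((L12 (Co t N)).restrict (B_HW ht) : Module.End ℂ (HW t N c)) p2 := by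
    apply LinearMap.ext
    intro x
    apply Subtype.ext
    rw [aeval_restrict]
    exact L12_spc hq2 x.2.1
  have key : ∀ (S S' : Module.End ℂ V3) (gS : ∀ x ∈ HW t N c, S x ∈ HW t N c)
      (gS' : ∀ x ∈ HW t N c, S' x ∈ HW t N c),
      trp ((S * S') ^ n) (HW t N c) = LinearMap.trace ℂ _
        (((S.restrict gS : Module.End ℂ (HW t N c)) * (S'.restrict gS' : Module.End ℂ (HW t N c))) ^ n) := by
    intro S S' gS gS'
    have gg : ∀ n : ℕ, ∀ x ∈ HW t N c, ((S * S') ^ n) x ∈ HW t N c := by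
      intro n
      induction n with
      | zero => intro x hx; exact hx
      | succ n ih =>
        intro x hx
        rw [pow_succ', Module.End.mul_apply, Module.End.mul_apply]
        exact gS _ (gS' _ (ih x hx))
    rw [trp_eq (gg n)]
    congr 1
    apply LinearMap.ext
    intro x
    apply Subtype.ext
    show ((S * S') ^ n) x.1 = _
    have : ∀ n : ℕ, ((S * S') ^ n) x.1 = ((((S.restrict gS : Module.End ℂ (HW t N c)) *
        (S'.restrict gS' : Module.End ℂ (HW t N c))) ^ n) x).1 := by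
      intro n
      induction n with
      | zero => rfl
      | succ n ih =>
        rw [pow_succ', pow_succ', Module.End.mul_apply, ih]
        rfl
    exact this n
  constructor
  · rw [key _ _ g2 g1, LinearMap.trace_eq_matrix_trace ℂ (hu.basis ht hc hb),
      ← LinearMap.toMatrix_pow, LinearMap.toMatrix_mul, r1, r2, m1, m2]
  · rw [key _ _ g1 g2, LinearMap.trace_eq_matrix_trace ℂ (hu.basis ht hc hb),
      ← LinearMap.toMatrix_pow, LinearMap.toMatrix_mul, r1, r2, m1, m2]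

end Pool.Agent.Lib_helper77.VC
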